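import Pool.Agent.Q204.NA.Lo4

set_option autoImplicit false

/-! # The profile of the levels -/

open Finset Filter Topology MeasureTheory
open Q239.RN

namespace Q204.NA

theorem kT_le {C θ' : ℝ} (hC : 0 < C) (hθ : θ' < 1)
    (h : ∀ v : ℝ, 0 ≤ v → |eT v| ≤ C * Real.exp ((θ' - 1) * v)) {j : ℕ} (hj : 3 ≤ j) :
    |kT (Real.log j)| ≤ 2 * C / (1 - θ') * (j : ℝ) ^ (θ' - 1) := by
  have ha : 0 < 1 - θ' := by linarith
  have hu := (log_gt_one hj).le
  have hjp : (0 : ℝ) < j := by exact_mod_cast (by omega : 0 < j)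
  have h1 := kbound_exp (g := eT) (C := C) (a := 1 - θ') ha hC.le (fun v hv => by
    have := h v (by linarith)
    rwa [show -(1 - θ') * v = (θ' - 1) * v by ring]) hu
  unfold kT
  rw [abs_neg]
  refine h1.trans ?_
  have e : Real.exp (-(1 - θ') * Real.log j) = (j : ℝ) ^ (θ' - 1) := by
    rw [Real.rpow_def_of_pos hjp]; congr 1; ring
  rw [e]
  exact div_le_self (by positivity) hu

theorem kT_sub {C θ' : ℝ} (hC : 0 < C) (hθ : θ' < 1)
    (h : ∀ v : ℝ, 0 ≤ v → |eT v| ≤ C * Real.exp ((θ' - 1) * v)) {u1 u2 : ℝ} (h1 : 1 ≤ u1) (h12 : u1 ≤ u2) :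
    |kT u2 - kT u1| ≤ 2 * C * Real.exp ((θ' - 1) * u1) * (u2 - u1) := by
  have e : kT u2 - kT u1 = ∫ v in Set.Ioc u1 u2, eT v * om v := by
    unfold kT
    rw [tail_diff h12 (eT_int h1)]
    ring
  rw [e]
  have h2 : ∀ v ∈ Set.Ioc u1 u2, ‖eT v * om v‖ ≤ 2 * C * Real.exp ((θ' - 1) * u1) := by
    intro v hv
    have hv1 : 1 ≤ v := h1.trans hv.1.le
    have hv0 : 0 < v := by linarith
    rw [norm_mul, Real.norm_eq_abs, Real.norm_eq_abs, abs_of_pos (om_pos hv0)]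
    have h3 := h v hv0.le
    have h4 : om v ≤ 2 := (om_le hv1).trans (div_le_self (by norm_num) hv1)
    have h5 : Real.exp ((θ' - 1) * v) ≤ Real.exp ((θ' - 1) * u1) := by
      apply Real.exp_le_exp.2
      nlinarith [hv.1]
    have h6 := (om_pos hv0).le
    calc |eT v| * om v ≤ (C * Real.exp ((θ' - 1) * u1)) * 2 := by
          gcongr
          exact h3.trans (by gcongr)
      _ = _ := by ring
  have h3 := norm_setIntegral_le_of_norm_le_const (μ := volume) (s := Set.Ioc u1 u2)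
    (f := fun v => eT v * om v) (by rw [Real.volume_Ioc]; exact ENNReal.ofReal_lt_top) h2
  rw [Real.norm_eq_abs] at h3
  refine h3.trans (le_of_eq ?_)
  rw [Measure.real, Real.volume_Ioc, ENNReal.toReal_ofReal (by linarith)]

theorem sqrt_add_le' {a b : ℝ} (ha : 0 ≤ a) (hb : 0 ≤ b) :
    Real.sqrt (a + b) ≤ Real.sqrt a + Real.sqrt b := by
  rw [Real.sqrt_le_iff]
  refine ⟨by positivity, ?_⟩
  rw [add_sq, Real.sq_sqrt ha, Real.sq_sqrt hb]
  have : 0 ≤ Real.sqrt a * Real.sqrt b := by positivity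
  linarith

/-- the profile -/
noncomputable def Fr (j : ℕ) : ℝ := j * Real.sqrt (max (kT (Real.log j)) 0 / Real.log j)

theorem Fr_nonneg (j : ℕ) : 0 ≤ Fr j := by unfold Fr; positivity

theorem Fr_le {C θ' : ℝ} (hC : 0 < C) (hθ : θ' < 1)
    (h : ∀ v : ℝ, 0 ≤ v → |eT v| ≤ C * Real.exp ((θ' - 1) * v)) {j : ℕ} (hj : 3 ≤ j) :
    Fr j ≤ Real.sqrt (2 * C / (1 - θ')) * (j : ℝ) ^ ((1 + θ') / 2) := by
  have hu := (log_gt_one hj).le
  have hjp : (0 : ℝ) < j := by exact_mod_cast (by omega : 0 < j)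
  have h1 := kT_le hC hθ h hj
  have ha : 0 < 1 - θ' := by linarith
  have h2 : max (kT (Real.log j)) 0 / Real.log j ≤ 2 * C / (1 - θ') * (j : ℝ) ^ (θ' - 1) := by
    refine (div_le_self (le_max_right _ _) hu).trans ?_
    apply max_le
    · exact (le_abs_self _).trans h1
    · positivity
  unfold Fr
  calc (j : ℝ) * Real.sqrt (max (kT (Real.log j)) 0 / Real.log j) ≤
      j * Real.sqrt (2 * C / (1 - θ') * (j : ℝ) ^ (θ' - 1)) := by gcongr
    _ = Real.sqrt (2 * C / (1 - θ')) * (j * Real.sqrt ((j : ℝ) ^ (θ' - 1))) := by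
      rw [Real.sqrt_mul (by positivity)]; ring
    _ = _ := by
      congr 1
      rw [Real.sqrt_eq_rpow, ← Real.rpow_mul hjp.le]
      nth_rewrite 1 [← Real.rpow_one (j : ℝ)]
      rw [← Real.rpow_add hjp]
      congr 1
      ring

theorem Fr_step {C θ' : ℝ} (hC : 0 < C) (hθ : θ' < 1)
    (h : ∀ v : ℝ, 0 ≤ v → |eT v| ≤ C * Real.exp ((θ' - 1) * v)) {j k : ℕ} (hj : 3 ≤ j) (hjk : j ≤ k) :
    Fr k ≤ (k / j) * Fr j + k * Real.sqrt (2 * C * (j : ℝ) ^ (θ' - 2) * (k - j)) := by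
  have hu := (log_gt_one hj).le
  have hjp : (0 : ℝ) < j := by exact_mod_cast (by omega : 0 < j)
  have hkp : (0 : ℝ) < k := by exact_mod_cast (by omega : 0 < k)
  have hjk' : (j : ℝ) ≤ k := by exact_mod_cast hjk
  have hlog : Real.log j ≤ Real.log k := Real.log_le_log hjp hjk'
  have h1 := kT_sub hC hθ h hu hlog
  have e1 : Real.exp ((θ' - 1) * Real.log j) = (j : ℝ) ^ (θ' - 1) := by
    rw [Real.rpow_def_of_pos hjp]; congr 1; ring
  have e2 : Real.log k - Real.log j ≤ (k - j) / j := by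
    rw [← Real.log_div hkp.ne' hjp.ne']
    have := Real.log_le_sub_one_of_pos (show (0 : ℝ) < k / j by positivity)
    have e3 : (k : ℝ) / j - 1 = (k - j) / j := by field_simp
    linarith
  have h2 : kT (Real.log k) ≤ kT (Real.log j) + 2 * C * (j : ℝ) ^ (θ' - 2) * (k - j) := by
    have h3 := (le_abs_self _).trans h1
    rw [e1] at h3
    have h4 : 2 * C * (j : ℝ) ^ (θ' - 1) * (Real.log k - Real.log j) ≤
        2 * C * (j : ℝ) ^ (θ' - 1) * ((k - j) / j) := by gcongr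
    have h5 : 2 * C * (j : ℝ) ^ (θ' - 1) * ((k - j) / j) = 2 * C * (j : ℝ) ^ (θ' - 2) * (k - j) := by
      rw [show θ' - 2 = (θ' - 1) - 1 by ring, Real.rpow_sub hjp (θ' - 1) 1, Real.rpow_one]
      field_simp
    linarith
  have hE : 0 ≤ 2 * C * (j : ℝ) ^ (θ' - 2) * ((k : ℝ) - j) := by
    have : 0 ≤ (k : ℝ) - j := by linarith
    positivity
  set E := 2 * C * (j : ℝ) ^ (θ' - 2) * ((k : ℝ) - j) with hEdef
  have hΛj : 0 < Real.log j := by linarith
  have hΛk : 0 < Real.log k := by linarith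
  have h3 : max (kT (Real.log k)) 0 / Real.log k ≤ max (kT (Real.log j)) 0 / Real.log j + E := by
    have h4 : max (kT (Real.log k)) 0 ≤ max (kT (Real.log j)) 0 + E := by
      apply max_le
      · linarith [le_max_left (kT (Real.log j)) 0]
      · linarith [le_max_right (kT (Real.log j)) 0]
    have h5 : 0 ≤ max (kT (Real.log j)) 0 + E := by positivity
    calc max (kT (Real.log k)) 0 / Real.log k ≤ (max (kT (Real.log j)) 0 + E) / Real.log k := by gcongr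
      _ ≤ (max (kT (Real.log j)) 0 + E) / Real.log j := by gcongr
      _ = max (kT (Real.log j)) 0 / Real.log j + E / Real.log j := add_div _ _ _
      _ ≤ _ := by
        gcongr
        exact div_le_self hE hu
  have h4 : Real.sqrt (max (kT (Real.log k)) 0 / Real.log k) ≤
      Real.sqrt (max (kT (Real.log j)) 0 / Real.log j) + Real.sqrt E :=
    (Real.sqrt_le_sqrt h3).trans (sqrt_add_le' (by positivity) hE)
  unfold Fr
  calc (k : ℝ) * Real.sqrt (max (kT (Real.log k)) 0 / Real.log k) ≤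
      k * (Real.sqrt (max (kT (Real.log j)) 0 / Real.log j) + Real.sqrt E) := by gcongr
    _ = _ := by field_simp

/-- the maximum of the profile -/
noncomputable def Mx (Y : ℝ) : ℝ := sSup {r : ℝ | ∃ j : ℕ, 3 ≤ j ∧ (j : ℝ) ≤ Y ∧ r = Fr j}

theorem Mx_finite (Y : ℝ) : {r : ℝ | ∃ j : ℕ, 3 ≤ j ∧ (j : ℝ) ≤ Y ∧ r = Fr j}.Finite := by
  refine ((Set.finite_Iic ⌊Y⌋₊).image Fr).subset ?_
  rintro r ⟨j, -, h2, rfl⟩
  exact ⟨j, Nat.le_floor h2, rfl⟩

theorem le_Mx {Y : ℝ} {j : ℕ} (hj : 3 ≤ j) (h : (j : ℝ) ≤ Y) : Fr j ≤ Mx Y :=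
  le_csSup (Mx_finite Y).bddAbove ⟨j, hj, h, rfl⟩

theorem Mx_attained {Y : ℝ} (hY : 3 ≤ Y) : ∃ j : ℕ, 3 ≤ j ∧ (j : ℝ) ≤ Y ∧ Mx Y = Fr j := by
  have h := Set.Nonempty.csSup_mem (s := {r : ℝ | ∃ j : ℕ, 3 ≤ j ∧ (j : ℝ) ≤ Y ∧ r = Fr j})
    ⟨Fr 3, 3, le_rfl, by exact_mod_cast hY, rfl⟩ (Mx_finite Y)
  exact h

theorem Mx_nonneg {Y : ℝ} (hY : 3 ≤ Y) : 0 ≤ Mx Y := by
  obtain ⟨j, -, -, h⟩ := Mx_attained hY
  rw [h]
  exact Fr_nonneg j

end Q204.NA
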