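import Pool.Agent.Q204.NA.A1

set_option autoImplicit false

/-! # The upper bound for the number of exceptions -/

open Finset Filter Topology MeasureTheory
open Q239.RN

namespace Q204.NA

/-- the constant -/
noncomputable def c0 : ℝ := Real.pi * Real.sqrt (2 / 3)

theorem c0_pos : 0 < c0 := by
  unfold c0
  have : 0 < Real.sqrt (2 / 3) := Real.sqrt_pos.2 (by norm_num)
  have := Real.pi_pos
  positivity

theorem ev_exp {K c κ : ℝ} (hK : 0 ≤ K) (hc : 0 < c) (hκ : 0 < κ) :
    ∀ᶠ Y : ℝ in atTop, K + Y ≤ Real.exp (c * (Y + 1) ^ κ) := by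
  have h1 := (isLittleO_log_rpow_atTop hκ).comp_tendsto (tendsto_atTop_add_const_right atTop (1 : ℝ) tendsto_id)
  have h2 := h1.def (c := c / 2) (by positivity)
  have h3 : Tendsto (fun Y : ℝ => (Y + 1) ^ κ) atTop atTop :=
    (tendsto_rpow_atTop hκ).comp (tendsto_atTop_add_const_right atTop (1 : ℝ) tendsto_id)
  filter_upwards [h2, h3.eventually_ge_atTop (Real.log (K + 1) / (c / 2)), eventually_ge_atTop 0] with Y a1 a2 a3
  simp only [Function.comp, id] at a1
  have b1 : 0 ≤ Real.log (Y + 1) := Real.log_nonneg (by linarith)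
  rw [Real.norm_of_nonneg b1, Real.norm_of_nonneg (by positivity)] at a1
  rw [div_le_iff₀ (by positivity)] at a2
  have b2 : K + Y ≤ (K + 1) * (Y + 1) := by nlinarith
  refine b2.trans ?_
  rw [← Real.exp_log (show 0 < (K + 1) * (Y + 1) by positivity), Real.log_mul (by positivity) (by positivity)]
  apply Real.exp_le_exp.2
  linarith

theorem Bj_le {B2 Λ a : ℝ} {j κ : ℝ} (hj : 0 < j) (hΛ : 1 ≤ Λ) (hB2 : B2 = j ^ (2 * κ - 2)) :
    j * Real.sqrt (max a B2 / Λ) ≤ max (j * Real.sqrt (max a 0 / Λ)) (j ^ κ) := by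
  rcases le_total a B2 with h | h
  · rw [max_eq_right h]
    refine le_trans ?_ (le_max_right _ _)
    calc j * Real.sqrt (B2 / Λ) ≤ j * Real.sqrt B2 := by
          gcongr
          exact div_le_self (by rw [hB2]; positivity) hΛ
      _ = j * j ^ (κ - 1) := by
          rw [hB2, Real.sqrt_eq_rpow, ← Real.rpow_mul hj.le]
          congr 2
          ring
      _ = j ^ κ := by
          nth_rewrite 1 [← Real.rpow_one j]
          rw [← Real.rpow_add hj]
          congr 1
          ring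
  · rw [max_eq_left h]
    refine le_trans ?_ (le_max_left _ _)
    gcongr
    exact le_max_left _ _

theorem upper_crude {C θ' κ ε : ℝ} (hC : 0 < C) (h0 : 1 / 2 ≤ θ')
    (h : ∀ v : ℝ, 0 ≤ v → |eT v| ≤ C * Real.exp ((θ' - 1) * v)) (hκ : θ' < κ) (hκ1 : κ < 1)
    (hε : 0 < ε) :
    ∀ᶠ x : ℝ in atTop, (cnt NicEx x : ℝ) ≤
      Real.exp ((1 + ε) * (c0 * max (Mx (Real.log x + 1)) ((Real.log x + 1) ^ κ))) := by
  have hδ : 0 < 1 - κ := by linarith
  have hlev := lev_upper hC h0 h hκ hκ1 hδ (show 0 < ε / 2 by positivity)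
  have hB := ev_log (show (0 : ℝ) < κ - θ' by linarith) (2 * C / (1 - θ')) 0
  obtain ⟨J, hJ⟩ := eventually_atTop.1 (hlev.and (hB.and (eventually_ge_atTop 3)))
  have hc := c0_pos
  have hexp := (ev_exp (K := Real.exp J + 2) (by positivity) (show 0 < ε / 2 * c0 by positivity)
    (show 0 < κ by linarith))
  filter_upwards [Real.tendsto_log_atTop.eventually hexp, eventually_ge_atTop 1,
    Real.tendsto_log_atTop.eventually_ge_atTop 3] with x a1 a2 a3
  set Y := Real.log x with hY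
  set W := max (Mx (Y + 1)) ((Y + 1) ^ κ) with hW
  have hW1 : (Y + 1) ^ κ ≤ W := le_max_right _ _
  have hW0 : 0 ≤ W := le_trans (by positivity) hW1
  have hlevels := cnt_le_levels (x := x) (B := (1 + ε / 2) * (c0 * W)) a2 J (by
    intro j hj1 hj2
    obtain ⟨b1, b2, b3⟩ := hJ j hj1.le
    rw [pow_zero, mul_one] at b2
    have hjp : (0 : ℝ) < j := by exact_mod_cast (by omega : 0 < j)
    have hj1' : (1 : ℝ) ≤ j := by exact_mod_cast (by omega : 1 ≤ j)
    have hu := (log_gt_one b3).le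
    have hkT := kT_le hC (by linarith : θ' < 1) h b3
    have b4 : max (kT (Real.log j)) ((j : ℝ) ^ (2 * κ - 2)) ≤ (j : ℝ) ^ (-(1 - κ)) := by
      apply max_le
      · refine ((le_abs_self _).trans hkT).trans ?_
        calc 2 * C / (1 - θ') * (j : ℝ) ^ (θ' - 1) ≤ (j : ℝ) ^ (κ - θ') * (j : ℝ) ^ (θ' - 1) := by gcongr
          _ = (j : ℝ) ^ (-(1 - κ)) := by rw [← Real.rpow_add hjp]; congr 1; ring
      · exact Real.rpow_le_rpow_of_exponent_le hj1' (by linarith)
    have b5 := b1 _ (le_max_right (kT (Real.log j)) _) b4 (le_max_left _ _)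
    refine b5.trans (Real.exp_le_exp.2 ?_)
    have b6 := Bj_le (a := kT (Real.log j)) hjp hu (rfl : (j : ℝ) ^ (2 * κ - 2) = (j : ℝ) ^ (2 * κ - 2))
    have b7 : (j : ℝ) * Real.sqrt (max (kT (Real.log j)) ((j : ℝ) ^ (2 * κ - 2)) / Real.log j) ≤ W := by
      refine b6.trans (max_le_max ?_ ?_)
      · exact le_Mx b3 (by linarith)
      · exact Real.rpow_le_rpow hjp.le (by linarith) (by linarith)
    have b8 : Real.pi * Real.sqrt (2 / 3) = c0 := rfl
    rw [b8]
    gcongr)
  refine hlevels.trans ?_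
  have e1 : (1 + ε) * (c0 * W) = (1 + ε / 2) * (c0 * W) + ε / 2 * c0 * W := by ring
  rw [e1, Real.exp_add]
  have e2 : 1 ≤ Real.exp ((1 + ε / 2) * (c0 * W)) := Real.one_le_exp (by positivity)
  have e3 : Real.exp J + 2 + Y ≤ Real.exp (ε / 2 * c0 * W) := a1.trans (Real.exp_le_exp.2 (by gcongr))
  calc Real.exp J + (Y + 2) * Real.exp ((1 + ε / 2) * (c0 * W)) ≤
      Real.exp J * Real.exp ((1 + ε / 2) * (c0 * W)) + (Y + 2) * Real.exp ((1 + ε / 2) * (c0 * W)) := by
        have : 0 < Real.exp (J : ℝ) := Real.exp_pos _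
        nlinarith
    _ = Real.exp ((1 + ε / 2) * (c0 * W)) * (Real.exp J + 2 + Y) := by ring
    _ ≤ _ := by gcongr

end Q204.NA
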