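import Pool.Agent.Q204.NA.A2
import Pool.Agent.Q239.RN.Fin2

set_option autoImplicit false

/-! # The asymptotic law -/

open Finset Filter Topology MeasureTheory
open Q239.RN

namespace Q204.NA

/-- lower bound for the maximum of the profile -/
theorem Mx_lower {Θ κ1 : ℝ} (h1 : 1 / 2 ≤ Θ) (h2 : Θ < 1) (hz : ∀ s : ℂ, Θ < s.re → riemannZeta s ≠ 0)
    (hs : ∀ β : ℝ, β < Θ → ∃ ρ : ℂ, riemannZeta ρ = 0 ∧ β < ρ.re) (hκ0 : Θ < κ1) (hκ1 : κ1 < (1 + Θ) / 2) :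
    ∀ᶠ Y : ℝ in atTop, Y ^ κ1 ≤ Mx Y := by
  set θ' := (2 * Θ + κ1) / 3 with hθ'
  set κ := (Θ + 2 * κ1) / 3 with hκ
  set κ2 := (κ1 + (1 + Θ) / 2) / 2 with hκ2
  obtain ⟨C, hC, hbd⟩ := eT_free (θ := Θ) (θ' := θ') h1 hz (by rw [hθ']; linarith) (by rw [hθ']; linarith)
  have hup := upper_crude (κ := κ) (ε := 1) hC (by rw [hθ']; linarith) hbd (by rw [hθ', hκ]; linarith)
    (by rw [hκ]; linarith) one_pos
  have hlow := nic_lower h1 h2.le hz hs (ε := (1 + Θ) / 2 - κ2) (by rw [hκ2]; linarith)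
  have hc := c0_pos
  have hk : (0 : ℝ) < κ := by rw [hκ]; linarith
  have key : ∀ᶠ Y : ℝ in atTop, Y ^ κ2 ≤ 4 * c0 * Mx (Y + 1) := by
    filter_upwards [Real.tendsto_exp_atTop.eventually hup, Real.tendsto_exp_atTop.eventually hlow,
      rpow_eventually (κ1 := κ) (κ := κ2) (C := 8 * c0 + 1) (by rw [hκ, hκ2]; linarith),
      eventually_ge_atTop 3] with Y a1 a2 a3 a4
    rw [Real.log_exp] at a1 a2
    have e1 : (1 + Θ) / 2 - ((1 + Θ) / 2 - κ2) = κ2 := by ring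
    rw [e1] at a2
    have b1 := Real.exp_le_exp.1 (a2.trans a1)
    have b2 : (Y + 1) ^ κ ≤ 2 * Y ^ κ := by
      calc (Y + 1) ^ κ ≤ (2 * Y) ^ κ := Real.rpow_le_rpow (by linarith) (by linarith) hk.le
        _ = 2 ^ κ * Y ^ κ := Real.mul_rpow (by norm_num) (by linarith)
        _ ≤ 2 * Y ^ κ := by
          have : 0 ≤ Y ^ κ := by positivity
          gcongr
          calc (2 : ℝ) ^ κ ≤ 2 ^ (1 : ℝ) := Real.rpow_le_rpow_of_exponent_le (by norm_num) (by rw [hκ]; linarith)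
            _ = 2 := Real.rpow_one 2
    have b3 : 0 < Y ^ κ := Real.rpow_pos_of_pos (by linarith) _
    rcases le_total (Mx (Y + 1)) ((Y + 1) ^ κ) with hm | hm
    · rw [max_eq_right hm] at b1
      exfalso
      have b4 : (1 + 1) * (c0 * (Y + 1) ^ κ) ≤ 4 * c0 * Y ^ κ := by nlinarith
      nlinarith
    · rw [max_eq_left hm] at b1
      have : 0 ≤ Mx (Y + 1) := Mx_nonneg (by linarith)
      nlinarith
  have hsh : Tendsto (fun Y : ℝ => Y - 1) atTop atTop := tendsto_atTop_add_const_right atTop (-1) tendsto_id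
  filter_upwards [hsh.eventually key, rpow_eventually (κ1 := κ1) (κ := κ2) (C := 8 * c0) (by rw [hκ2]; linarith),
    eventually_ge_atTop 3] with Y a1 a2 a3
  rw [sub_add_cancel] at a1
  have b1 : Y ^ κ2 / 2 ≤ (Y - 1) ^ κ2 := by
    have hκ2' : 0 ≤ κ2 := by rw [hκ2]; linarith
    calc Y ^ κ2 / 2 ≤ Y ^ κ2 / 2 ^ κ2 := by
          apply div_le_div_of_nonneg_left (by positivity) (by positivity)
          calc (2 : ℝ) ^ κ2 ≤ 2 ^ (1 : ℝ) := Real.rpow_le_rpow_of_exponent_le (by norm_num) (by rw [hκ2]; linarith)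
            _ = 2 := Real.rpow_one 2
      _ = (Y / 2) ^ κ2 := (Real.div_rpow (by linarith) (by norm_num) _).symm
      _ ≤ (Y - 1) ^ κ2 := Real.rpow_le_rpow (by linarith) (by linarith) hκ2'
  have b2 : 8 * c0 * Y ^ κ1 ≤ 8 * c0 * Mx Y := by linarith
  exact le_of_mul_le_mul_left b2 (by positivity)

/-- the maximum of the profile does not change much -/
theorem Mx_shift {C θ' κ1 ε : ℝ} (hC : 0 < C) (h0 : 0 ≤ θ') (hθ : θ' < 1)
    (h : ∀ v : ℝ, 0 ≤ v → |eT v| ≤ C * Real.exp ((θ' - 1) * v)) (hκ : θ' / 2 < κ1)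
    (hM : ∀ᶠ Y : ℝ in atTop, Y ^ κ1 ≤ Mx Y) (hε : 0 < ε) :
    ∀ᶠ Y : ℝ in atTop, Mx (Y + 1) ≤ (1 + ε) * Mx Y := by
  filter_upwards [hM, rpow_eventually (κ1 := θ' / 2) (κ := κ1) (C := 2 * Real.sqrt (2 * C) * (2 / ε)) hκ,
    eventually_ge_atTop (10 + 2 / ε)] with Y a1 a2 a3
  have hε2 : 0 < 2 / ε := by positivity
  have hMx0 : 0 ≤ Mx Y := Mx_nonneg (by linarith)
  obtain ⟨j, hj1, hj2, hj3⟩ := Mx_attained (Y := Y + 1) (by linarith)
  rw [hj3]
  by_cases hc : (j : ℝ) ≤ Y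
  · have := le_Mx hj1 hc
    nlinarith
  · push Not at hc
    obtain ⟨i, rfl⟩ : ∃ i, j = i + 1 := ⟨j - 1, by omega⟩
    push_cast at hc hj2
    have hiY : (i : ℝ) ≤ Y := by linarith
    have hi9 : (9 : ℝ) + 2 / ε < i := by linarith
    have hi3 : 3 ≤ i := by
      have : (3 : ℝ) ≤ i := by linarith
      exact_mod_cast this
    have hip : (0 : ℝ) < i := by linarith
    have h1 := Fr_step hC hθ h hi3 (Nat.le_succ i)
    rw [Nat.succ_eq_add_one] at h1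
    push_cast at h1
    have h2 := le_Mx hi3 hiY
    have h3 : ((i : ℝ) + 1) / i ≤ 1 + ε / 2 := by
      rw [div_le_iff₀ hip]
      have : 1 ≤ ε / 2 * i := by
        have h4 : 2 / ε ≤ i := by linarith
        rw [div_le_iff₀ hε] at h4
        linarith
      linarith
    have h5 : ((i : ℝ) + 1) * Real.sqrt (2 * C * (i : ℝ) ^ (θ' - 2) * ((i : ℝ) + 1 - i)) ≤
        2 * Real.sqrt (2 * C) * Y ^ (θ' / 2) := by
      have e1 : ((i : ℝ) + 1 - i) = 1 := by ring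
      rw [e1, mul_one, Real.sqrt_mul (by positivity)]
      have e2 : (i : ℝ) * Real.sqrt ((i : ℝ) ^ (θ' - 2)) = (i : ℝ) ^ (θ' / 2) := by
        rw [Real.sqrt_eq_rpow, ← Real.rpow_mul hip.le]
        nth_rewrite 1 [← Real.rpow_one (i : ℝ)]
        rw [← Real.rpow_add hip]
        congr 1
        ring
      calc ((i : ℝ) + 1) * (Real.sqrt (2 * C) * Real.sqrt ((i : ℝ) ^ (θ' - 2))) ≤
          (2 * i) * (Real.sqrt (2 * C) * Real.sqrt ((i : ℝ) ^ (θ' - 2))) := by gcongr; linarith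
        _ = 2 * Real.sqrt (2 * C) * (i * Real.sqrt ((i : ℝ) ^ (θ' - 2))) := by ring
        _ = 2 * Real.sqrt (2 * C) * (i : ℝ) ^ (θ' / 2) := by rw [e2]
        _ ≤ _ := by gcongr
    have h6 : 2 * Real.sqrt (2 * C) * Y ^ (θ' / 2) ≤ ε / 2 * Mx Y := by
      have h7 : 2 * Real.sqrt (2 * C) * Y ^ (θ' / 2) = ε / 2 * (2 * Real.sqrt (2 * C) * (2 / ε) * Y ^ (θ' / 2)) := by
        field_simp
      rw [h7]
      gcongr
      exact a2.trans a1
    have h8 : ((i : ℝ) + 1) / i * Fr i ≤ (1 + ε / 2) * Mx Y := by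
      have := Fr_nonneg i
      gcongr
    linarith

/-- the sharp upper bound -/
theorem law_upper {Θ ε : ℝ} (h1 : 1 / 2 ≤ Θ) (h2 : Θ < 1) (hz : ∀ s : ℂ, Θ < s.re → riemannZeta s ≠ 0)
    (hs : ∀ β : ℝ, β < Θ → ∃ ρ : ℂ, riemannZeta ρ = 0 ∧ β < ρ.re) (hε : 0 < ε) :
    ∀ᶠ x : ℝ in atTop, (cnt NicEx x : ℝ) ≤ Real.exp ((1 + ε) * (c0 * Mx (Real.log x))) := by
  set g := 1 - Θ with hg
  have hg0 : 0 < g := by rw [hg]; linarith
  obtain ⟨C, hC, hbd⟩ := eT_free (θ := Θ) (θ' := Θ + g / 16) h1 hz (by linarith) (by rw [hg]; linarith)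
  set δ := min (ε / 3) 1 with hδ
  have hδ0 : 0 < δ := lt_min (by positivity) one_pos
  have hδ1 : δ ≤ 1 := min_le_right _ _
  have hδε : 3 * δ ≤ ε := by have := min_le_left (ε / 3) 1; linarith
  have hup := upper_crude (κ := Θ + g / 4) (ε := δ) hC (by linarith) hbd (by linarith)
    (by rw [hg]; linarith) hδ0
  have hM := Mx_lower (κ1 := Θ + 7 * g / 16) h1 h2 hz hs (by linarith) (by rw [hg]; linarith)
  have hSh := Mx_shift (ε := δ) hC (by linarith) (by rw [hg]; linarith) hbd (κ1 := Θ + 7 * g / 16)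
    (by linarith) hM hδ0
  have hc := c0_pos
  filter_upwards [hup, Real.tendsto_log_atTop.eventually hM, Real.tendsto_log_atTop.eventually hSh,
    Real.tendsto_log_atTop.eventually (rpow_eventually (κ1 := Θ + g / 4) (κ := Θ + 7 * g / 16) (C := 2) (by linarith)),
    Real.tendsto_log_atTop.eventually_ge_atTop 3] with x a1 a2 a3 a4 a5
  set Y := Real.log x with hY
  refine a1.trans (Real.exp_le_exp.2 ?_)
  have hMx0 : 0 ≤ Mx Y := Mx_nonneg (by linarith)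
  have b2 : (Y + 1) ^ (Θ + g / 4) ≤ 2 * Y ^ (Θ + g / 4) := by
    calc (Y + 1) ^ (Θ + g / 4) ≤ (2 * Y) ^ (Θ + g / 4) := Real.rpow_le_rpow (by linarith) (by linarith) (by linarith)
      _ = 2 ^ (Θ + g / 4) * Y ^ (Θ + g / 4) := Real.mul_rpow (by norm_num) (by linarith)
      _ ≤ 2 * Y ^ (Θ + g / 4) := by
        have : 0 ≤ Y ^ (Θ + g / 4) := by positivity
        gcongr
        calc (2 : ℝ) ^ (Θ + g / 4) ≤ 2 ^ (1 : ℝ) :=
              Real.rpow_le_rpow_of_exponent_le (by norm_num) (by rw [hg]; linarith)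
          _ = 2 := Real.rpow_one 2
  have b3 : max (Mx (Y + 1)) ((Y + 1) ^ (Θ + g / 4)) ≤ (1 + δ) * Mx Y := by
    apply max_le a3
    nlinarith
  calc (1 + δ) * (c0 * max (Mx (Y + 1)) ((Y + 1) ^ (Θ + g / 4))) ≤ (1 + δ) * (c0 * ((1 + δ) * Mx Y)) := by gcongr
    _ = ((1 + δ) * (1 + δ)) * (c0 * Mx Y) := by ring
    _ ≤ (1 + ε) * (c0 * Mx Y) := by
      gcongr
      nlinarith

end Q204.NA
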