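import Pool.Agent.Q239.RN.Mert2
import Pool.Agent.Y23.Zs

set_option autoImplicit false

/-! # Sharp form of the count of the exceptions to Nicolas's inequality: specifications

`Zt` is the type of the nontrivial zeros of zeta, `mu` their multiplicities (`Pool.Agent.Y23.Ze`),
`eP`, `eT`, `om`, `kP`, `kT` are in `Pool.Agent.Q239.RN.Err`. -/

open Filter Topology MeasureTheory
open Pool.Agent.Y23 (Zt mu)
open Q239.RN

namespace Q204.NA

/-- the explicit formula for the tail integral of the relative error of `ψ` -/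
def SExpl : Prop := ∃ C : ℝ, ∀ u : ℝ, 1 ≤ u →
  ‖((∫ v in Set.Ioi u, eP v : ℝ) : ℂ) +
    ∑' ρ : Zt, (mu ρ : ℂ) * Complex.exp (((ρ : ℂ) - 1) * u) / ((ρ : ℂ) * (1 - (ρ : ℂ)))‖ ≤
      C * Real.exp (-(3 / 4 * u))

/-- the value of the sum over the zeros -/
def SConst : Prop := ∑' ρ : Zt, (mu ρ : ℂ) / ((ρ : ℂ) * (1 - (ρ : ℂ))) =
  ((2 + Real.eulerMascheroniConstant - Real.log (4 * Real.pi) : ℝ) : ℂ)

/-- the almost periodic function of the theorem -/
noncomputable def cz (t : ℝ) : ℝ := 2 + ∑' ρ : Zt, (mu ρ : ℝ) * Real.cos ((ρ : ℂ).im * t) / ‖(ρ : ℂ)‖ ^ 2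

/-- the asymptotics of the Nicolas function under the Riemann hypothesis -/
def SAsym : Prop := RiemannHypothesis →
  Tendsto (fun u : ℝ => u * Real.exp (u / 2) * kT u - cz u) atTop (𝓝 0)

/-- `cz` is almost periodic -/
def SAlmost : Prop := (∀ t : ℝ, |cz t - 2| ≤ cz 0 - 2) ∧ UniformContinuous cz ∧
  ∀ ε : ℝ, 0 < ε → ∀ T : ℝ, ∃ t : ℝ, T ≤ t ∧ cz 0 - ε ≤ cz t

end Q204.NA
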