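import Pool.Agent.Q204.NA.A2
import Pool.Agent.Q204.NA.Spec

set_option autoImplicit false

/-! # The profile under the Riemann hypothesis -/

open Finset Filter Topology MeasureTheory
open Q239.RN
open scoped NNReal

namespace Q204.NA

/-- the profile function of the theorem -/
noncomputable def GG (t : ℝ) : ℝ := ⨆ s : ℝ≥0, Real.exp (-(3 / 4 * (s : ℝ))) * Real.sqrt (cz (t - s))

theorem cz_le (hA : ∀ t : ℝ, |cz t - 2| ≤ cz 0 - 2) (t : ℝ) : cz t ≤ cz 0 := by
  have := (abs_le.1 (hA t)).2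
  linarith

theorem cz_ge (hA : ∀ t : ℝ, |cz t - 2| ≤ cz 0 - 2) (t : ℝ) : 4 - cz 0 ≤ cz t := by
  have := (abs_le.1 (hA t)).1
  linarith

theorem two_le_cz (hA : ∀ t : ℝ, |cz t - 2| ≤ cz 0 - 2) : 2 ≤ cz 0 := by
  have := (abs_nonneg _).trans (hA 0)
  linarith

theorem GG_term_le (hA : ∀ t : ℝ, |cz t - 2| ≤ cz 0 - 2) (t : ℝ) (s : ℝ≥0) :
    Real.exp (-(3 / 4 * (s : ℝ))) * Real.sqrt (cz (t - s)) ≤ Real.sqrt (cz 0) := by
  calc Real.exp (-(3 / 4 * (s : ℝ))) * Real.sqrt (cz (t - s)) ≤ 1 * Real.sqrt (cz 0) := by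
        gcongr
        · rw [Real.exp_le_one_iff]
          have : (0 : ℝ) ≤ s := s.2
          linarith
        · exact cz_le hA _
    _ = _ := one_mul _

theorem GG_bdd (hA : ∀ t : ℝ, |cz t - 2| ≤ cz 0 - 2) (t : ℝ) :
    BddAbove (Set.range fun s : ℝ≥0 => Real.exp (-(3 / 4 * (s : ℝ))) * Real.sqrt (cz (t - s))) := by
  refine ⟨Real.sqrt (cz 0), ?_⟩
  rintro _ ⟨s, rfl⟩
  exact GG_term_le hA t s

theorem GG_le (hA : ∀ t : ℝ, |cz t - 2| ≤ cz 0 - 2) (t : ℝ) : GG t ≤ Real.sqrt (cz 0) :=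
  ciSup_le fun s => GG_term_le hA t s

theorem le_GG (hA : ∀ t : ℝ, |cz t - 2| ≤ cz 0 - 2) (t : ℝ) {s : ℝ} (hs : 0 ≤ s) :
    Real.exp (-(3 / 4 * s)) * Real.sqrt (cz (t - s)) ≤ GG t :=
  le_ciSup (GG_bdd hA t) (⟨s, hs⟩ : ℝ≥0)

theorem le_GG0 (hA : ∀ t : ℝ, |cz t - 2| ≤ cz 0 - 2) (t : ℝ) : Real.sqrt (cz t) ≤ GG t := by
  have := le_GG hA t le_rfl
  simpa using this

theorem GG_nonneg (hA : ∀ t : ℝ, |cz t - 2| ≤ cz 0 - 2) (t : ℝ) : 0 ≤ GG t :=
  (Real.sqrt_nonneg _).trans (le_GG0 hA t)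

/-- the shape of the profile -/
theorem Fr_shape {j : ℕ} (hj : 3 ≤ j) :
    Fr j = Real.exp (3 / 4 * Real.log j) / Real.log j *
      Real.sqrt (max (Real.log j * Real.exp (Real.log j / 2) * kT (Real.log j)) 0) := by
  have hu := (log_gt_one hj).le
  have hjp : (0 : ℝ) < j := by exact_mod_cast (by omega : 0 < j)
  set u := Real.log j with hudef
  have hu0 : 0 < u := by linarith
  have e0 : (j : ℝ) = Real.exp u := (Real.exp_log hjp).symm
  have e1 : max (u * Real.exp (u / 2) * kT u) 0 = (u * Real.exp (u / 2)) * max (kT u) 0 := by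
    rw [mul_max_of_nonneg _ _ (by positivity : 0 ≤ u * Real.exp (u / 2)), mul_zero]
  have e2 : (u * Real.exp (u / 2)) * max (kT u) 0 = (u * Real.exp (u / 4)) ^ 2 * (max (kT u) 0 / u) := by
    have : Real.exp (u / 2) = Real.exp (u / 4) ^ 2 := by
      rw [← Real.exp_nat_mul]; congr 1; push_cast; ring
    rw [this]
    field_simp
  rw [e1, e2, Real.sqrt_mul (by positivity), Real.sqrt_sq (by positivity)]
  unfold Fr
  rw [← hudef]
  have e3 : (j : ℝ) = Real.exp (3 / 4 * u) / u * (u * Real.exp (u / 4)) := by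
    rw [e0]
    have : Real.exp u = Real.exp (3 / 4 * u) * Real.exp (u / 4) := by
      rw [← Real.exp_add]; congr 1; ring
    rw [this]
    field_simp
  rw [← mul_assoc, ← e3]

theorem Fr_upper {j : ℕ} (hj : 3 ≤ j) {ε : ℝ} (hε : 0 ≤ ε) (hc : 0 ≤ cz (Real.log j))
    (h : Real.log j * Real.exp (Real.log j / 2) * kT (Real.log j) - cz (Real.log j) ≤ ε) :
    Fr j ≤ Real.exp (3 / 4 * Real.log j) / Real.log j * (Real.sqrt (cz (Real.log j)) + Real.sqrt ε) := by
  have hu := (log_gt_one hj).le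
  rw [Fr_shape hj]
  have : Real.sqrt (max (Real.log j * Real.exp (Real.log j / 2) * kT (Real.log j)) 0) ≤
      Real.sqrt (cz (Real.log j)) + Real.sqrt ε := by
    refine (Real.sqrt_le_sqrt ?_).trans (sqrt_add_le' hc hε)
    apply max_le
    · linarith
    · linarith
  gcongr

theorem Fr_lower {j : ℕ} (hj : 3 ≤ j) {b : ℝ}
    (h : b ≤ Real.log j * Real.exp (Real.log j / 2) * kT (Real.log j)) :
    Real.exp (3 / 4 * Real.log j) / Real.log j * Real.sqrt b ≤ Fr j := by
  have hu := (log_gt_one hj).le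
  rw [Fr_shape hj]
  have : b ≤ max (Real.log j * Real.exp (Real.log j / 2) * kT (Real.log j)) 0 := h.trans (le_max_left _ _)
  gcongr

theorem exp_mul_le_one {s : ℝ} (hs : 0 ≤ s) : Real.exp (-(3 / 4 * s)) * s ≤ 2 := by
  have h1 := Real.add_one_le_exp (3 / 4 * s)
  rw [Real.exp_neg]
  have h2 : 0 < Real.exp (3 / 4 * s) := Real.exp_pos _
  rw [inv_mul_le_iff₀ h2]
  linarith

/-- upper bound -/
theorem Mx_rh_upper (hA : ∀ t : ℝ, |cz t - 2| ≤ cz 0 - 2) (h4 : cz 0 ≤ 4)
    (hT : Tendsto (fun u : ℝ => u * Real.exp (u / 2) * kT u - cz u) atTop (𝓝 0))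
    {C θ' : ℝ} (hC : 0 < C) (h0 : 1 / 2 ≤ θ') (hθ : θ' < 1)
    (h : ∀ v : ℝ, 0 ≤ v → |eT v| ≤ C * Real.exp ((θ' - 1) * v)) {ε : ℝ} (hε : 0 < ε) :
    ∀ᶠ Y : ℝ in atTop, Mx Y * Real.log Y / Real.exp (3 / 4 * Real.log Y) ≤ GG (Real.log Y) + ε := by
  set M1 := cz 0 with hM1
  have hM2 : 2 ≤ M1 := two_le_cz hA
  set ε1 := min (ε ^ 2 / 16) 1 with hε1
  have hε10 : 0 < ε1 := lt_min (by positivity) one_pos
  have hε1s : Real.sqrt ε1 ≤ ε / 4 := by
    rw [Real.sqrt_le_iff]
    refine ⟨by positivity, ?_⟩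
    have := min_le_left (ε ^ 2 / 16) 1
    calc ε1 ≤ ε ^ 2 / 16 := this
      _ = (ε / 4) ^ 2 := by ring
  have hε1s2 : Real.sqrt ε1 ≤ 1 := by
    rw [Real.sqrt_le_one]
    exact min_le_right _ _
  have hT1 : ∀ᶠ u : ℝ in atTop, u * Real.exp (u / 2) * kT u - cz u ≤ ε1 := by
    filter_upwards [hT.eventually (gt_mem_nhds hε10)] with u hu using hu.le
  obtain ⟨U0, hU0⟩ := eventually_atTop.1 hT1
  set C1 := Real.sqrt (2 * C / (1 - θ')) with hC1
  have hsm : ∀ᶠ t : ℝ in atTop, C1 * Real.exp ((1 + θ') / 2 * (t / 2)) * t / Real.exp (3 / 4 * t) ≤ ε := by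
    have h1 : Tendsto (fun t : ℝ => C1 * (t / Real.exp ((3 / 4 - (1 + θ') / 4) * t))) atTop (𝓝 (C1 * 0)) := by
      have h2 := (Real.tendsto_pow_mul_exp_neg_atTop_nhds_zero 1)
      have hb : 0 < 3 / 4 - (1 + θ') / 4 := by linarith
      have h3 := isLittleO_pow_exp_pos_mul_atTop 1 hb
      have h4 := h3.tendsto_div_nhds_zero
      simp only [pow_one] at h4
      exact h4.const_mul C1
    rw [mul_zero] at h1
    filter_upwards [h1.eventually (gt_mem_nhds hε)] with t ht
    refine le_trans (le_of_eq ?_) ht.le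
    have : Real.exp (3 / 4 * t) = Real.exp ((3 / 4 - (1 + θ') / 4) * t) * Real.exp ((1 + θ') / 2 * (t / 2)) := by
      rw [← Real.exp_add]; congr 1; ring
    rw [this]
    have hp := Real.exp_pos ((1 + θ') / 2 * (t / 2))
    have hp2 := Real.exp_pos ((3 / 4 - (1 + θ') / 4) * t)
    field_simp
  have hbig : ∀ᶠ t : ℝ in atTop, 4 / t * (Real.sqrt M1 + 1) ≤ ε / 2 := by
    have h1 : Tendsto (fun t : ℝ => 4 / t * (Real.sqrt M1 + 1)) atTop (𝓝 (0 * (Real.sqrt M1 + 1))) :=
      (tendsto_const_nhds.div_atTop tendsto_id).mul_const _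
    rw [zero_mul] at h1
    filter_upwards [h1.eventually (gt_mem_nhds (show 0 < ε / 2 by positivity))] with t ht using ht.le
  filter_upwards [Real.tendsto_log_atTop.eventually hsm, Real.tendsto_log_atTop.eventually hbig,
    Real.tendsto_log_atTop.eventually_ge_atTop (2 * |U0| + 4), eventually_ge_atTop 3] with Y a1 a2 a3 a4
  set t := Real.log Y with ht
  have hU0a := abs_nonneg U0
  have hU0b := le_abs_self U0
  have ht0 : 0 < t := by linarith
  have hYp : 0 < Y := by linarith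
  have hE : 0 < Real.exp (3 / 4 * t) := Real.exp_pos _
  obtain ⟨j, hj1, hj2, hj3⟩ := Mx_attained a4
  rw [hj3]
  have hjp : (0 : ℝ) < j := by exact_mod_cast (by omega : 0 < j)
  set u := Real.log j with hu
  have hu1 : 1 < u := log_gt_one hj1
  have hut : u ≤ t := Real.log_le_log hjp hj2
  have hGG := GG_nonneg hA t
  rcases le_total u (t / 2) with hc | hc
  · have b1 := Fr_le hC hθ h hj1
    rw [← hC1] at b1
    have b2 : (j : ℝ) ^ ((1 + θ') / 2) ≤ Real.exp ((1 + θ') / 2 * (t / 2)) := by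
      rw [Real.rpow_def_of_pos hjp]
      apply Real.exp_le_exp.2
      have : 0 ≤ (1 + θ') / 2 := by linarith
      nlinarith
    have hC10 : 0 ≤ C1 := Real.sqrt_nonneg _
    have b3 : Fr j * t / Real.exp (3 / 4 * t) ≤
        C1 * Real.exp ((1 + θ') / 2 * (t / 2)) * t / Real.exp (3 / 4 * t) := by
      gcongr
      exact b1.trans (by gcongr)
    linarith
  · have hu0 : 0 < u := by linarith
    have hcu : 0 ≤ cz u := by
      have := cz_ge hA u
      linarith
    have b1 := Fr_upper hj1 hε10.le hcu (hU0 u (by linarith))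
    rw [← hu] at b1
    set s := t - u with hs
    have hs0 : 0 ≤ s := by rw [hs]; linarith
    have b2 : Real.exp (3 / 4 * u) / Real.exp (3 / 4 * t) = Real.exp (-(3 / 4 * s)) := by
      rw [← Real.exp_sub]; congr 1; rw [hs]; ring
    have b3 : Fr j * t / Real.exp (3 / 4 * t) ≤
        (Real.exp (-(3 / 4 * s)) * (t / u)) * (Real.sqrt (cz u) + Real.sqrt ε1) := by
      calc Fr j * t / Real.exp (3 / 4 * t) ≤
            (Real.exp (3 / 4 * u) / u * (Real.sqrt (cz u) + Real.sqrt ε1)) * t / Real.exp (3 / 4 * t) := by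
            gcongr
        _ = (Real.exp (3 / 4 * u) / Real.exp (3 / 4 * t) * (t / u)) * (Real.sqrt (cz u) + Real.sqrt ε1) := by
            field_simp
        _ = _ := by rw [b2]
    have b4 : Real.exp (-(3 / 4 * s)) * (t / u) ≤ Real.exp (-(3 / 4 * s)) + 4 / t := by
      have c1 : t / u = 1 + s / u := by rw [hs]; field_simp; ring
      have c2 : s / u ≤ 2 * s / t := by
        rw [div_le_div_iff₀ hu0 ht0]
        nlinarith
      have c3 := exp_mul_le_one hs0
      have c4 := Real.exp_pos (-(3 / 4 * s))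
      calc Real.exp (-(3 / 4 * s)) * (t / u) ≤ Real.exp (-(3 / 4 * s)) * (1 + 2 * s / t) := by
            gcongr
            rw [c1]
            linarith
        _ = Real.exp (-(3 / 4 * s)) + 2 / t * (Real.exp (-(3 / 4 * s)) * s) := by ring
        _ ≤ Real.exp (-(3 / 4 * s)) + 2 / t * 2 := by gcongr
        _ = _ := by ring
    have b5 : Real.exp (-(3 / 4 * s)) ≤ 1 := by
      rw [Real.exp_le_one_iff]
      linarith
    have b6 := le_GG hA t hs0
    have e1 : t - s = u := by rw [hs]; ring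
    rw [e1] at b6
    have b7 : Real.sqrt (cz u) ≤ Real.sqrt M1 := Real.sqrt_le_sqrt (cz_le hA u)
    have b8 : (Real.exp (-(3 / 4 * s)) * (t / u)) * (Real.sqrt (cz u) + Real.sqrt ε1) ≤
        (Real.exp (-(3 / 4 * s)) + 4 / t) * (Real.sqrt (cz u) + Real.sqrt ε1) := by gcongr
    have b9 : (Real.exp (-(3 / 4 * s)) + 4 / t) * (Real.sqrt (cz u) + Real.sqrt ε1) =
        Real.exp (-(3 / 4 * s)) * Real.sqrt (cz u) + Real.exp (-(3 / 4 * s)) * Real.sqrt ε1 +
          4 / t * (Real.sqrt (cz u) + Real.sqrt ε1) := by ring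
    have b10 : Real.exp (-(3 / 4 * s)) * Real.sqrt ε1 ≤ 1 * (ε / 4) := by gcongr
    have b11 : 4 / t * (Real.sqrt (cz u) + Real.sqrt ε1) ≤ 4 / t * (Real.sqrt M1 + 1) := by gcongr
    linarith

/-- lower bound -/
theorem Mx_rh_lower (hA : ∀ t : ℝ, |cz t - 2| ≤ cz 0 - 2) (hUC : UniformContinuous cz)
    (hT : Tendsto (fun u : ℝ => u * Real.exp (u / 2) * kT u - cz u) atTop (𝓝 0)) {ε : ℝ} (hε : 0 < ε) :
    ∀ᶠ Y : ℝ in atTop, GG (Real.log Y) ≤ Mx Y * Real.log Y / Real.exp (3 / 4 * Real.log Y) + ε := by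
  set M1 := cz 0 with hM1
  have hM2 : 2 ≤ M1 := two_le_cz hA
  have hsM : 0 < Real.sqrt M1 := Real.sqrt_pos.2 (by linarith)
  set ε1 := (ε / 2) ^ 2 / 2 with hε1
  have hε10 : 0 < ε1 := by positivity
  have hε1s : Real.sqrt (2 * ε1) = ε / 2 := by
    rw [hε1, show 2 * ((ε / 2) ^ 2 / 2) = (ε / 2) ^ 2 by ring]
    exact Real.sqrt_sq (by positivity)
  -- the range of `s`
  obtain ⟨S, hS0, hS⟩ : ∃ S : ℝ, 0 ≤ S ∧ Real.exp (-(3 / 4 * S)) * Real.sqrt M1 ≤ ε := by
    have h1 : Tendsto (fun s : ℝ => Real.exp (-(3 / 4 * s)) * Real.sqrt M1) atTop (𝓝 (0 * Real.sqrt M1)) := by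
      refine Tendsto.mul_const _ (Real.tendsto_exp_neg_atTop_nhds_zero.comp ?_)
      exact tendsto_id.const_mul_atTop (by norm_num)
    rw [zero_mul] at h1
    obtain ⟨S, h2, h3⟩ := ((h1.eventually (gt_mem_nhds hε)).and (eventually_ge_atTop 0)).exists
    exact ⟨S, h3, h2.le⟩
  obtain ⟨δ0, hδ0, hδ⟩ := Metric.uniformContinuous_iff.1 hUC ε1 hε10
  set δ := min (min (δ0 / 2) (ε / (2 * Real.sqrt M1))) 1 with hδd
  have hδp : 0 < δ := lt_min (lt_min (by positivity) (by positivity)) one_pos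
  have hδ1 : δ < δ0 := by
    have h1 := (min_le_left (min (δ0 / 2) (ε / (2 * Real.sqrt M1))) 1).trans (min_le_left _ _)
    linarith
  have hδ2 : δ * Real.sqrt M1 ≤ ε / 2 := by
    have h1 := (min_le_left (min (δ0 / 2) (ε / (2 * Real.sqrt M1))) 1).trans (min_le_right _ _)
    calc δ * Real.sqrt M1 ≤ ε / (2 * Real.sqrt M1) * Real.sqrt M1 := by gcongr
      _ = ε / 2 := by field_simp
  have hT1 : ∀ᶠ u : ℝ in atTop, cz u - ε1 ≤ u * Real.exp (u / 2) * kT u := by
    filter_upwards [hT.eventually (lt_mem_nhds (show -ε1 < 0 by linarith))] with u hu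
    linarith
  obtain ⟨U0, hU0⟩ := eventually_atTop.1 hT1
  filter_upwards [Real.tendsto_log_atTop.eventually_ge_atTop (|U0| + S + 4), eventually_ge_atTop 3,
    eventually_ge_atTop ((2 / δ + 10) * Real.exp S)] with Y a1 a2 a3
  set t := Real.log Y with ht
  have hYp : 0 < Y := by linarith
  have hU0a := abs_nonneg U0
  have hU0b := le_abs_self U0
  have ht0 : 0 < t := by linarith
  have hE : 0 < Real.exp (3 / 4 * t) := Real.exp_pos _
  have hMx := Mx_nonneg a2
  have hH0 : 0 ≤ Mx Y * t / Real.exp (3 / 4 * t) := by positivity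
  apply ciSup_le
  rintro ⟨s, hs0⟩
  show Real.exp (-(3 / 4 * s)) * Real.sqrt (cz (t - s)) ≤ _
  have hczM : Real.sqrt (cz (t - s)) ≤ Real.sqrt M1 := Real.sqrt_le_sqrt (cz_le hA _)
  rcases le_total S s with hc | hc
  · have b1 : Real.exp (-(3 / 4 * s)) * Real.sqrt (cz (t - s)) ≤
        Real.exp (-(3 / 4 * S)) * Real.sqrt M1 := by gcongr
    linarith
  · set z := Y * Real.exp (-s) with hz
    have hz1 : 2 / δ + 10 ≤ z := by
      have b1 : (2 / δ + 10) * Real.exp S * Real.exp (-s) ≤ z := by rw [hz]; gcongr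
      have b2 : 1 ≤ Real.exp S * Real.exp (-s) := by
        rw [← Real.exp_add]
        exact Real.one_le_exp (by linarith)
      have b3 : 0 < 2 / δ + 10 := by positivity
      calc 2 / δ + 10 = (2 / δ + 10) * 1 := (mul_one _).symm
        _ ≤ (2 / δ + 10) * (Real.exp S * Real.exp (-s)) := by gcongr
        _ = (2 / δ + 10) * Real.exp S * Real.exp (-s) := by ring
        _ ≤ z := b1
    have h2δ : 0 < 2 / δ := by positivity
    have hz0 : 0 < z := by linarith
    have hlz : Real.log z = t - s := by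
      rw [hz, Real.log_mul hYp.ne' (Real.exp_pos _).ne', Real.log_exp]
      ring
    set j := ⌊z⌋₊ with hj
    have hjz : (j : ℝ) ≤ z := Nat.floor_le hz0.le
    have hjz2 : z - 1 < j := by
      have := Nat.lt_floor_add_one z
      rw [← hj] at this
      linarith
    have hj3 : 3 ≤ j := by
      apply Nat.le_floor
      push_cast
      linarith
    have hjp : (0 : ℝ) < j := by exact_mod_cast (by omega : 0 < j)
    have hzY : z ≤ Y := by
      rw [hz]
      have : Real.exp (-s) ≤ 1 := by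
        rw [Real.exp_le_one_iff]
        linarith
      nlinarith
    have hM := le_Mx hj3 (hjz.trans hzY)
    set u := Real.log j with hu
    have hu1 : 1 < u := log_gt_one hj3
    have hu0 : 0 < u := by linarith
    have hu2 : u ≤ t - s := by
      rw [← hlz]
      exact Real.log_le_log hjp hjz
    have hut : u ≤ t := by linarith
    have hu3 : t - s - δ ≤ u := by
      have c1 := Real.one_sub_inv_le_log_of_pos (show (0 : ℝ) < j / z by positivity)
      rw [Real.log_div hjp.ne' hz0.ne', hlz, inv_div] at c1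
      have c2 : z / j - 1 ≤ δ := by
        rw [div_sub_one hjp.ne', div_le_iff₀ hjp]
        have c3 : 1 ≤ δ * j := by
          have c4 : 2 / δ ≤ j := by linarith
          rw [div_le_iff₀ hδp] at c4
          linarith
        linarith
      linarith
    have hcz : |cz u - cz (t - s)| < ε1 := by
      have := hδ (a := u) (b := t - s) (by
        rw [Real.dist_eq, abs_lt]
        constructor <;> linarith)
      rwa [Real.dist_eq] at this
    have c1 : cz (t - s) - 2 * ε1 ≤ u * Real.exp (u / 2) * kT u := by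
      have c2 := hU0 u (by
        have : δ ≤ 1 := min_le_right _ _
        linarith)
      have c3 := (abs_lt.1 hcz).1
      linarith
    have c2 := Fr_lower hj3 c1
    rw [← hu] at c2
    -- combine
    have c3 : Real.sqrt (cz (t - s)) ≤ Real.sqrt (cz (t - s) - 2 * ε1) + ε / 2 := by
      rw [← hε1s]
      rcases le_total 0 (cz (t - s) - 2 * ε1) with h1 | h1
      · refine le_trans (Real.sqrt_le_sqrt ?_) (sqrt_add_le' h1 (by positivity))
        linarith
      · have : Real.sqrt (cz (t - s)) ≤ Real.sqrt (2 * ε1) := Real.sqrt_le_sqrt (by linarith)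
        have := Real.sqrt_nonneg (cz (t - s) - 2 * ε1)
        linarith
    have c4 : Real.exp (-(3 / 4 * s)) * Real.exp (-(3 / 4 * δ)) ≤ Real.exp (3 / 4 * u) / Real.exp (3 / 4 * t) := by
      rw [← Real.exp_sub, ← Real.exp_add]
      apply Real.exp_le_exp.2
      linarith
    have c5 : 1 - δ ≤ Real.exp (-(3 / 4 * δ)) := by
      have := Real.add_one_le_exp (-(3 / 4 * δ))
      linarith
    have c6 : 1 ≤ t / u := by rw [one_le_div hu0]; exact hut
    set q := Real.sqrt (cz (t - s) - 2 * ε1) with hq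
    have hq0 : 0 ≤ q := Real.sqrt_nonneg _
    have hqM : q ≤ Real.sqrt M1 := by
      rw [hq]
      apply Real.sqrt_le_sqrt
      have := cz_le hA (t - s)
      linarith
    have c7 : Real.exp (-(3 / 4 * s)) * (1 - δ) * q ≤ Mx Y * t / Real.exp (3 / 4 * t) := by
      have hδle : δ ≤ 1 := min_le_right _ _
      calc Real.exp (-(3 / 4 * s)) * (1 - δ) * q ≤
            Real.exp (-(3 / 4 * s)) * Real.exp (-(3 / 4 * δ)) * q := by gcongr
        _ ≤ Real.exp (3 / 4 * u) / Real.exp (3 / 4 * t) * q := by gcongr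
        _ = Real.exp (3 / 4 * u) / Real.exp (3 / 4 * t) * q * 1 := (mul_one _).symm
        _ ≤ Real.exp (3 / 4 * u) / Real.exp (3 / 4 * t) * q * (t / u) := by gcongr
        _ = (Real.exp (3 / 4 * u) / u * q) * t / Real.exp (3 / 4 * t) := by field_simp
        _ ≤ Fr j * t / Real.exp (3 / 4 * t) := by gcongr
        _ ≤ _ := by gcongr
    have c8 : Real.exp (-(3 / 4 * s)) ≤ 1 := by
      rw [Real.exp_le_one_iff]
      linarith
    have c9 := (Real.exp_pos (-(3 / 4 * s))).le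
    have c10 : Real.exp (-(3 / 4 * s)) * Real.sqrt (cz (t - s)) ≤
        Real.exp (-(3 / 4 * s)) * q + Real.exp (-(3 / 4 * s)) * (ε / 2) := by
      rw [← mul_add]
      gcongr
    have c11 : Real.exp (-(3 / 4 * s)) * (ε / 2) ≤ 1 * (ε / 2) := by gcongr
    have c12 : Real.exp (-(3 / 4 * s)) * q = Real.exp (-(3 / 4 * s)) * (1 - δ) * q +
        Real.exp (-(3 / 4 * s)) * (δ * q) := by ring
    have c13 : Real.exp (-(3 / 4 * s)) * (δ * q) ≤ 1 * (δ * Real.sqrt M1) := by gcongr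
    linarith

end Q204.NA
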