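import Pool.Agent.Q204.NA.A5
import Pool.Agent.Q19.NA.Almost
import Pool.Agent.Q210.NA.Const
import Pool.Agent.Q260.LF.Fin

set_option autoImplicit false

/-! # Almost periodicity of the profile function -/

open Filter Topology
open Pool.Agent.Y23 (Zt mu)
open Pool.Agent.Q19.NA (ap ap_summable)
open scoped NNReal

namespace Q204.NA

theorem cos_diff_le (a b δ : ℝ) (hδ : 0 < δ) :
    |Real.cos (a + b) - Real.cos a| ≤ δ + (1 - Real.cos b) / (2 * δ) := by
  have h1 : Real.cos (a + b) - Real.cos a = -2 * Real.sin (a + b / 2) * Real.sin (b / 2) := by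
    rw [Real.cos_sub_cos]
    congr 2
    · congr 1
      ring_nf
    · ring_nf
  have h2 : 1 - Real.cos b = 2 * Real.sin (b / 2) ^ 2 := by
    have := Real.cos_sq' (b / 2)
    have h3 : Real.cos b = 2 * Real.cos (b / 2) ^ 2 - 1 := by
      rw [← Real.cos_two_mul]; congr 1; ring
    rw [h3, this]; ring
  have h3 : |Real.cos (a + b) - Real.cos a| ≤ 2 * |Real.sin (b / 2)| := by
    rw [h1, abs_mul, abs_mul]
    have h4 := Real.abs_sin_le_one (a + b / 2)
    have h5 : |(-2 : ℝ)| = 2 := by norm_num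
    rw [h5]
    have h6 := abs_nonneg (Real.sin (b / 2))
    calc 2 * |Real.sin (a + b / 2)| * |Real.sin (b / 2)| ≤ 2 * 1 * |Real.sin (b / 2)| := by gcongr
      _ = _ := by ring
  refine h3.trans ?_
  rw [h2, ← sq_abs (Real.sin (b / 2))]
  set s := |Real.sin (b / 2)| with hs
  have h7 : 2 * s ^ 2 / (2 * δ) = s ^ 2 / δ := by field_simp
  rw [h7]
  have h8 : 0 ≤ (δ - s) ^ 2 / δ := by positivity
  have h9 : (δ - s) ^ 2 / δ = δ - 2 * s + s ^ 2 / δ := by field_simp; ring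
  linarith

theorem ap_per {ι : Type*} {w γ : ι → ℝ} (hw0 : ∀ i, 0 ≤ w i) (hw : Summable w) (v T : ℝ) {δ : ℝ} (hδ : 0 < δ) :
    |ap w γ (v + T) - ap w γ v| ≤ δ * ap w γ 0 + (ap w γ 0 - ap w γ T) / (2 * δ) := by
  have hs0 := ap_summable (γ := γ) hw0 hw 0
  have hsT := ap_summable (γ := γ) hw0 hw T
  have hR : HasSum (fun i => δ * (w i * Real.cos (γ i * 0)) +
      ((w i * Real.cos (γ i * 0)) - w i * Real.cos (γ i * T)) / (2 * δ))
      (δ * ap w γ 0 + (ap w γ 0 - ap w γ T) / (2 * δ)) := by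
    exact (hs0.hasSum.mul_left δ).add ((hs0.hasSum.sub hsT.hasSum).div_const _)
  have h1 : ap w γ (v + T) - ap w γ v =
      ∑' i, (w i * Real.cos (γ i * (v + T)) - w i * Real.cos (γ i * v)) := by
    unfold ap
    rw [← (ap_summable hw0 hw (v + T)).tsum_sub (ap_summable hw0 hw v)]
  rw [h1, ← Real.norm_eq_abs]
  refine tsum_of_norm_bounded hR fun i => ?_
  rw [Real.norm_eq_abs, ← mul_sub, abs_mul, abs_of_nonneg (hw0 i), mul_zero, Real.cos_zero, mul_one,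
    mul_add (γ i)]
  have h2 := cos_diff_le (γ i * v) (γ i * T) δ hδ
  calc w i * |Real.cos (γ i * v + γ i * T) - Real.cos (γ i * v)| ≤
      w i * (δ + (1 - Real.cos (γ i * T)) / (2 * δ)) := by
        gcongr
        exact hw0 i
    _ = _ := by ring

theorem cz_eq_ap : cz = fun t => 2 + ap (fun ρ : Zt => (mu ρ : ℝ) / ‖(ρ : ℂ)‖ ^ 2)
    (fun ρ : Zt => (ρ : ℂ).im) t := by
  funext t
  unfold cz ap
  congr 1
  refine tsum_congr fun ρ => ?_
  ring

theorem cz_per (v T : ℝ) {δ : ℝ} (hδ : 0 < δ) :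
    |cz (v + T) - cz v| ≤ δ * (cz 0 - 2) + (cz 0 - cz T) / (2 * δ) := by
  have h := ap_per (γ := fun ρ : Zt => (ρ : ℂ).im) (fun ρ : Zt => (by positivity :
    0 ≤ (mu ρ : ℝ) / ‖(ρ : ℂ)‖ ^ 2)) Pool.Agent.Q19.NA.zt_summable v T hδ
  rw [cz_eq_ap]
  simp only
  have e1 : ∀ a b : ℝ, (2 + a) - (2 + b) = a - b := fun a b => by ring
  rw [e1, e1]
  have e2 : ∀ a : ℝ, 2 + a - 2 = a := fun a => by ring
  rw [e2]
  exact h

theorem GG_diff (hA : ∀ t : ℝ, |cz t - 2| ≤ cz 0 - 2) (h4 : cz 0 ≤ 4) {a b η : ℝ} (hη : 0 ≤ η)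
    (h : ∀ s : ℝ, |cz (a - s) - cz (b - s)| ≤ η) : GG a ≤ GG b + Real.sqrt η := by
  apply ciSup_le
  rintro ⟨s, hs⟩
  show Real.exp (-(3 / 4 * s)) * Real.sqrt (cz (a - s)) ≤ _
  have h1 := le_GG hA b hs
  have h2 := (abs_le.1 (h s)).2
  have h3 : Real.sqrt (cz (a - s)) ≤ Real.sqrt (cz (b - s)) + Real.sqrt η := by
    refine (Real.sqrt_le_sqrt (by linarith)).trans (sqrt_add_le' ?_ hη)
    have := cz_ge hA (b - s)
    linarith
  have h4 : Real.exp (-(3 / 4 * s)) ≤ 1 := by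
    rw [Real.exp_le_one_iff]
    linarith
  calc Real.exp (-(3 / 4 * s)) * Real.sqrt (cz (a - s)) ≤
      Real.exp (-(3 / 4 * s)) * (Real.sqrt (cz (b - s)) + Real.sqrt η) := by gcongr
    _ = Real.exp (-(3 / 4 * s)) * Real.sqrt (cz (b - s)) + Real.exp (-(3 / 4 * s)) * Real.sqrt η := by ring
    _ ≤ GG b + 1 * Real.sqrt η := by gcongr
    _ = _ := by ring

/-- recurrence of the profile function -/
theorem GG_rec (hA : ∀ t : ℝ, |cz t - 2| ≤ cz 0 - 2) (h4 : cz 0 ≤ 4)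
    (hR : ∀ ε : ℝ, 0 < ε → ∀ T : ℝ, ∃ t : ℝ, T ≤ t ∧ cz 0 - ε ≤ cz t) (b : ℝ) {ε : ℝ} (hε : 0 < ε) (T : ℝ) :
    ∃ t : ℝ, T ≤ t ∧ GG t ≤ GG b + ε := by
  set η := ε ^ 2 with hη
  have hη0 : 0 < η := by positivity
  set a := cz 0 - 2 with ha
  have ha0 : 0 ≤ a := by
    have := two_le_cz hA
    linarith
  set δ := η / (2 * (a + 1)) with hδ
  have hδ0 : 0 < δ := by positivity
  obtain ⟨τ, hτ1, hτ2⟩ := hR (η * δ) (by positivity) (T - b)
  refine ⟨b + τ, by linarith, ?_⟩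
  have h1 : ∀ s : ℝ, |cz (b + τ - s) - cz (b - s)| ≤ η := by
    intro s
    have h2 := cz_per (b - s) τ hδ0
    have e : b - s + τ = b + τ - s := by ring
    rw [e] at h2
    refine h2.trans ?_
    have h3 : δ * a ≤ η / 2 := by
      rw [hδ, div_mul_eq_mul_div, div_le_div_iff₀ (by positivity) (by norm_num)]
      nlinarith
    have h4 : (cz 0 - cz τ) / (2 * δ) ≤ η / 2 := by
      rw [div_le_div_iff₀ (by positivity) (by norm_num)]
      nlinarith
    linarith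
  have h5 := GG_diff hA h4 hη0.le h1
  rwa [hη, Real.sqrt_sq hε.le] at h5

/-- the supremum of the profile function is approached -/
theorem GG_sup (hA : ∀ t : ℝ, |cz t - 2| ≤ cz 0 - 2)
    (hR : ∀ ε : ℝ, 0 < ε → ∀ T : ℝ, ∃ t : ℝ, T ≤ t ∧ cz 0 - ε ≤ cz t) {ε : ℝ} (hε : 0 < ε) (T : ℝ) :
    ∃ t : ℝ, T ≤ t ∧ Real.sqrt (cz 0) - ε ≤ GG t := by
  have h2 := two_le_cz hA
  have hs : 0 < Real.sqrt (cz 0) := Real.sqrt_pos.2 (by linarith)
  obtain ⟨t, ht, h⟩ := hR (ε ^ 2) (by positivity) T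
  refine ⟨t, ht, ?_⟩
  refine le_trans ?_ (le_GG0 hA t)
  have h4 : Real.sqrt (cz 0) ≤ Real.sqrt (max (cz t) 0) + Real.sqrt (ε ^ 2) := by
    refine (Real.sqrt_le_sqrt ?_).trans (sqrt_add_le' (le_max_right _ _) (by positivity))
    have := le_max_left (cz t) 0
    linarith
  rw [Real.sqrt_sq hε.le] at h4
  have h5 : Real.sqrt (max (cz t) 0) = Real.sqrt (cz t) := by
    rcases le_total (cz t) 0 with h6 | h6
    · rw [max_eq_right h6, Real.sqrt_zero, Real.sqrt_eq_zero_of_nonpos h6]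
    · rw [max_eq_left h6]
  rw [h5] at h4
  linarith

/-- numerical bounds -/
theorem gamma_gt : (0.5456 : ℝ) < Real.eulerMascheroniConstant := by
  refine lt_of_lt_of_le ?_ (Real.eulerMascheroniSeq_lt_eulerMascheroniConstant 15).le
  unfold Real.eulerMascheroniSeq
  have h1 : ((harmonic 15 : ℚ) : ℝ) = 1195757 / 360360 := by
    have : harmonic 15 = 1195757 / 360360 := by
      rw [harmonic]
      norm_num [Finset.sum_range_succ]
    rw [this]
    push_cast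
    ring
  rw [h1]
  have h2 : Real.log ((15 : ℕ) + 1 : ℝ) = 4 * Real.log 2 := by
    have : ((15 : ℕ) + 1 : ℝ) = 2 ^ 4 := by norm_num
    rw [this, Real.log_pow]
    norm_num
  rw [h2]
  have := Real.log_two_lt_d9
  norm_num at *
  linarith

theorem log4pi_lt : Real.log (4 * Real.pi) < 2.5421 := by
  rw [Real.log_mul (by norm_num) Real.pi_pos.ne']
  have h1 : Real.log 4 = 2 * Real.log 2 := by
    have : (4 : ℝ) = 2 ^ 2 := by norm_num
    rw [this, Real.log_pow]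
    norm_num
  have h2 := Real.log_two_lt_d9
  have h3 : Real.log Real.pi ≤ Real.pi / Real.exp 1 := by
    have h4 := Real.log_le_sub_one_of_pos (show 0 < Real.pi / Real.exp 1 by positivity)
    rw [Real.log_div Real.pi_pos.ne' (Real.exp_pos 1).ne', Real.log_exp] at h4
    linarith
  have h5 : Real.pi / Real.exp 1 < 1.15574 := by
    rw [div_lt_iff₀ (Real.exp_pos 1)]
    have h6 := Real.exp_one_gt_d9
    have h7 := Real.pi_lt_d4
    nlinarith
  rw [h1]
  linarith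

theorem log4pi_gt : 2 < Real.log (4 * Real.pi) := by
  have h1 : Real.log (Real.exp 2) < Real.log (4 * Real.pi) := by
    apply Real.log_lt_log (Real.exp_pos _)
    have h2 : Real.exp 2 = Real.exp 1 * Real.exp 1 := by rw [← Real.exp_add]; norm_num
    have h3 := Real.exp_one_lt_d9
    have h4 := Real.pi_gt_three
    have h5 := Real.exp_pos 1
    rw [h2]
    nlinarith
  rwa [Real.log_exp] at h1

/-- the value at zero -/
theorem cz_zero (hRH : RiemannHypothesis) (hc : SConst) :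
    cz 0 = 4 + Real.eulerMascheroniConstant - Real.log (4 * Real.pi) := by
  have h1 : ∀ ρ : Zt, (mu ρ : ℂ) / ((ρ : ℂ) * (1 - (ρ : ℂ))) = (((mu ρ : ℝ) / ‖(ρ : ℂ)‖ ^ 2 : ℝ) : ℂ) := by
    intro ρ
    have h2 := Pool.Agent.Q260.LF.line_of hRH ρ
    have h3 : (1 : ℂ) - (ρ : ℂ) = (starRingEnd ℂ) (ρ : ℂ) := by
      apply Complex.ext
      · simp only [Complex.sub_re, Complex.one_re, Complex.conj_re]
        rw [h2]
        norm_num
      · simp only [Complex.sub_im, Complex.one_im, Complex.conj_im]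
        ring
    rw [h3, Complex.mul_conj, Complex.normSq_eq_norm_sq]
    push_cast
    rfl
  have h2 : cz 0 = 2 + ∑' ρ : Zt, (mu ρ : ℝ) / ‖(ρ : ℂ)‖ ^ 2 := by
    unfold cz
    simp
  have h3 : ((∑' ρ : Zt, (mu ρ : ℝ) / ‖(ρ : ℂ)‖ ^ 2 : ℝ) : ℂ) =
      ((2 + Real.eulerMascheroniConstant - Real.log (4 * Real.pi) : ℝ) : ℂ) := by
    rw [Complex.ofReal_tsum, ← hc]
    exact tsum_congr fun ρ => (h1 ρ).symm
  have h4 := Complex.ofReal_injective h3
  rw [h2, h4]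
  ring

theorem cz_zero_lt (hRH : RiemannHypothesis) (hc : SConst) : cz 0 ≤ 3 := by
  rw [cz_zero hRH hc]
  have h1 := Real.eulerMascheroniConstant_lt_two_thirds
  have h2 := log4pi_gt
  linarith

theorem cz_zero_gt (hRH : RiemannHypothesis) (hc : SConst) : 2 < cz 0 := by
  rw [cz_zero hRH hc]
  have h1 := gamma_gt
  have h2 := log4pi_lt
  linarith

/-- `cz` is not constant -/
theorem cz_not_const (hRH : RiemannHypothesis) (hc : SConst) : ∃ t : ℝ, cz t < cz 0 := by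
  have hg := cz_zero_gt hRH hc
  have hl := cz_zero_lt hRH hc
  have hs := Pool.Agent.Q19.NA.zt_summable
  have h2 : cz 0 = 2 + ∑' ρ : Zt, (mu ρ : ℝ) / ‖(ρ : ℂ)‖ ^ 2 := by
    unfold cz
    simp
  -- a zero with positive weight
  obtain ⟨ρ, hρ⟩ : ∃ ρ : Zt, 0 < (mu ρ : ℝ) / ‖(ρ : ℂ)‖ ^ 2 := by
    by_contra hn
    push Not at hn
    have h3 : ∑' ρ : Zt, (mu ρ : ℝ) / ‖(ρ : ℂ)‖ ^ 2 ≤ 0 := tsum_nonpos hn
    linarith
  have hmu : 1 ≤ (mu ρ : ℝ) := by
    have h3 : mu ρ ≠ 0 := by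
      intro h0
      rw [h0] at hρ
      simp at hρ
    exact_mod_cast Nat.one_le_iff_ne_zero.2 h3
  have hre := Pool.Agent.Q260.LF.line_of hRH ρ
  have him : (ρ : ℂ).im ≠ 0 := by
    intro h0
    have h3 : (mu ρ : ℝ) / ‖(ρ : ℂ)‖ ^ 2 ≤ ∑' ρ : Zt, (mu ρ : ℝ) / ‖(ρ : ℂ)‖ ^ 2 :=
      hs.le_tsum ρ fun σ _ => by positivity
    have h4 : ‖(ρ : ℂ)‖ ^ 2 = 1 / 4 := by
      rw [← Complex.normSq_eq_norm_sq, Complex.normSq_apply, h0, hre]
      norm_num
    rw [h4] at h3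
    linarith
  refine ⟨Real.pi / (ρ : ℂ).im, ?_⟩
  rw [h2]
  unfold cz
  rw [add_lt_add_iff_left]
  refine Summable.tsum_lt_tsum (i := ρ) ?_ ?_ ?_ hs
  · intro σ
    have := Real.cos_le_one ((σ : ℂ).im * (Real.pi / (ρ : ℂ).im))
    show (mu σ : ℝ) * Real.cos ((σ : ℂ).im * (Real.pi / (ρ : ℂ).im)) / ‖(σ : ℂ)‖ ^ 2 ≤ (mu σ : ℝ) / ‖(σ : ℂ)‖ ^ 2
    gcongr
    exact mul_le_of_le_one_right (Nat.cast_nonneg _) this
  · show (mu ρ : ℝ) * Real.cos ((ρ : ℂ).im * (Real.pi / (ρ : ℂ).im)) / ‖(ρ : ℂ)‖ ^ 2 < (mu ρ : ℝ) / ‖(ρ : ℂ)‖ ^ 2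
    have e : (ρ : ℂ).im * (Real.pi / (ρ : ℂ).im) = Real.pi := by field_simp
    rw [e, Real.cos_pi]
    have e2 : (mu ρ : ℝ) * -1 / ‖(ρ : ℂ)‖ ^ 2 = -((mu ρ : ℝ) / ‖(ρ : ℂ)‖ ^ 2) := by ring
    rw [e2]
    linarith
  · refine Summable.of_norm_bounded hs fun σ => ?_
    rw [Real.norm_eq_abs, abs_div, abs_mul, abs_of_nonneg (show (0 : ℝ) ≤ (mu σ : ℝ) from Nat.cast_nonneg _),
      abs_of_nonneg (show (0 : ℝ) ≤ ‖(σ : ℂ)‖ ^ 2 by positivity)]
    gcongr
    exact mul_le_of_le_one_right (Nat.cast_nonneg _) (Real.abs_cos_le_one _)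

/-- the profile function is not constant -/
theorem GG_lt (hRH : RiemannHypothesis) (hc : SConst) (hA : ∀ t : ℝ, |cz t - 2| ≤ cz 0 - 2)
    (hUC : UniformContinuous cz) : ∃ t : ℝ, GG t < Real.sqrt (cz 0) := by
  obtain ⟨t, ht⟩ := cz_not_const hRH hc
  have h2 := two_le_cz hA
  have hs : 0 < Real.sqrt (cz 0) := Real.sqrt_pos.2 (by linarith)
  set b := (cz t + cz 0) / 2 with hb
  have hb1 : b < cz 0 := by rw [hb]; linarith
  have hb0 : 0 ≤ b := by
    have := cz_ge hA t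
    have := cz_zero_lt hRH hc
    rw [hb]
    linarith
  obtain ⟨δ, hδ0, hδ⟩ := Metric.uniformContinuous_iff.1 hUC ((cz 0 - cz t) / 2) (by linarith)
  refine ⟨t, lt_of_le_of_lt (b := max (Real.sqrt b) (Real.exp (-(3 / 4 * (δ / 2))) * Real.sqrt (cz 0))) ?_ ?_⟩
  · apply ciSup_le
    rintro ⟨s, hs⟩
    show Real.exp (-(3 / 4 * s)) * Real.sqrt (cz (t - s)) ≤ _
    rcases le_total s (δ / 2) with h3 | h3
    · refine le_trans ?_ (le_max_left _ _)
      have h4 : |cz (t - s) - cz t| < (cz 0 - cz t) / 2 := by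
        have := hδ (a := t - s) (b := t) (by
          rw [Real.dist_eq, abs_lt]
          constructor <;> linarith)
        rwa [Real.dist_eq] at this
      have h5 := (abs_lt.1 h4).2
      have h6 : Real.exp (-(3 / 4 * s)) ≤ 1 := by
        rw [Real.exp_le_one_iff]
        linarith
      calc Real.exp (-(3 / 4 * s)) * Real.sqrt (cz (t - s)) ≤ 1 * Real.sqrt b := by
            gcongr
            rw [hb]
            linarith
        _ = _ := one_mul _
    · refine le_trans ?_ (le_max_right _ _)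
      gcongr
      exact cz_le hA _
  · apply max_lt
    · exact Real.sqrt_lt_sqrt hb0 hb1
    · have h3 : Real.exp (-(3 / 4 * (δ / 2))) < 1 := by
        rw [Real.exp_lt_one_iff]
        linarith
      calc Real.exp (-(3 / 4 * (δ / 2))) * Real.sqrt (cz 0) < 1 * Real.sqrt (cz 0) := by gcongr
        _ = _ := one_mul _

end Q204.NA
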