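import Pool.Agent.Q204.NA.A4

set_option autoImplicit false

/-! # The quotients of the primorials -/

open Finset Filter Topology MeasureTheory
open Q239.RN

namespace Q204.NA

/-- the logarithm of Nicolas's quotient at the primorial -/
noncomputable def DD (j : ℕ) : ℝ :=
  SL j - Real.eulerMascheroniConstant - Real.log (Real.log (Chebyshev.theta (j : ℝ)))

theorem log_one_add_ge {x : ℝ} (h : |x| ≤ 1 / 2) : x - 2 * x ^ 2 ≤ Real.log (1 + x) := by
  have h1 := Real.abs_log_sub_add_sum_range_le (x := -x) (by rw [abs_neg]; linarith) 1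
  simp only [Finset.sum_range_one, zero_add, pow_one, Nat.cast_zero, div_one, sub_neg_eq_add, abs_neg] at h1
  have h2 : |x| ^ (1 + 1) / (1 - |x|) ≤ 2 * x ^ 2 := by
    rw [div_le_iff₀ (by linarith), show (1 + 1 : ℕ) = 2 from rfl, sq_abs]
    nlinarith [sq_nonneg x]
  have h3 := (abs_le.1 (h1.trans h2)).1
  linarith

/-- comparison of the quotient with the tail integral, upper bound -/
theorem DD_le {j : ℕ} (hj : 100 ≤ j) (he : |eT (Real.log j)| ≤ 1 / 4) :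
    DD j ≤ kT (Real.log j) + 5 * eT (Real.log j) ^ 2 := by
  have h100 : (100 : ℝ) ≤ j := by exact_mod_cast hj
  have hjp : (0 : ℝ) < j := by linarith
  have hlj : 2 ≤ Real.log j := (log_big hj).trans (Real.log_le_log (by linarith) (by linarith))
  have hM := (mertens_exact (u := Real.log j) (by linarith)).1
  rw [floor_exp_log (by omega : 1 ≤ j)] at hM
  have hTh := theta_eq_eT (j := j) (by omega)
  set u := Real.log j with hu
  set e := eT u with hedef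
  obtain ⟨he1, he2⟩ := abs_le.1 he
  have hθ : Chebyshev.theta (j : ℝ) = j * (1 + e) := by linarith
  have hlogθ : Real.log (Chebyshev.theta (j : ℝ)) = u + Real.log (1 + e) := by
    rw [hθ, Real.log_mul hjp.ne' (by linarith)]
  set y := Real.log (1 + e) / u with hy
  have hu0 : 0 < u := by linarith
  have h1 : Real.log (Real.log (Chebyshev.theta (j : ℝ))) = Real.log u + Real.log (1 + y) := by
    have hl := log_one_add_ge (x := e) (by linarith [abs_nonneg e])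
    have h2 : u + Real.log (1 + e) = u * (1 + y) := by
      rw [hy]; field_simp
    have h3 : 0 < 1 + y := by
      have h4 : 0 < u + Real.log (1 + e) := by nlinarith
      rw [h2] at h4
      by_contra hneg
      push Not at hneg
      nlinarith
    rw [hlogθ, h2, Real.log_mul hu0.ne' h3.ne']
  have hl := log_one_add_ge (x := e) (by linarith [abs_nonneg e])
  have hl2 : Real.log (1 + e) ≤ e := by
    have := Real.log_le_sub_one_of_pos (show 0 < 1 + e by linarith)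
    linarith
  -- size of `y`
  have hle : |Real.log (1 + e)| ≤ 2 * |e| := by
    rw [abs_le]
    have h5 : e ^ 2 ≤ |e| / 4 := by
      rw [← sq_abs]
      nlinarith [abs_nonneg e]
    have h6 := abs_nonneg e
    constructor
    · have := neg_abs_le e
      linarith
    · have := le_abs_self e
      linarith [abs_nonneg e]
  have hyabs : |y| ≤ |e| := by
    rw [hy, abs_div, abs_of_pos hu0, div_le_iff₀ hu0]
    refine hle.trans ?_
    nlinarith [abs_nonneg e]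
  have hy2 : y ^ 2 ≤ e ^ 2 := by
    rw [← sq_abs y, ← sq_abs e]
    exact pow_le_pow_left₀ (abs_nonneg _) hyabs 2
  have hly := log_one_add_ge (x := y) (by linarith)
  have hyl : (e - 2 * e ^ 2) / u ≤ y := by rw [hy]; gcongr
  have h6 : (e - 2 * e ^ 2) / u = e / u - 2 * e ^ 2 / u := sub_div _ _ _
  have h7 : 2 * e ^ 2 / u ≤ 2 * e ^ 2 := div_le_self (by positivity) (by linarith)
  unfold DD
  rw [h1]
  linarith [sq_nonneg e]

theorem DD_ge {j : ℕ} (hj : 3 ≤ j) : kT (Real.log j) - 2 / j ≤ DD j := by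
  have hjp : (0 : ℝ) < j := by exact_mod_cast (by omega : 0 < j)
  have hu := (log_gt_one hj).le
  have hθ : 1 < Chebyshev.theta (Real.exp (Real.log j)) := by
    rw [Real.exp_log hjp]
    have h3 : Chebyshev.theta ((3 : ℕ) : ℝ) ≤ Chebyshev.theta (j : ℝ) :=
      Chebyshev.theta_mono (by exact_mod_cast hj)
    refine lt_of_lt_of_le ?_ h3
    rw [theta_PS]
    have h4 : PS 3 = {2, 3} := by decide
    rw [h4, Finset.sum_pair (by norm_num)]
    have h5 := Real.log_two_gt_d9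
    have h6 : Real.log 2 ≤ Real.log 3 := Real.log_le_log (by norm_num) (by norm_num)
    push_cast
    linarith
  have h1 := SL_ge_theta hu hθ
  rw [floor_exp_log (by omega : 1 ≤ j), Real.exp_neg, Real.exp_log hjp] at h1
  unfold DD
  have e : (2 : ℝ) * (j : ℝ)⁻¹ = 2 / j := by ring
  rw [e] at h1
  linarith

/-- the comparison for all levels -/
theorem DD_kT {C θ' : ℝ} (hC : 0 < C) (h0 : 1 / 2 ≤ θ') (hθ : θ' < 1)
    (h : ∀ v : ℝ, 0 ≤ v → |eT v| ≤ C * Real.exp ((θ' - 1) * v)) :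
    ∃ K : ℝ, 0 < K ∧ ∀ j : ℕ, 3 ≤ j → |DD j - kT (Real.log j)| ≤ K * (j : ℝ) ^ (2 * θ' - 2) := by
  have hsmall : ∀ᶠ j : ℕ in atTop, C * (j : ℝ) ^ (θ' - 1) ≤ 1 / 4 := by
    have h1 : Tendsto (fun j : ℕ => C * (j : ℝ) ^ (-(1 - θ'))) atTop (𝓝 (C * 0)) :=
      ((tendsto_rpow_neg_atTop (by linarith)).comp tendsto_natCast_atTop_atTop).const_mul C
    rw [mul_zero] at h1
    filter_upwards [h1.eventually (gt_mem_nhds (show (0 : ℝ) < 1 / 4 by norm_num))] with j hj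
    rw [show -(1 - θ') = θ' - 1 by ring] at hj
    exact hj.le
  obtain ⟨J, hJ⟩ := eventually_atTop.1 (hsmall.and (eventually_ge_atTop 100))
  -- the small levels
  set K1 := ∑ i ∈ Finset.range J, |DD i - kT (Real.log i)| * (i : ℝ) ^ (2 - 2 * θ') with hK1
  have hK10 : 0 ≤ K1 := by
    rw [hK1]
    exact Finset.sum_nonneg fun i _ => by positivity
  refine ⟨K1 + (2 + 5 * C ^ 2), by positivity, fun j hj => ?_⟩
  have hjp : (0 : ℝ) < j := by exact_mod_cast (by omega : 0 < j)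
  have hj1 : (1 : ℝ) ≤ j := by exact_mod_cast (by omega : 1 ≤ j)
  have hpow : 0 < (j : ℝ) ^ (2 * θ' - 2) := by positivity
  rcases lt_or_ge j J with hc | hc
  · have h1 : |DD j - kT (Real.log j)| * (j : ℝ) ^ (2 - 2 * θ') ≤ K1 := by
      rw [hK1]
      exact Finset.single_le_sum (f := fun i : ℕ => |DD i - kT (Real.log i)| * (i : ℝ) ^ (2 - 2 * θ'))
        (fun i _ => by positivity) (Finset.mem_range.2 hc)
    have h2 : |DD j - kT (Real.log j)| = (|DD j - kT (Real.log j)| * (j : ℝ) ^ (2 - 2 * θ')) *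
        (j : ℝ) ^ (2 * θ' - 2) := by
      rw [mul_assoc, ← Real.rpow_add hjp]
      simp
    rw [h2]
    have h3 : 0 ≤ (2 + 5 * C ^ 2) * (j : ℝ) ^ (2 * θ' - 2) := by positivity
    rw [add_mul]
    have h4 : (|DD j - kT (Real.log j)| * (j : ℝ) ^ (2 - 2 * θ')) * (j : ℝ) ^ (2 * θ' - 2) ≤
      K1 * (j : ℝ) ^ (2 * θ' - 2) := by gcongr
    linarith
  · obtain ⟨h1, h2⟩ := hJ j hc
    have hu := (log_gt_one hj).le
    have h3 := h (Real.log j) (by linarith)
    have e1 : Real.exp ((θ' - 1) * Real.log j) = (j : ℝ) ^ (θ' - 1) := by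
      rw [Real.rpow_def_of_pos hjp]; congr 1; ring
    rw [e1] at h3
    have h4 := DD_le h2 (h3.trans h1)
    have h5 := DD_ge hj
    have h6 : eT (Real.log j) ^ 2 ≤ C ^ 2 * (j : ℝ) ^ (2 * θ' - 2) := by
      rw [← sq_abs]
      calc |eT (Real.log j)| ^ 2 ≤ (C * (j : ℝ) ^ (θ' - 1)) ^ 2 := pow_le_pow_left₀ (abs_nonneg _) h3 2
        _ = C ^ 2 * (j : ℝ) ^ (2 * θ' - 2) := by
          rw [mul_pow, ← Real.rpow_natCast ((j : ℝ) ^ (θ' - 1)), ← Real.rpow_mul hjp.le]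
          congr 2
          push_cast
          ring
    have h7 : 2 / (j : ℝ) ≤ 2 * (j : ℝ) ^ (2 * θ' - 2) := by
      have h8 : (j : ℝ) ^ (-1 : ℝ) ≤ (j : ℝ) ^ (2 * θ' - 2) :=
        Real.rpow_le_rpow_of_exponent_le hj1 (by linarith)
      rw [Real.rpow_neg_one] at h8
      rw [div_eq_mul_inv]
      linarith
    have h8 : 0 ≤ K1 * (j : ℝ) ^ (2 * θ' - 2) := by positivity
    have h9 : 0 ≤ C ^ 2 * (j : ℝ) ^ (2 * θ' - 2) := by positivity
    rw [abs_le]
    constructor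
    · have : (K1 + (2 + 5 * C ^ 2)) * (j : ℝ) ^ (2 * θ' - 2) =
        K1 * (j : ℝ) ^ (2 * θ' - 2) + 2 * (j : ℝ) ^ (2 * θ' - 2) + 5 * (C ^ 2 * (j : ℝ) ^ (2 * θ' - 2)) := by ring
      rw [this]
      linarith
    · have : (K1 + (2 + 5 * C ^ 2)) * (j : ℝ) ^ (2 * θ' - 2) =
        K1 * (j : ℝ) ^ (2 * θ' - 2) + 2 * (j : ℝ) ^ (2 * θ' - 2) + 5 * (C ^ 2 * (j : ℝ) ^ (2 * θ' - 2)) := by ring
      rw [this]
      linarith

/-- the profile with the quotients -/
noncomputable def Fq (j : ℕ) : ℝ := j * Real.sqrt (max (DD j) 0 / Real.log j)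

/-- its maximum -/
noncomputable def Mq (Y : ℝ) : ℝ := sSup {r : ℝ | ∃ j : ℕ, 3 ≤ j ∧ (j : ℝ) ≤ Y ∧ r = Fq j}

theorem Mq_finite (Y : ℝ) : {r : ℝ | ∃ j : ℕ, 3 ≤ j ∧ (j : ℝ) ≤ Y ∧ r = Fq j}.Finite := by
  refine ((Set.finite_Iic ⌊Y⌋₊).image Fq).subset ?_
  rintro r ⟨j, -, h2, rfl⟩
  exact ⟨j, Nat.le_floor h2, rfl⟩

theorem le_Mq {Y : ℝ} {j : ℕ} (hj : 3 ≤ j) (h : (j : ℝ) ≤ Y) : Fq j ≤ Mq Y :=
  le_csSup (Mq_finite Y).bddAbove ⟨j, hj, h, rfl⟩

theorem Mq_attained {Y : ℝ} (hY : 3 ≤ Y) : ∃ j : ℕ, 3 ≤ j ∧ (j : ℝ) ≤ Y ∧ Mq Y = Fq j := by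
  have h := Set.Nonempty.csSup_mem (s := {r : ℝ | ∃ j : ℕ, 3 ≤ j ∧ (j : ℝ) ≤ Y ∧ r = Fq j})
    ⟨Fq 3, 3, le_rfl, by exact_mod_cast hY, rfl⟩ (Mq_finite Y)
  exact h

/-- transfer between two profiles -/
theorem prof_transfer {a b K θ' : ℝ} {j : ℕ} (hj : 3 ≤ j) (hK : 0 ≤ K)
    (h : |a - b| ≤ K * (j : ℝ) ^ (2 * θ' - 2)) :
    (j : ℝ) * Real.sqrt (max a 0 / Real.log j) ≤
      j * Real.sqrt (max b 0 / Real.log j) + Real.sqrt K * (j : ℝ) ^ θ' := by
  have hu := (log_gt_one hj).le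
  have hjp : (0 : ℝ) < j := by exact_mod_cast (by omega : 0 < j)
  have h1 : max a 0 / Real.log j ≤ max b 0 / Real.log j + K * (j : ℝ) ^ (2 * θ' - 2) := by
    have h2 := (abs_le.1 h).2
    have hE : 0 ≤ K * (j : ℝ) ^ (2 * θ' - 2) := by positivity
    have h3 : max a 0 ≤ max b 0 + K * (j : ℝ) ^ (2 * θ' - 2) := by
      apply max_le
      · linarith [le_max_left b 0]
      · linarith [le_max_right b 0]
    calc max a 0 / Real.log j ≤ (max b 0 + K * (j : ℝ) ^ (2 * θ' - 2)) / Real.log j := by gcongr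
      _ = max b 0 / Real.log j + K * (j : ℝ) ^ (2 * θ' - 2) / Real.log j := add_div _ _ _
      _ ≤ _ := by
        gcongr
        exact div_le_self hE hu
  have h2 : Real.sqrt (max a 0 / Real.log j) ≤ Real.sqrt (max b 0 / Real.log j) +
      Real.sqrt (K * (j : ℝ) ^ (2 * θ' - 2)) :=
    (Real.sqrt_le_sqrt h1).trans (sqrt_add_le' (by positivity) (by positivity))
  have h3 : (j : ℝ) * Real.sqrt (K * (j : ℝ) ^ (2 * θ' - 2)) = Real.sqrt K * (j : ℝ) ^ θ' := by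
    rw [Real.sqrt_mul hK]
    have : (j : ℝ) * Real.sqrt ((j : ℝ) ^ (2 * θ' - 2)) = (j : ℝ) ^ θ' := by
      rw [Real.sqrt_eq_rpow, ← Real.rpow_mul hjp.le]
      nth_rewrite 1 [← Real.rpow_one (j : ℝ)]
      rw [← Real.rpow_add hjp]
      congr 1
      ring
    rw [← this]
    ring
  calc (j : ℝ) * Real.sqrt (max a 0 / Real.log j) ≤ j * (Real.sqrt (max b 0 / Real.log j) +
      Real.sqrt (K * (j : ℝ) ^ (2 * θ' - 2))) := by gcongr
    _ = _ := by rw [mul_add, h3]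

/-- the two maxima agree asymptotically -/
theorem Mq_Mx {C θ' κ1 ε : ℝ} (hC : 0 < C) (h0 : 1 / 2 ≤ θ') (hθ : θ' < 1)
    (h : ∀ v : ℝ, 0 ≤ v → |eT v| ≤ C * Real.exp ((θ' - 1) * v)) (hκ : θ' < κ1)
    (hM : ∀ᶠ Y : ℝ in atTop, Y ^ κ1 ≤ Mx Y) (hε : 0 < ε) :
    ∀ᶠ Y : ℝ in atTop, |Mq Y - Mx Y| ≤ ε * Mx Y := by
  obtain ⟨K, hK, hDK⟩ := DD_kT hC h0 hθ h
  filter_upwards [hM, rpow_eventually (κ1 := θ') (κ := κ1) (C := Real.sqrt K / ε) hκ,
    eventually_ge_atTop 3] with Y a1 a2 a3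
  have b1 : Real.sqrt K * Y ^ θ' ≤ ε * Mx Y := by
    calc Real.sqrt K * Y ^ θ' = ε * (Real.sqrt K / ε * Y ^ θ') := by field_simp
      _ ≤ ε * Mx Y := by
        gcongr
        exact a2.trans a1
  rw [abs_le]
  constructor
  · obtain ⟨j, hj1, hj2, hj3⟩ := Mx_attained a3
    have b2 := prof_transfer (a := kT (Real.log j)) (b := DD j) hj1 hK.le (by
      rw [abs_sub_comm]; exact hDK j hj1)
    have b3 := le_Mq hj1 hj2
    have b4 : Real.sqrt K * (j : ℝ) ^ θ' ≤ Real.sqrt K * Y ^ θ' := by gcongr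
    have b5 : Fr j ≤ Fq j + Real.sqrt K * (j : ℝ) ^ θ' := b2
    rw [hj3] at b1 ⊢
    linarith
  · obtain ⟨j, hj1, hj2, hj3⟩ := Mq_attained a3
    have b2 := prof_transfer (a := DD j) (b := kT (Real.log j)) hj1 hK.le (hDK j hj1)
    have b3 := le_Mx hj1 hj2
    have b4 : Real.sqrt K * (j : ℝ) ^ θ' ≤ Real.sqrt K * Y ^ θ' := by gcongr
    have b5 : Fq j ≤ Fr j + Real.sqrt K * (j : ℝ) ^ θ' := b2
    rw [hj3]
    linarith

/-- **the law for the number of exceptions** -/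
theorem law_log (hD : SDist) {Θ : ℝ} (h1 : 1 / 2 ≤ Θ) (h2 : Θ < 1)
    (hz : ∀ s : ℂ, Θ < s.re → riemannZeta s ≠ 0)
    (hs : ∀ β : ℝ, β < Θ → ∃ ρ : ℂ, riemannZeta ρ = 0 ∧ β < ρ.re) {ε : ℝ} (hε : 0 < ε) :
    ∀ᶠ x : ℝ in atTop, |Real.log (cnt NicEx x) - c0 * Mx (Real.log x)| ≤ ε * (c0 * Mx (Real.log x)) := by
  filter_upwards [law_upper h1 h2 hz hs hε, law_lower hD h1 h2 hz hs hε] with x a1 a2
  have hpos : (0 : ℝ) < cnt NicEx x := lt_of_lt_of_le (Real.exp_pos _) a2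
  have b1 := (Real.log_le_iff_le_exp hpos).2 a1
  have b2 := (Real.le_log_iff_exp_le hpos).2 a2
  rw [abs_le]
  constructor <;> linarith

end Q204.NA
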