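import Pool.Agent.Q204.NA.A6
import Pool.Agent.Q204.NA.A7

set_option autoImplicit false

/-! # The number of exceptions under the Riemann hypothesis -/

open Filter Topology
open Q239.RN
open scoped NNReal

namespace Q204.NA

/-- everything which is known under the Riemann hypothesis -/
theorem rh_free_of (hRH : RiemannHypothesis) :
    (∀ s : ℂ, (1 / 2 : ℝ) < s.re → riemannZeta s ≠ 0) ∧
      ∀ β : ℝ, β < (1 / 2 : ℝ) → ∃ ρ : ℂ, riemannZeta ρ = 0 ∧ β < ρ.re := by
  obtain ⟨Θ, hlub, h1, h2, hz, hs⟩ := Q239.RN.exists_sup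
  have hf : ∀ s : ℂ, (1 / 2 : ℝ) < s.re → riemannZeta s ≠ 0 := Pool.Agent.Q260.LF.rh_iff.1 hRH
  refine ⟨hf, fun β hβ => hs β (lt_of_lt_of_le hβ h1)⟩

theorem rpow_exp {Y : ℝ} (hY : 0 < Y) : Real.exp (3 / 4 * Real.log Y) = Y ^ (3 / 4 : ℝ) := by
  rw [Real.rpow_def_of_pos hY]; congr 1; ring

/-- the law under the Riemann hypothesis -/
theorem rh_law (hD : SDist) (hc : SConst) (hAs : SAsym) (hAl : SAlmost) (hRH : RiemannHypothesis) {ε : ℝ}
    (hε : 0 < ε) :
    ∀ᶠ x : ℝ in atTop, |Real.log (cnt NicEx x) * Real.log (Real.log x) / Real.log x ^ (3 / 4 : ℝ) -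
      c0 * GG (Real.log (Real.log x))| ≤ ε := by
  obtain ⟨hA, hUC, hR⟩ := hAl
  obtain ⟨hz, hs⟩ := rh_free_of hRH
  obtain ⟨C, hC, hbd⟩ := eT_free (θ := 1 / 2) (θ' := 9 / 16) le_rfl hz (by norm_num) (by norm_num)
  have h3 := cz_zero_lt hRH hc
  have hc0 := c0_pos
  set δ := min 1 (ε / (5 * c0)) with hδ
  have hδ0 : 0 < δ := lt_min one_pos (by positivity)
  have hδ1 : δ ≤ 1 := min_le_left _ _
  have hδε : 5 * c0 * δ ≤ ε := by
    have : δ ≤ ε / (5 * c0) := min_le_right _ _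
    rw [le_div_iff₀ (by positivity)] at this
    linarith
  have hup := Mx_rh_upper hA (by linarith) (hAs hRH) hC (by norm_num) (by norm_num) hbd hδ0
  have hlo := Mx_rh_lower hA hUC (hAs hRH) hδ0
  have hlaw := law_log hD (Θ := 1 / 2) le_rfl (by norm_num) hz hs hδ0
  filter_upwards [hlaw, Real.tendsto_log_atTop.eventually hup, Real.tendsto_log_atTop.eventually hlo,
    Real.tendsto_log_atTop.eventually_ge_atTop 3] with x a1 a2 a3 a4
  set Y := Real.log x with hY
  have hYp : 0 < Y := by linarith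
  have ht : 0 < Real.log Y := Real.log_pos (by linarith)
  rw [rpow_exp hYp] at a2 a3
  set w := Real.log Y / Y ^ (3 / 4 : ℝ) with hw
  have hw0 : 0 < w := by positivity
  have e1 : Mx Y * Real.log Y / Y ^ (3 / 4 : ℝ) = Mx Y * w := by rw [hw]; ring
  have e2 : Real.log (cnt NicEx x) * Real.log Y / Y ^ (3 / 4 : ℝ) = Real.log (cnt NicEx x) * w := by
    rw [hw]; ring
  rw [e1] at a2 a3
  rw [e2]
  have hG := GG_le hA (Real.log Y)
  have hG2 : GG (Real.log Y) ≤ 2 := by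
    refine hG.trans ?_
    rw [Real.sqrt_le_left (by norm_num)]
    linarith
  have hH0 : 0 ≤ Mx Y * w := mul_nonneg (Mx_nonneg a4) hw0.le
  obtain ⟨b1, b2⟩ := abs_le.1 a1
  have c1 : Real.log (cnt NicEx x) * w - c0 * (Mx Y * w) ≤ δ * (c0 * (Mx Y * w)) := by
    have := mul_le_mul_of_nonneg_right b2 hw0.le
    calc _ = (Real.log (cnt NicEx x) - c0 * Mx Y) * w := by ring
      _ ≤ _ := this
      _ = _ := by ring
  have c2 : -(δ * (c0 * (Mx Y * w))) ≤ Real.log (cnt NicEx x) * w - c0 * (Mx Y * w) := by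
    have := mul_le_mul_of_nonneg_right b1 hw0.le
    calc _ = -(δ * (c0 * Mx Y)) * w := by ring
      _ ≤ _ := this
      _ = _ := by ring
  set H := Mx Y * w with hH
  have hH3 : H ≤ 3 := by linarith
  have c3 : δ * (c0 * H) ≤ 3 * c0 * δ := by
    calc δ * (c0 * H) ≤ δ * (c0 * 3) := by gcongr
      _ = _ := by ring
  have c4 : c0 * H ≤ c0 * GG (Real.log Y) + c0 * δ := by
    rw [← mul_add]
    gcongr
  have c5 : c0 * GG (Real.log Y) ≤ c0 * H + c0 * δ := by
    rw [← mul_add]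
    gcongr
  have c6 : 0 < c0 * δ := by positivity
  rw [abs_le]
  constructor <;> linarith

/-- `log log` tends to infinity -/
theorem tendsto_loglog : Tendsto (fun x : ℝ => Real.log (Real.log x)) atTop atTop :=
  Real.tendsto_log_atTop.comp Real.tendsto_log_atTop

theorem freq_loglog {p : ℝ → Prop} (h : ∀ T : ℝ, ∃ t : ℝ, T ≤ t ∧ p t) :
    ∃ᶠ x : ℝ in atTop, p (Real.log (Real.log x)) := by
  rw [frequently_atTop]
  intro a
  obtain ⟨t, ht1, ht2⟩ := h (Real.log (Real.log (max a 3)))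
  have h1 : 1 < Real.log (max a 3) := by
    have h2 : Real.exp 1 < max a 3 := lt_of_lt_of_le (by have := Real.exp_one_lt_d9; linarith) (le_max_right _ _)
    rwa [← Real.lt_log_iff_exp_lt (by positivity)] at h2
  refine ⟨Real.exp (Real.exp t), ?_, ?_⟩
  · have h2 : Real.log (max a 3) ≤ Real.exp t := (Real.log_le_iff_le_exp (by linarith)).1 ht1
    have h3 : max a 3 ≤ Real.exp (Real.exp t) := (Real.log_le_iff_le_exp (by positivity)).1 h2
    exact (le_max_left _ _).trans h3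
  · rw [Real.log_exp, Real.log_exp]
    exact ht2

/-- the upper limit -/
theorem rh_limsup (hD : SDist) (hc : SConst) (hAs : SAsym) (hAl : SAlmost) (hRH : RiemannHypothesis) {ε : ℝ}
    (hε : 0 < ε) :
    (∀ᶠ x : ℝ in atTop, Real.log (cnt NicEx x) * Real.log (Real.log x) / Real.log x ^ (3 / 4 : ℝ) ≤
      c0 * Real.sqrt (cz 0) + ε) ∧
    ∃ᶠ x : ℝ in atTop, c0 * Real.sqrt (cz 0) - ε ≤
      Real.log (cnt NicEx x) * Real.log (Real.log x) / Real.log x ^ (3 / 4 : ℝ) := by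
  have hc0 := c0_pos
  constructor
  · filter_upwards [rh_law hD hc hAs hAl hRH hε] with x hx
    have h1 := (abs_le.1 hx).2
    have h2 : c0 * GG (Real.log (Real.log x)) ≤ c0 * Real.sqrt (cz 0) := by
      have := GG_le hAl.1 (Real.log (Real.log x))
      gcongr
    linarith
  · have h1 := freq_loglog (fun T => GG_sup hAl.1 hAl.2.2 (show 0 < ε / (2 * c0) by positivity) T)
    refine (h1.and_eventually (rh_law hD hc hAs hAl hRH (half_pos hε))).mono fun x hx => ?_
    obtain ⟨h2, h3⟩ := hx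
    have h4 := (abs_le.1 h3).1
    have h5 : c0 * (Real.sqrt (cz 0) - ε / (2 * c0)) ≤ c0 * GG (Real.log (Real.log x)) := by gcongr
    have h6 : c0 * (Real.sqrt (cz 0) - ε / (2 * c0)) = c0 * Real.sqrt (cz 0) - ε / 2 := by field_simp
    linarith

/-- the minimum of the profile function -/
noncomputable def Gm : ℝ := ⨅ t : ℝ, GG t

theorem Gm_le (hA : ∀ t : ℝ, |cz t - 2| ≤ cz 0 - 2) (t : ℝ) : Gm ≤ GG t := by
  refine ciInf_le ⟨0, ?_⟩ t
  rintro _ ⟨s, rfl⟩
  exact GG_nonneg hA s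

theorem Gm_ge (hA : ∀ t : ℝ, |cz t - 2| ≤ cz 0 - 2) : Real.sqrt (4 - cz 0) ≤ Gm := by
  apply le_ciInf
  intro t
  exact (Real.sqrt_le_sqrt (cz_ge hA t)).trans (le_GG0 hA t)

theorem Gm_lt (hRH : RiemannHypothesis) (hc : SConst) (hAl : SAlmost) : Gm < Real.sqrt (cz 0) := by
  obtain ⟨t, ht⟩ := GG_lt hRH hc hAl.1 hAl.2.1
  exact lt_of_le_of_lt (Gm_le hAl.1 t) ht

/-- the lower limit -/
theorem rh_liminf (hD : SDist) (hc : SConst) (hAs : SAsym) (hAl : SAlmost) (hRH : RiemannHypothesis) {ε : ℝ}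
    (hε : 0 < ε) :
    (∀ᶠ x : ℝ in atTop, c0 * Gm - ε ≤
      Real.log (cnt NicEx x) * Real.log (Real.log x) / Real.log x ^ (3 / 4 : ℝ)) ∧
    ∃ᶠ x : ℝ in atTop, Real.log (cnt NicEx x) * Real.log (Real.log x) / Real.log x ^ (3 / 4 : ℝ) ≤
      c0 * Gm + ε := by
  have hc0 := c0_pos
  constructor
  · filter_upwards [rh_law hD hc hAs hAl hRH hε] with x hx
    have h1 := (abs_le.1 hx).1
    have h2 : c0 * Gm ≤ c0 * GG (Real.log (Real.log x)) := by
      have := Gm_le hAl.1 (Real.log (Real.log x))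
      gcongr
    linarith
  · have hpos : 0 < ε / (4 * c0) := by positivity
    obtain ⟨b, hb⟩ := exists_lt_of_ciInf_lt (show (⨅ t : ℝ, GG t) < Gm + ε / (4 * c0) by
      unfold Gm; linarith)
    have h3 := cz_zero_lt hRH hc
    have h1 := freq_loglog (fun T => GG_rec hAl.1 (by linarith) hAl.2.2 b hpos T)
    refine (h1.and_eventually (rh_law hD hc hAs hAl hRH (half_pos hε))).mono fun x hx => ?_
    obtain ⟨h2, h3⟩ := hx
    have h4 := (abs_le.1 h3).2
    have h5 : c0 * GG (Real.log (Real.log x)) ≤ c0 * (Gm + ε / (4 * c0) + ε / (4 * c0)) := by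
      gcongr
      linarith
    have h6 : c0 * (Gm + ε / (4 * c0) + ε / (4 * c0)) = c0 * Gm + ε / 2 := by field_simp; ring
    linarith

/-- if the Riemann hypothesis fails, there are more exceptions -/
theorem rh_of_few {C : ℝ} (h : ∃ᶠ x : ℝ in atTop,
    (cnt NicEx x : ℝ) ≤ Real.exp (C * Real.log x ^ (3 / 4 : ℝ) / Real.log (Real.log x))) : RiemannHypothesis := by
  obtain ⟨Θ, hlub, h1, h2, hz, hs⟩ := Q239.RN.exists_sup
  rw [Pool.Agent.Q260.LF.rh_iff]
  by_contra hneg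
  have h3 : 1 / 2 < Θ := by
    rcases h1.lt_or_eq with h4 | h4
    · exact h4
    · exfalso
      apply hneg
      rw [h4]
      exact hz
  set ε := (Θ - 1 / 2) / 4 with hε
  have hε0 : 0 < ε := by rw [hε]; linarith
  have hlow := nic_lower h1 h2 hz hs (ε := ε) hε0
  have hκ : (3 / 4 : ℝ) < (1 + Θ) / 2 - ε := by rw [hε]; linarith
  refine h ?_
  filter_upwards [hlow, Real.tendsto_log_atTop.eventually (rpow_eventually (κ1 := 3 / 4) (κ := (1 + Θ) / 2 - ε)
    (C := |C| + 1) hκ), Real.tendsto_log_atTop.eventually_ge_atTop 3] with x a1 a2 a3 a4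
  have b1 := Real.exp_le_exp.1 (a1.trans a4)
  have hYp : 0 < Real.log x := by linarith
  have ht : 1 ≤ Real.log (Real.log x) := by
    rw [Real.le_log_iff_exp_le hYp]
    have := Real.exp_one_lt_d9
    linarith
  have hp : 0 < Real.log x ^ (3 / 4 : ℝ) := by positivity
  have b2 : C * Real.log x ^ (3 / 4 : ℝ) / Real.log (Real.log x) ≤ |C| * Real.log x ^ (3 / 4 : ℝ) := by
    have h5 : C * Real.log x ^ (3 / 4 : ℝ) ≤ |C| * Real.log x ^ (3 / 4 : ℝ) := by
      have := le_abs_self C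
      gcongr
    calc C * Real.log x ^ (3 / 4 : ℝ) / Real.log (Real.log x) ≤
        |C| * Real.log x ^ (3 / 4 : ℝ) / Real.log (Real.log x) := by gcongr
      _ ≤ _ := div_le_self (by positivity) ht
  have b3 : (|C| + 1) * Real.log x ^ (3 / 4 : ℝ) = |C| * Real.log x ^ (3 / 4 : ℝ) + Real.log x ^ (3 / 4 : ℝ) := by
    ring
  linarith

end Q204.NA
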