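import Pool.Agent.Q204.NA.Up3

set_option autoImplicit false

/-! # Sufficient condition for exceptions -/

open Finset
open Q239.RN

namespace Q204.NA

/-- the number with the primes `T` removed and the primes `W` added -/
def nTW (j : ℕ) (T W : Finset ℕ) : ℕ := ∏ p ∈ (PS j \ T) ∪ W, p

theorem prime_TW {j : ℕ} {T W : Finset ℕ} (hW : ∀ p ∈ W, p.Prime ∧ j < p) {p : ℕ}
    (hp : p ∈ (PS j \ T) ∪ W) : p.Prime := by
  rw [mem_union, mem_sdiff, mem_PS] at hp
  rcases hp with h | h
  · exact h.1.1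
  · exact (hW p h).1

theorem nTW_factors {j : ℕ} {T W : Finset ℕ} (hW : ∀ p ∈ W, p.Prime ∧ j < p) :
    (nTW j T W).primeFactors = (PS j \ T) ∪ W :=
  Nat.primeFactors_prod fun p hp => prime_TW hW hp

theorem disj_TW {j : ℕ} {T W : Finset ℕ} (hW : ∀ p ∈ W, p.Prime ∧ j < p) : Disjoint (PS j \ T) W := by
  rw [Finset.disjoint_left]
  intro p hp hp'
  rw [mem_sdiff, mem_PS] at hp
  have := (hW p hp').2
  omega

theorem log_nTW {j : ℕ} {T W : Finset ℕ} (hT : T ⊆ PS j) (hW : ∀ p ∈ W, p.Prime ∧ j < p) :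
    Real.log (nTW j T W) = Chebyshev.theta j - ∑ p ∈ T, Real.log p + ∑ p ∈ W, Real.log p := by
  unfold nTW
  rw [Nat.cast_prod, Real.log_prod]
  · rw [sum_union (disj_TW hW), theta_PS, ← Finset.sum_sdiff hT]
    ring
  · intro p hp
    have := prime_gt (prime_TW hW hp)
    positivity

/-- the tangent line above `log log` -/
theorem loglog_tangent {j L : ℝ} (hj : 1 < j) (hL : 1 < L) :
    Real.log (Real.log L) ≤ Real.log (Real.log j) + (L - j) / (j * Real.log j) := by
  have h1 : 0 < Real.log L := Real.log_pos hL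
  have h2 : 0 < Real.log j := Real.log_pos hj
  have h3 := Real.log_le_sub_one_of_pos (show 0 < L / j by positivity)
  rw [Real.log_div (by linarith) (by linarith)] at h3
  have h4 := Real.log_le_sub_one_of_pos (show 0 < Real.log L / Real.log j by positivity)
  rw [Real.log_div h1.ne' h2.ne'] at h4
  have h5 : Real.log L / Real.log j - 1 = (Real.log L - Real.log j) / Real.log j := by field_simp
  have h6 : L / j - 1 = (L - j) / j := by field_simp
  rw [h6] at h3
  have h7 : (Real.log L - Real.log j) / Real.log j ≤ (L - j) / j / Real.log j := by gcongr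
  rw [div_div] at h7
  linarith

theorem nic_of_cost {j : ℕ} {T W : Finset ℕ} (hj : 100 ≤ j) (hT : T ⊆ PS j)
    (hW : ∀ p ∈ W, p.Prime ∧ j < p) (h3 : 3 ≤ nTW j T W)
    (hcost : ∑ p ∈ T, (ell p - Real.log p / (j * Real.log j)) +
      ∑ p ∈ W, (Real.log p / (j * Real.log j) - ell p) < kT (Real.log j) - 2 / j) :
    NicEx (nTW j T W) := by
  rw [nicEx_iff h3, nTW_factors hW]
  have h100 : (100 : ℝ) ≤ j := by exact_mod_cast hj
  have hjp : (0 : ℝ) < j := by linarith
  have hlj : 2 ≤ Real.log j := (log_big hj).trans (Real.log_le_log (by linarith) (by linarith))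
  have hM := (mertens_exact (u := Real.log j) (by linarith)).2
  rw [floor_exp_log (by omega : 1 ≤ j), Real.exp_neg, Real.exp_log hjp] at hM
  have hTh := theta_eq_eT (j := j) (by omega)
  have hL := log_gt_one h3
  have ht := loglog_tangent (j := j) (by linarith) hL
  set L := Real.log (nTW j T W) with hLdef
  have hlog := log_nTW hT hW
  rw [← hLdef] at hlog
  rw [sum_union (disj_TW hW)]
  have e1 : ∑ p ∈ PS j \ T, ell p = SL j - ∑ p ∈ T, ell p := by
    unfold SL
    rw [← Finset.sum_sdiff hT]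
    ring
  rw [e1]
  rw [Finset.sum_sub_distrib, Finset.sum_sub_distrib, ← Finset.sum_div, ← Finset.sum_div] at hcost
  have e2 : (L - j) / (j * Real.log j) = eT (Real.log j) / Real.log j -
      (∑ p ∈ T, Real.log (p : ℝ)) / (j * Real.log j) + (∑ p ∈ W, Real.log (p : ℝ)) / (j * Real.log j) := by
    have h5 : L - j = j * eT (Real.log j) - ∑ p ∈ T, Real.log (p : ℝ) + ∑ p ∈ W, Real.log (p : ℝ) := by
      linarith
    rw [h5, add_div, sub_div]
    congr 2
    field_simp
  rw [e2] at ht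
  have e3 : (2 : ℝ) * (j : ℝ)⁻¹ = 2 / j := by ring
  rw [e3] at hM
  linarith

/-- upper bound for the cost of a removed prime -/
theorem cost_low {j p : ℕ} {h η : ℝ} (hp : p.Prime) (hj : 100 ≤ j) (hpj : p ≤ j) (hη : 0 < η) (hη1 : η ≤ 1 / 4)
    (hΛ : 1 / η ≤ Real.log j) (hd : (j : ℝ) - p + 1 ≤ h) (hh : h ≤ 2 * η * j) :
    ell p - Real.log p / (j * Real.log j) ≤ (1 + 6 * η) * h / (j : ℝ) ^ 2 := by
  have h100 : (100 : ℝ) ≤ j := by exact_mod_cast hj
  have hjp : (0 : ℝ) < j := by linarith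
  have hlj : 2 ≤ Real.log j := (log_big hj).trans (Real.log_le_log (by linarith) (by linarith))
  have hp1 := prime_gt hp
  have hpj' : (p : ℝ) ≤ j := by exact_mod_cast hpj
  have h1 := ell_upper hp1
  set Λ := Real.log j with hΛdef
  have hΛ0 : 0 < Λ := by linarith
  set d : ℝ := j - p with hdd
  have hd0 : 0 ≤ d := by rw [hdd]; linarith
  have hh0 : 0 < h := by linarith
  have hp2 : (1 - 2 * η) * j ≤ (p : ℝ) - 1 := by
    have : (p : ℝ) = j - d := by rw [hdd]; ring
    nlinarith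
  have h12 : 0 < 1 - 2 * η := by linarith
  -- `1/(p-1) - 1/j`
  have e1 : 1 / ((p : ℝ) - 1) - 1 / j ≤ (1 + 4 * η) * h / (j : ℝ) ^ 2 := by
    have hp10 : 0 < (p : ℝ) - 1 := by nlinarith
    have h3 : 1 / ((p : ℝ) - 1) - 1 / j = (d + 1) / (j * (p - 1)) := by
      rw [hdd]
      field_simp
      ring
    rw [h3]
    calc (d + 1) / (j * ((p : ℝ) - 1)) ≤ h / (j * ((1 - 2 * η) * j)) := by gcongr
      _ = (1 / (1 - 2 * η)) * (h / (j : ℝ) ^ 2) := by field_simp
      _ ≤ (1 + 4 * η) * (h / (j : ℝ) ^ 2) := by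
        gcongr
        rw [div_le_iff₀ h12]
        nlinarith
      _ = _ := by ring
  -- the logarithm
  have e2 : 1 / (j : ℝ) - Real.log p / (j * Λ) ≤ 2 * η * h / (j : ℝ) ^ 2 := by
    have h3 := Real.one_sub_inv_le_log_of_pos (show (0 : ℝ) < p / j by positivity)
    rw [Real.log_div (by positivity) (by positivity), inv_div] at h3
    have h4 : (1 : ℝ) - j / p = -(d / p) := by
      rw [hdd]
      field_simp
      ring
    rw [h4] at h3
    have h5 : d / p ≤ 2 * (h / j) := by
      rw [← mul_div_assoc, div_le_div_iff₀ (by positivity) hjp]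
      have h6 : (1 / 2 : ℝ) * j ≤ p := by nlinarith
      nlinarith
    have h7 : 1 / (j : ℝ) - Real.log p / (j * Λ) = (Λ - Real.log p) / (j * Λ) := by field_simp
    rw [h7]
    calc (Λ - Real.log p) / (j * Λ) ≤ (2 * (h / j)) / (j * Λ) := by
          gcongr
          linarith
      _ = 2 * (1 / Λ) * (h / (j : ℝ) ^ 2) := by field_simp
      _ ≤ 2 * η * (h / (j : ℝ) ^ 2) := by
        gcongr
        rw [div_le_iff₀ hΛ0]
        rw [div_le_iff₀ hη] at hΛ
        linarith
      _ = _ := by ring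
  have e3 : (1 + 6 * η) * h / (j : ℝ) ^ 2 = (1 + 4 * η) * h / (j : ℝ) ^ 2 + 2 * η * h / (j : ℝ) ^ 2 := by ring
  rw [e3]
  linarith

/-- upper bound for the cost of an added prime -/
theorem cost_high {j p : ℕ} {h η : ℝ} (hp : p.Prime) (hj : 100 ≤ j) (hpj : j < p) (hη : 0 < η)
    (hΛ : 1 / η ≤ Real.log j) (hd : (p : ℝ) - j ≤ h) :
    Real.log p / (j * Real.log j) - ell p ≤ (1 + 6 * η) * h / (j : ℝ) ^ 2 := by
  have h100 : (100 : ℝ) ≤ j := by exact_mod_cast hj
  have hjp : (0 : ℝ) < j := by linarith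
  have hlj : 2 ≤ Real.log j := (log_big hj).trans (Real.log_le_log (by linarith) (by linarith))
  have hp1 := prime_gt hp
  have hpj' : (j : ℝ) < p := by exact_mod_cast hpj
  have h1 := ell_lower hp1
  set Λ := Real.log j with hΛdef
  have hΛ0 : 0 < Λ := by linarith
  have hh0 : 0 < h := by linarith
  have e1 : 1 / (j : ℝ) - 1 / p ≤ h / (j : ℝ) ^ 2 := by
    have h3 : 1 / (j : ℝ) - 1 / p = (p - j) / (j * p) := by field_simp
    rw [h3, sq]
    gcongr
  have e2 : Real.log p / (j * Λ) - 1 / (j : ℝ) ≤ η * h / (j : ℝ) ^ 2 := by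
    have h3 := Real.log_le_sub_one_of_pos (show (0 : ℝ) < p / j by positivity)
    rw [Real.log_div (by positivity) (by positivity)] at h3
    have h4 : (p : ℝ) / j - 1 = (p - j) / j := by field_simp
    rw [h4] at h3
    have h7 : Real.log p / (j * Λ) - 1 / (j : ℝ) = (Real.log p - Λ) / (j * Λ) := by field_simp
    rw [h7]
    calc (Real.log p - Λ) / (j * Λ) ≤ (h / j) / (j * Λ) := by
          gcongr
          exact h3.trans (by gcongr)
      _ = (1 / Λ) * (h / (j : ℝ) ^ 2) := by field_simp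
      _ ≤ η * (h / (j : ℝ) ^ 2) := by
        gcongr
        rw [div_le_iff₀ hΛ0]
        rw [div_le_iff₀ hη] at hΛ
        linarith
      _ = _ := by ring
  have e3 : (1 + 6 * η) * h / (j : ℝ) ^ 2 = h / (j : ℝ) ^ 2 + η * h / (j : ℝ) ^ 2 + 5 * η * h / (j : ℝ) ^ 2 := by ring
  have e4 : 0 ≤ 5 * η * h / (j : ℝ) ^ 2 := by positivity
  rw [e3]
  linarith

end Q204.NA
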