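import Pool.Agent.Q204.NA.Lo1

set_option autoImplicit false

/-! # The primes next to the level -/

open Finset
open Q239.RN

namespace Q204.NA

theorem inf_primes : (Set.ofPred Nat.Prime).Infinite := Nat.infinite_setOfPred_prime

theorem count_PS (j : ℕ) : Nat.count Nat.Prime (j + 1) = (PS j).card := by
  rw [Nat.count_eq_card_filter_range]
  congr 1
  ext p
  rw [mem_PS, mem_filter, mem_range]
  constructor
  · rintro ⟨h1, h2⟩; exact ⟨h2, by omega⟩
  · rintro ⟨h1, h2⟩; exact ⟨by omega, h1⟩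

/-- the `k`-th prime above `j` -/
noncomputable def up (j k : ℕ) : ℕ := Nat.nth Nat.Prime ((PS j).card + (k - 1))

/-- the `k`-th prime below `j + 1` -/
noncomputable def dn (j k : ℕ) : ℕ := Nat.nth Nat.Prime ((PS j).card - k)

theorem up_prime (j k : ℕ) : (up j k).Prime := Nat.nth_mem_of_infinite inf_primes _

theorem dn_prime (j k : ℕ) : (dn j k).Prime := Nat.nth_mem_of_infinite inf_primes _

theorem up_gt (j k : ℕ) : j < up j k := by
  have h : j + 1 ≤ up j k := by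
    unfold up
    rw [← Nat.count_le_iff_le_nth inf_primes, count_PS]
    omega
  omega

theorem up_le {j k b : ℕ} (hk : 1 ≤ k) (h : (PS j).card + k ≤ (PS b).card) : up j k ≤ b := by
  have h : up j k < b + 1 := by
    unfold up
    rw [← Nat.lt_nth_iff_count_lt inf_primes, count_PS]
    omega
  omega

theorem dn_le {j k : ℕ} (hk : 1 ≤ k) (h : k ≤ (PS j).card) : dn j k ≤ j := by
  have h : dn j k < j + 1 := by
    unfold dn
    rw [← Nat.lt_nth_iff_count_lt inf_primes, count_PS]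
    omega
  omega

theorem dn_gt {j k a : ℕ} (h : (PS a).card + k ≤ (PS j).card) : a < dn j k := by
  have h : a + 1 ≤ dn j k := by
    unfold dn
    rw [← Nat.count_le_iff_le_nth inf_primes, count_PS]
    omega
  omega

theorem up_inj {j k l : ℕ} (hk : 1 ≤ k) (hl : 1 ≤ l) (h : up j k = up j l) : k = l := by
  have := Nat.nth_injective inf_primes h
  omega

theorem dn_inj {j k l : ℕ} (hk : k ≤ (PS j).card) (hl : l ≤ (PS j).card) (h : dn j k = dn j l) : k = l := by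
  have := Nat.nth_injective inf_primes h
  omega

theorem theta_diff_ge {C θ' : ℝ} (hC : 0 < C) (h0 : 0 ≤ θ')
    (h : ∀ v : ℝ, 0 ≤ v → |eT v| ≤ C * Real.exp ((θ' - 1) * v))
    {a b : ℕ} (ha : 1 ≤ a) (hab : a ≤ b) :
    (b : ℝ) - a - 2 * C * (b : ℝ) ^ θ' ≤ Chebyshev.theta (b : ℝ) - Chebyshev.theta (a : ℝ) := by
  have h1 := (abs_le.1 (theta_of_eT h (ha.trans hab))).1
  have h2 := (abs_le.1 (theta_of_eT h ha)).2
  have h3 : (a : ℝ) ^ θ' ≤ (b : ℝ) ^ θ' := by gcongr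
  nlinarith

theorem card_ge_of_theta {a b k : ℕ} (hab : a ≤ b) (hb : 2 ≤ b)
    (h : (k : ℝ) * Real.log b ≤ Chebyshev.theta (b : ℝ) - Chebyshev.theta (a : ℝ)) :
    (PS a).card + k ≤ (PS b).card := by
  have h1 := card_theta hab
  have hl : 0 < Real.log b := Real.log_pos (by exact_mod_cast (by omega : 1 < b))
  have h2 : (k : ℝ) ≤ (PS b \ PS a).card := by
    by_contra h3
    push Not at h3
    have := mul_lt_mul_of_pos_right h3 hl
    linarith
  have h4 : k ≤ (PS b \ PS a).card := by exact_mod_cast h2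
  have h5 := Finset.card_sdiff_add_card_eq_card (PS_mono hab)
  omega

/-- the radius -/
noncomputable def hk (C θ' η : ℝ) (j k : ℕ) : ℝ := (1 + η) * k * Real.log j + (4 * C * (j : ℝ) ^ θ' + 2)

theorem up_near {C θ' η : ℝ} (hC : 0 < C) (h0 : 0 ≤ θ') (h1' : θ' ≤ 1)
    (h : ∀ v : ℝ, 0 ≤ v → |eT v| ≤ C * Real.exp ((θ' - 1) * v)) (hη : 0 < η)
    {j k : ℕ} (hj : 100 ≤ j) (hk1 : 1 ≤ k) (hΛ : 1 / η ≤ Real.log j) (hkj : hk C θ' η j k ≤ j) :
    (up j k : ℝ) - j ≤ hk C θ' η j k := by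
  have h100 : (100 : ℝ) ≤ j := by exact_mod_cast hj
  have hjp : (0 : ℝ) < j := by linarith
  have hlj : 2 ≤ Real.log j := (log_big hj).trans (Real.log_le_log (by linarith) (by linarith))
  have hk0 : 0 ≤ hk C θ' η j k := by unfold hk; positivity
  set H := hk C θ' η j k with hH
  set b : ℕ := j + ⌊H⌋₊ with hb
  have hfl : (⌊H⌋₊ : ℝ) ≤ H := Nat.floor_le hk0
  have hfl2 : H < ⌊H⌋₊ + 1 := Nat.lt_floor_add_one _
  have hbR : (b : ℝ) = j + ⌊H⌋₊ := by rw [hb]; push_cast; ring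
  have hb2 : (b : ℝ) ≤ 2 * j := by rw [hbR]; linarith
  have hjb : j ≤ b := by omega
  have hlogb : Real.log b ≤ (1 + η) * Real.log j := by
    have h3 : Real.log b ≤ Real.log (2 * j) := Real.log_le_log (by linarith [hbR, (Nat.cast_nonneg ⌊H⌋₊ : (0:ℝ) ≤ _)]) hb2
    rw [Real.log_mul (by norm_num) hjp.ne'] at h3
    have h4 := Real.log_two_lt_d9
    rw [div_le_iff₀ hη] at hΛ
    linarith
  have hpow : (b : ℝ) ^ θ' ≤ 2 * (j : ℝ) ^ θ' := by
    calc (b : ℝ) ^ θ' ≤ (2 * (j : ℝ)) ^ θ' := by gcongr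
      _ = 2 ^ θ' * (j : ℝ) ^ θ' := Real.mul_rpow (by norm_num) hjp.le
      _ ≤ 2 * (j : ℝ) ^ θ' := by
        gcongr
        calc (2 : ℝ) ^ θ' ≤ 2 ^ (1 : ℝ) := Real.rpow_le_rpow_of_exponent_le (by norm_num) h1'
          _ = 2 := Real.rpow_one 2
  have h5 := theta_diff_ge hC h0 h (by omega : 1 ≤ j) hjb
  have h6 : (k : ℝ) * Real.log b ≤ Chebyshev.theta (b : ℝ) - Chebyshev.theta (j : ℝ) := by
    refine le_trans ?_ h5
    have h7 : (k : ℝ) * Real.log b ≤ (1 + η) * k * Real.log j := by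
      calc (k : ℝ) * Real.log b ≤ k * ((1 + η) * Real.log j) := by gcongr
        _ = _ := by ring
    have h8 : H = (1 + η) * k * Real.log j + (4 * C * (j : ℝ) ^ θ' + 2) := hH
    have h9 : 2 * C * (b : ℝ) ^ θ' ≤ 2 * C * (2 * (j : ℝ) ^ θ') := by gcongr
    linarith
  have h10 := up_le hk1 (card_ge_of_theta hjb (by omega) h6)
  have h11 : (up j k : ℝ) ≤ b := by exact_mod_cast h10
  rw [hbR] at h11
  linarith

theorem dn_near {C θ' η : ℝ} (hC : 0 < C) (h0 : 0 ≤ θ')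
    (h : ∀ v : ℝ, 0 ≤ v → |eT v| ≤ C * Real.exp ((θ' - 1) * v)) (hη : 0 < η)
    {j k : ℕ} (hj : 100 ≤ j) (hkj : hk C θ' η j k ≤ j / 2) :
    (PS (j - ⌊hk C θ' η j k⌋₊)).card + k ≤ (PS j).card ∧
      (j : ℝ) - dn j k + 1 ≤ hk C θ' η j k := by
  have h100 : (100 : ℝ) ≤ j := by exact_mod_cast hj
  have hjp : (0 : ℝ) < j := by linarith
  have hlj : 2 ≤ Real.log j := (log_big hj).trans (Real.log_le_log (by linarith) (by linarith))
  have hk0 : 0 ≤ hk C θ' η j k := by unfold hk; positivity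
  set H := hk C θ' η j k with hH
  have hfl : (⌊H⌋₊ : ℝ) ≤ H := Nat.floor_le hk0
  have hfl2 : H < ⌊H⌋₊ + 1 := Nat.lt_floor_add_one _
  have hflj : ⌊H⌋₊ + 1 ≤ j := by
    have : (⌊H⌋₊ : ℝ) + 1 ≤ j := by linarith
    exact_mod_cast this
  set a : ℕ := j - ⌊H⌋₊ with ha
  have haR : (a : ℝ) = j - ⌊H⌋₊ := by
    rw [ha, Nat.cast_sub (by omega)]
  have haj : a ≤ j := Nat.sub_le _ _
  have h5 := theta_diff_ge hC h0 h (by omega : 1 ≤ a) haj
  have h6 : (k : ℝ) * Real.log j ≤ Chebyshev.theta (j : ℝ) - Chebyshev.theta (a : ℝ) := by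
    refine le_trans ?_ h5
    have h7 : (k : ℝ) * Real.log j ≤ (1 + η) * k * Real.log j := by
      have : 0 ≤ η * (k * Real.log j) := by positivity
      nlinarith
    have h8 : H = (1 + η) * k * Real.log j + (4 * C * (j : ℝ) ^ θ' + 2) := hH
    have h9 : 0 ≤ C * (j : ℝ) ^ θ' := by positivity
    rw [haR]
    linarith
  have h10 := card_ge_of_theta haj (by omega) h6
  refine ⟨h10, ?_⟩
  have h11 := dn_gt h10
  have h12 : (a : ℝ) + 1 ≤ dn j k := by exact_mod_cast h11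
  rw [haR] at h12
  linarith

end Q204.NA
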