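import Pool.Agent.Q204.NA.Up3

set_option autoImplicit false

/-! # The sharp upper bound on one level -/

open Finset Filter Topology
open Q239.RN

namespace Q204.NA

theorem ev_log {s : ℝ} (hs : 0 < s) (K : ℝ) (m : ℕ) :
    ∀ᶠ j : ℕ in atTop, K * Real.log j ^ m ≤ (j : ℝ) ^ s := by
  have h1 := isLittleO_log_rpow_rpow_atTop (m : ℝ) hs
  have h2 := (h1.const_mul_left |K|).comp_tendsto tendsto_natCast_atTop_atTop
  have h3 := h2.def (c := 1) one_pos
  filter_upwards [h3, eventually_ge_atTop 3] with j hj hj3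
  simp only [Function.comp, one_mul, Real.rpow_natCast] at hj
  have hl : 0 ≤ Real.log j := Real.log_natCast_nonneg j
  have hp : (0 : ℝ) ≤ (j : ℝ) ^ s := by positivity
  rw [Real.norm_of_nonneg (by positivity), Real.norm_of_nonneg hp] at hj
  refine le_trans ?_ hj
  gcongr
  exact le_abs_self K

set_option maxHeartbeats 1000000 in
theorem lev_upper {C θ' κ δ ε : ℝ} (hC : 0 < C) (h0 : 1 / 2 ≤ θ')
    (h : ∀ v : ℝ, 0 ≤ v → |eT v| ≤ C * Real.exp ((θ' - 1) * v)) (hκ : θ' < κ) (hκ1 : κ < 1)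
    (hδ : 0 < δ) (hε : 0 < ε) :
    ∀ᶠ j : ℕ in atTop, ∀ B : ℝ, (j : ℝ) ^ (2 * κ - 2) ≤ B → B ≤ (j : ℝ) ^ (-δ) →
      kT (Real.log j) ≤ B → ((Lev j).card : ℝ) ≤
        Real.exp ((1 + ε) * (Real.pi * Real.sqrt (2 / 3) * (j * Real.sqrt (B / Real.log j)))) := by
  classical
  set η : ℝ := min (1 / 4) (ε / 4) with hηdef
  have hη : 0 < η := lt_min (by norm_num) (by positivity)
  have hη4 : η ≤ 1 / 4 := min_le_left _ _
  have hηε : 4 * η ≤ ε := by have := min_le_right (1 / 4 : ℝ) (ε / 4); linarith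
  filter_upwards [eventually_ge_atTop 100, ev_log hδ (64 / η ^ 2) 3,
    ev_log (show (0 : ℝ) < 2 * κ - 1 by linarith) (1 / η) 0,
    ev_log (show (0 : ℝ) < κ - θ' by linarith) ((5 + 6 * C) * (2 / ε)) 1,
    ev_log (show (0 : ℝ) < 1 by norm_num) (2 / η) 0] with j hj f1 f2 f3 f4 B hB1 hB2 hkT
  have h100 : (100 : ℝ) ≤ j := by exact_mod_cast hj
  have hjp : (0 : ℝ) < j := by linarith
  have hlj : 2 ≤ Real.log j := (log_big hj).trans (Real.log_le_log (by linarith) (by linarith))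
  set Λ := Real.log j with hΛ
  have hΛ0 : 0 < Λ := by linarith
  have hB0 : 0 < B := lt_of_lt_of_le (by positivity) hB1
  rw [pow_zero, mul_one] at f2 f4
  rw [pow_one] at f3
  rw [Real.rpow_one] at f4
  set a : ℝ := (2 + η) / ((1 - η) * Λ) with ha
  have h1η : 0 < 1 - η := by linarith
  have ha0 : 0 < a := by rw [ha]; positivity
  set E : ℝ := 2 + 6 * C * (j : ℝ) ^ θ' with hE
  have hE0 : 0 ≤ E := by rw [hE]; positivity
  set r : ℝ := Real.pi * (j * Real.sqrt (a * (1 + η) * B / 12)) with hr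
  have hpi := Real.pi_pos
  have hr0 : 0 < r := by
    rw [hr]
    have : 0 < Real.sqrt (a * (1 + η) * B / 12) := Real.sqrt_pos.2 (by positivity)
    positivity
  have hr2 : r ^ 2 = Real.pi ^ 2 * (j : ℝ) ^ 2 * (a * (1 + η) * B / 12) := by
    rw [hr, mul_pow, mul_pow, Real.sq_sqrt (by positivity)]
    ring
  set b : ℝ := r / ((j : ℝ) ^ 2 * (1 + η) * B) with hb
  have hb0 : 0 < b := by rw [hb]; positivity
  -- lower bound for `b j`
  have hbj2 : (8 * Λ / η) ^ 2 ≤ (b * j) ^ 2 := by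
    have e1 : (b * j) ^ 2 = Real.pi ^ 2 * a / (12 * (1 + η) * B) := by
      rw [mul_pow, hb, div_pow, hr2]
      field_simp
    have e2 : 1 / (Λ * B) ≤ Real.pi ^ 2 * a / (12 * (1 + η) * B) := by
      have h3 : (9 : ℝ) ≤ Real.pi ^ 2 := by
        have h3' := Real.pi_gt_three
        calc (9 : ℝ) = 3 ^ 2 := by norm_num
          _ ≤ Real.pi ^ 2 := pow_le_pow_left₀ (by norm_num) h3'.le 2
      have h4 : (2 : ℝ) / Λ ≤ a := by
        rw [ha, div_le_div_iff₀ hΛ0 (by positivity)]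
        have h4' : (2 : ℝ) * (1 - η) ≤ 2 + η := by linarith
        calc 2 * ((1 - η) * Λ) = (2 * (1 - η)) * Λ := by ring
          _ ≤ (2 + η) * Λ := by gcongr
      have h5 : 12 * (1 + η) ≤ 15 := by linarith
      calc 1 / (Λ * B) ≤ 9 * (2 / Λ) / (15 * B) := by
            rw [show 9 * (2 / Λ) / (15 * B) = (6 / 5) * (1 / (Λ * B)) by field_simp; norm_num]
            have : 0 < 1 / (Λ * B) := by positivity
            linarith
        _ ≤ Real.pi ^ 2 * a / (12 * (1 + η) * B) := by gcongr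
    have e3 : (j : ℝ) ^ δ / Λ ≤ 1 / (Λ * B) := by
      have h3 : (j : ℝ) ^ δ * B ≤ 1 := by
        calc (j : ℝ) ^ δ * B ≤ (j : ℝ) ^ δ * (j : ℝ) ^ (-δ) := by gcongr
          _ = 1 := by rw [← Real.rpow_add hjp]; simp
      rw [div_le_div_iff₀ hΛ0 (by positivity)]
      calc (j : ℝ) ^ δ * (Λ * B) = Λ * ((j : ℝ) ^ δ * B) := by ring
        _ ≤ Λ * 1 := by gcongr
        _ = 1 * Λ := by ring
    have e4 : (8 * Λ / η) ^ 2 ≤ (j : ℝ) ^ δ / Λ := by
      rw [le_div_iff₀ hΛ0]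
      calc (8 * Λ / η) ^ 2 * Λ = 64 / η ^ 2 * Λ ^ 3 := by field_simp; ring
        _ ≤ _ := f1
    rw [e1]
    exact e4.trans (e3.trans e2)
  have hbj : 8 * Λ / η ≤ b * j := by
    have h3 := Real.sqrt_le_sqrt hbj2
    rwa [Real.sqrt_sq (by positivity), Real.sqrt_sq (by positivity)] at h3
  have hη1 : 8 * Λ ≤ b * j * η := by
    rwa [div_le_iff₀ hη] at hbj
  have hbj4 : 4 * Λ ≤ b * j := by
    have h3 : b * j * η ≤ b * j * (1 / 4) := by gcongr
    linarith
  have hlog2 : Real.log (2 * j) ≤ 2 * Λ := by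
    rw [Real.log_mul (by norm_num) hjp.ne']
    have := Real.log_two_lt_d9
    linarith
  have hfar := far_bound hη hj (by rw [div_le_iff₀ hη] at f4; linarith) hb0 (by linarith)
  have hnear := Pool.Agent.Q19.NA.log_prod_le (near η j) (xx j) ha0.le hE0 hb0
    (fun p hp => by
      rw [near, mem_filter, mem_PS] at hp
      exact xx_nonneg hp.1.1)
    (fun t ht => near_count hC (by linarith) (by linarith) h hη hη4 hj t ht)
  have hrank := rankin hj hb0 hbj4
  -- the exponent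
  have hsum : ∑ p ∈ PS (2 * j), Real.log (1 + Real.exp (-(b * xx j p))) ≤
      a * (Real.pi ^ 2 / 12) / b + E * Real.log 2 + 1 := by
    have hsub : near η j ⊆ PS (2 * j) := Finset.filter_subset _ _
    rw [← Finset.sum_sdiff hsub]
    linarith
  have hmain1 : b * ((j : ℝ) ^ 2 * (kT Λ + 1 / j)) ≤ r := by
    have h3 : kT Λ + 1 / j ≤ (1 + η) * B := by
      have h4 : 1 / (j : ℝ) ≤ η * B := by
        have h5 : (j : ℝ) ^ (2 * κ - 2) = (j : ℝ) ^ (2 * κ - 1) / j := by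
          rw [show 2 * κ - 2 = (2 * κ - 1) - 1 by ring, Real.rpow_sub hjp, Real.rpow_one]
        calc 1 / (j : ℝ) = η * (1 / η / j) := by field_simp
          _ ≤ η * ((j : ℝ) ^ (2 * κ - 1) / j) := by gcongr
          _ = η * (j : ℝ) ^ (2 * κ - 2) := by rw [h5]
          _ ≤ η * B := by gcongr
      linarith
    calc b * ((j : ℝ) ^ 2 * (kT Λ + 1 / j)) ≤ b * ((j : ℝ) ^ 2 * ((1 + η) * B)) := by gcongr
      _ = r := by rw [hb]; field_simp
  have hmain2 : a * (Real.pi ^ 2 / 12) / b = r := by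
    have h3 : a * (Real.pi ^ 2 / 12) / b = Real.pi ^ 2 * (j : ℝ) ^ 2 * (a * (1 + η) * B / 12) / r := by
      rw [hb]
      field_simp
    rw [h3, ← hr2]
    field_simp
  set V : ℝ := Real.pi * Real.sqrt (2 / 3) * (j * Real.sqrt (B / Λ)) with hV
  have hrV : 2 * r ≤ (1 + ε / 2) * V := by
    have e1 : 2 * r = Real.pi * (j * Real.sqrt (a * (1 + η) * B / 3)) := by
      rw [hr]
      have : Real.sqrt (a * (1 + η) * B / 3) = 2 * Real.sqrt (a * (1 + η) * B / 12) := by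
        rw [show a * (1 + η) * B / 3 = 2 ^ 2 * (a * (1 + η) * B / 12) by ring,
          Real.sqrt_mul (by norm_num), Real.sqrt_sq (by norm_num)]
      rw [this]
      ring
    have e2 : a * (1 + η) * B / 3 ≤ (1 + ε / 2) ^ 2 * ((2 / 3) * (B / Λ)) := by
      have h3 : (2 + η) * (1 + η) ≤ 2 * (1 + ε / 2) ^ 2 * (1 - η) := by
        have h4 : 1 + 4 * η ≤ (1 + ε / 2) ^ 2 := by nlinarith [sq_nonneg ε]
        have h5 : (2 + η) * (1 + η) ≤ 2 * (1 + 4 * η) * (1 - η) := by nlinarith [mul_nonneg hη.le (sub_nonneg.2 hη4)]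
        refine h5.trans ?_
        gcongr
      rw [ha]
      have h6 : (2 + η) / ((1 - η) * Λ) * (1 + η) * B / 3 = ((2 + η) * (1 + η)) / (1 - η) * (B / (3 * Λ)) := by
        field_simp
      have h7 : (1 + ε / 2) ^ 2 * (2 / 3 * (B / Λ)) = (2 * (1 + ε / 2) ^ 2) * (B / (3 * Λ)) := by
        field_simp
      rw [h6, h7]
      gcongr
      rw [div_le_iff₀ h1η]
      exact h3
    have e3 : Real.sqrt (a * (1 + η) * B / 3) ≤ (1 + ε / 2) * (Real.sqrt (2 / 3) * Real.sqrt (B / Λ)) := by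
      refine (Real.sqrt_le_sqrt e2).trans (le_of_eq ?_)
      rw [Real.sqrt_mul (by positivity), Real.sqrt_sq (by positivity), Real.sqrt_mul (by norm_num)]
    rw [e1, hV]
    calc Real.pi * (j * Real.sqrt (a * (1 + η) * B / 3)) ≤
        Real.pi * (j * ((1 + ε / 2) * (Real.sqrt (2 / 3) * Real.sqrt (B / Λ)))) := by gcongr
      _ = _ := by ring
  have hsmall : Real.log 4 + (E * Real.log 2 + 1) ≤ ε / 2 * V := by
    have e1 : (j : ℝ) ^ κ / Λ ≤ V := by
      have h3 : (j : ℝ) ^ κ / Λ ≤ j * Real.sqrt (B / Λ) := by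
        have h4 : Real.sqrt ((j : ℝ) ^ (2 * κ - 2) / Λ ^ 2) ≤ Real.sqrt (B / Λ) := by
          apply Real.sqrt_le_sqrt
          have h5 : Λ ≤ Λ ^ 2 := by nlinarith
          gcongr
        have h6 : Real.sqrt ((j : ℝ) ^ (2 * κ - 2) / Λ ^ 2) = (j : ℝ) ^ (κ - 1) / Λ := by
          rw [show (j : ℝ) ^ (2 * κ - 2) = ((j : ℝ) ^ (κ - 1)) ^ 2 by
            rw [← Real.rpow_natCast, ← Real.rpow_mul hjp.le]; congr 1; push_cast; ring]
          rw [← div_pow, Real.sqrt_sq (by positivity)]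
        rw [h6] at h4
        calc (j : ℝ) ^ κ / Λ = j * ((j : ℝ) ^ (κ - 1) / Λ) := by
              rw [Real.rpow_sub hjp, Real.rpow_one]; field_simp
          _ ≤ _ := by gcongr
      have h7 : 1 ≤ Real.pi * Real.sqrt (2 / 3) := by
        have h8 : (1 : ℝ) / 2 ≤ Real.sqrt (2 / 3) := by
          apply Real.le_sqrt_of_sq_le
          norm_num
        have h9 := Real.pi_gt_three
        calc (1 : ℝ) ≤ 3 * (1 / 2) := by norm_num
          _ ≤ _ := by gcongr
      rw [hV]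
      calc (j : ℝ) ^ κ / Λ ≤ j * Real.sqrt (B / Λ) := h3
        _ = 1 * (j * Real.sqrt (B / Λ)) := (one_mul _).symm
        _ ≤ _ := by gcongr
    have e2 : Real.log 4 ≤ 2 := by
      have : Real.log 4 = 2 * Real.log 2 := by
        rw [show (4 : ℝ) = 2 ^ 2 by norm_num, Real.log_pow]; norm_num
      have := Real.log_two_lt_d9
      linarith
    have e3 : E * Real.log 2 ≤ E := by
      have h9 : Real.log 2 ≤ 1 := by
        have := Real.log_two_lt_d9
        linarith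
      calc E * Real.log 2 ≤ E * 1 := by gcongr
        _ = E := mul_one E
    have hone : 1 ≤ (j : ℝ) ^ θ' := Real.one_le_rpow (by linarith) (by linarith)
    have e4 : Real.log 4 + (E * Real.log 2 + 1) ≤ (5 + 6 * C) * (j : ℝ) ^ θ' := by
      have h9 : E = 2 + 6 * C * (j : ℝ) ^ θ' := hE
      have h10 : (5 + 6 * C) * (j : ℝ) ^ θ' = 5 * (j : ℝ) ^ θ' + 6 * C * (j : ℝ) ^ θ' := by ring
      rw [h10]
      linarith
    have e5 : (5 + 6 * C) * (j : ℝ) ^ θ' ≤ ε / 2 * ((j : ℝ) ^ κ / Λ) := by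
      have h8 : (j : ℝ) ^ κ = (j : ℝ) ^ (κ - θ') * (j : ℝ) ^ θ' := by
        rw [← Real.rpow_add hjp]; congr 1; ring
      rw [h8]
      calc (5 + 6 * C) * (j : ℝ) ^ θ' = ε / 2 * (((5 + 6 * C) * (2 / ε) * Λ) * (j : ℝ) ^ θ' / Λ) := by
            field_simp
        _ ≤ _ := by gcongr
    refine e4.trans (e5.trans ?_)
    gcongr
  refine hrank.trans ?_
  have h4 : (4 : ℝ) = Real.exp (Real.log 4) := (Real.exp_log (by norm_num)).symm
  rw [h4, ← Real.exp_add]
  apply Real.exp_le_exp.2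
  have : (1 + ε) * V = (1 + ε / 2) * V + ε / 2 * V := by ring
  rw [this]
  rw [hmain2] at hsum
  linarith

end Q204.NA
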