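import Pool.Agent.Q204.NA.Lo3

set_option autoImplicit false

/-! # The sharp lower bound near one level -/

open Finset Filter Topology
open Q239.RN

namespace Q204.NA

set_option maxHeartbeats 1000000 in
theorem lower_cnt (hD : SDist) {C θ' κ δ ε : ℝ} (hC : 0 < C) (h0 : 1 / 2 ≤ θ')
    (h : ∀ v : ℝ, 0 ≤ v → |eT v| ≤ C * Real.exp ((θ' - 1) * v)) (hκ : θ' < κ) (hκ1 : κ < 1)
    (hδ : 0 < δ) (hε : 0 < ε) (hε1 : ε ≤ 1 / 2) :
    ∀ᶠ j : ℕ in atTop, ∀ B : ℝ, (j : ℝ) ^ (2 * κ - 2) ≤ B → B ≤ (j : ℝ) ^ (-δ) →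
      B ≤ kT (Real.log j) →
        Real.exp ((1 - ε) * (Real.pi * Real.sqrt (2 / 3) * (j * Real.sqrt (B / Real.log j)))) ≤
          cnt NicEx (Real.exp (j + j * Real.sqrt B * Real.log j ^ 2)) := by
  classical
  obtain ⟨C0, N0, hC0, hN0, hdist⟩ := hD (ε / 4) (by positivity)
  set η : ℝ := ε / 24 with hηdef
  have hη : 0 < η := by rw [hηdef]; positivity
  have hη4 : η ≤ 1 / 4 := by rw [hηdef]; linarith
  set ν : ℝ := 1 - 12 * η with hν
  have hν1 : ν = 1 - ε / 2 := by rw [hν, hηdef]; ring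
  have hν0 : 3 / 4 ≤ ν := by rw [hν1]; linarith
  have hνle : ν ≤ 1 := by rw [hν1]; linarith
  filter_upwards [eventually_ge_atTop 100, ev_log (show (0 : ℝ) < 2 * κ by linarith) (2 * N0 / ν) 1,
    (Real.tendsto_log_atTop.comp tendsto_natCast_atTop_atTop).eventually_ge_atTop (1 / η + 4 * C0 + 4),
    ev_log (show (0 : ℝ) < δ / 2 by positivity) ((1 + η) * C0 / η) 1,
    ev_log (show (0 : ℝ) < 1 - θ' by linarith) ((4 * C + 2) / η) 0,
    ev_log (show (0 : ℝ) < κ - θ' by linarith) (5 * C0 * (4 * C + 2) / η + C) 0,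
    ev_log (show (0 : ℝ) < 2 * κ - 1 by linarith) (2 / η) 0] with j hj f1 f2 f3 f4 f5 f6 B hB1 hB2 hkT
  have h100 : (100 : ℝ) ≤ j := by exact_mod_cast hj
  have hjp : (0 : ℝ) < j := by linarith
  have hlj : 2 ≤ Real.log j := (log_big hj).trans (Real.log_le_log (by linarith) (by linarith))
  simp only [Function.comp] at f2
  rw [pow_one] at f1 f3
  rw [pow_zero, mul_one] at f4 f5 f6
  set Λ := Real.log j with hΛdef
  have hΛ0 : 0 < Λ := by linarith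
  have hΛ : 1 / η ≤ Λ := by linarith
  have hB0 : 0 < B := lt_of_lt_of_le (by positivity) hB1
  set sB := Real.sqrt B with hsB
  have hsB0 : 0 < sB := Real.sqrt_pos.2 hB0
  have hsBsq : sB ^ 2 = B := Real.sq_sqrt hB0.le
  have hsB1 : (j : ℝ) ^ (κ - 1) ≤ sB := by
    rw [hsB]
    apply Real.le_sqrt_of_sq_le
    refine le_trans (le_of_eq ?_) hB1
    rw [← Real.rpow_natCast, ← Real.rpow_mul hjp.le]
    congr 1
    push_cast
    ring
  have hsB2 : sB ≤ (j : ℝ) ^ (-(δ / 2)) := by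
    rw [hsB]
    apply Real.sqrt_le_iff.2
    refine ⟨by positivity, hB2.trans (le_of_eq ?_)⟩
    rw [← Real.rpow_natCast, ← Real.rpow_mul hjp.le]
    congr 1
    push_cast
    ring
  set n : ℝ := ν * ((j : ℝ) ^ 2 * B / (2 * Λ)) with hn
  have hn0 : 0 < n := by rw [hn]; positivity
  have hnN : N0 ≤ n := by
    have e1 : (j : ℝ) ^ (2 * κ) ≤ (j : ℝ) ^ 2 * B := by
      calc (j : ℝ) ^ (2 * κ) = (j : ℝ) ^ 2 * (j : ℝ) ^ (2 * κ - 2) := by
            rw [← Real.rpow_natCast, ← Real.rpow_add hjp]; congr 1; push_cast; ring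
        _ ≤ _ := by gcongr
    rw [hn, ← mul_div_assoc, le_div_iff₀ (by positivity)]
    have e2 : 2 * N0 / ν * Λ ≤ (j : ℝ) ^ 2 * B := f1.trans e1
    rw [div_mul_eq_mul_div, div_le_iff₀ (by linarith)] at e2
    linarith
  set K : ℕ := ⌊C0 * Real.sqrt n⌋₊ with hK
  have hKle : (K : ℝ) ≤ C0 * Real.sqrt n := Nat.floor_le (by positivity)
  have hsqn : Real.sqrt n ≤ j * sB := by
    apply Real.sqrt_le_iff.2
    refine ⟨by positivity, ?_⟩
    rw [mul_pow, hsBsq, hn]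
    calc ν * ((j : ℝ) ^ 2 * B / (2 * Λ)) ≤ 1 * ((j : ℝ) ^ 2 * B / 1) := by
          gcongr
          linarith
      _ = _ := by ring
  have hKj : (K : ℝ) ≤ C0 * (j * sB) := hKle.trans (by gcongr)
  have hjδ : (j : ℝ) * (j : ℝ) ^ (-(δ / 2)) * (j : ℝ) ^ (δ / 2) = j := by
    rw [mul_assoc, ← Real.rpow_add hjp]; simp
  have hKΛ : (1 + η) * K * Λ ≤ η * j := by
    calc (1 + η) * K * Λ ≤ (1 + η) * (C0 * (j * (j : ℝ) ^ (-(δ / 2)))) * Λ := by
          gcongr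
          exact hKj.trans (by gcongr)
      _ = η * (((1 + η) * C0 / η * Λ) * (j * (j : ℝ) ^ (-(δ / 2)))) := by field_simp
      _ ≤ η * ((j : ℝ) ^ (δ / 2) * (j * (j : ℝ) ^ (-(δ / 2)))) := by gcongr
      _ = η * (j * (j : ℝ) ^ (-(δ / 2)) * (j : ℝ) ^ (δ / 2)) := by ring
      _ = η * j := by rw [hjδ]
  have hjθ : (4 * C + 2) * (j : ℝ) ^ θ' ≤ η * j := by
    calc (4 * C + 2) * (j : ℝ) ^ θ' = η * ((4 * C + 2) / η * (j : ℝ) ^ θ') := by field_simp
      _ ≤ η * ((j : ℝ) ^ (1 - θ') * (j : ℝ) ^ θ') := by gcongr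
      _ = η * j := by rw [← Real.rpow_add hjp]; simp
  have hone : 1 ≤ (j : ℝ) ^ θ' := Real.one_le_rpow (by linarith) (by linarith)
  have hE : 4 * C * (j : ℝ) ^ θ' + 2 ≤ (4 * C + 2) * (j : ℝ) ^ θ' := by
    have : (4 * C + 2) * (j : ℝ) ^ θ' = 4 * C * (j : ℝ) ^ θ' + 2 * (j : ℝ) ^ θ' := by ring
    rw [this]
    linarith
  have hkle : hk C θ' η j K ≤ 2 * η * j := by
    unfold hk
    rw [← hΛdef]
    linarith
  have hB2j : 2 / (j : ℝ) ≤ η * B := by
    have h5 : (j : ℝ) ^ (2 * κ - 2) = (j : ℝ) ^ (2 * κ - 1) / j := by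
      rw [show 2 * κ - 2 = (2 * κ - 1) - 1 by ring, Real.rpow_sub hjp, Real.rpow_one]
    calc 2 / (j : ℝ) = η * (2 / η / j) := by field_simp
      _ ≤ η * ((j : ℝ) ^ (2 * κ - 1) / j) := by gcongr
      _ = η * (j : ℝ) ^ (2 * κ - 2) := by rw [h5]
      _ ≤ η * B := by gcongr
  have hθκ : (j : ℝ) ^ (κ - θ') * (j : ℝ) ^ θ' = j * (j : ℝ) ^ (κ - 1) := by
    rw [← Real.rpow_add hjp]
    conv_rhs => rw [← Real.rpow_one_add' hjp.le (by linarith)]
    congr 1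
    ring
  have hnoise : K * (4 * C * (j : ℝ) ^ θ' + 2) ≤ η * B * (j : ℝ) ^ 2 / 5 := by
    have e1 : 5 * C0 * (4 * C + 2) / η * (j : ℝ) ^ θ' ≤ j * (j : ℝ) ^ (κ - 1) := by
      rw [← hθκ]
      gcongr
      linarith
    calc K * (4 * C * (j : ℝ) ^ θ' + 2) ≤ (C0 * (j * sB)) * ((4 * C + 2) * (j : ℝ) ^ θ') := by gcongr
      _ = (η / 5) * (j * sB) * (5 * C0 * (4 * C + 2) / η * (j : ℝ) ^ θ') := by field_simp
      _ ≤ (η / 5) * (j * sB) * (j * (j : ℝ) ^ (κ - 1)) := by gcongr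
      _ ≤ (η / 5) * (j * sB) * (j * sB) := by gcongr
      _ = η * sB ^ 2 * (j : ℝ) ^ 2 / 5 := by ring
      _ = _ := by rw [hsBsq]
  have hcost : (1 + 6 * η) / (j : ℝ) ^ 2 * (2 * ((1 + η) * Real.log j * n + K * (4 * C * (j : ℝ) ^ θ' + 2))) <
      kT (Real.log j) - 2 / j := by
    rw [← hΛdef]
    have e1 : (1 + η) * Λ * n = (1 + η) * ν * ((j : ℝ) ^ 2 * B) / 2 := by
      rw [hn]
      field_simp
    have e2 : (1 + 6 * η) / (j : ℝ) ^ 2 * (2 * ((1 + η) * Λ * n + K * (4 * C * (j : ℝ) ^ θ' + 2))) ≤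
        (1 + 6 * η) / (j : ℝ) ^ 2 * (2 * ((1 + η) * ν * ((j : ℝ) ^ 2 * B) / 2 + η * B * (j : ℝ) ^ 2 / 5)) := by
      rw [e1]
      gcongr
    have e3 : (1 + 6 * η) / (j : ℝ) ^ 2 * (2 * ((1 + η) * ν * ((j : ℝ) ^ 2 * B) / 2 + η * B * (j : ℝ) ^ 2 / 5)) =
        (1 + 6 * η) * ((1 + η) * ν + 2 * η / 5) * B := by
      field_simp
    have e4 : (1 + 6 * η) * ((1 + η) * ν + 2 * η / 5) ≤ 1 - 2 * η := by
      rw [hν]
      nlinarith [mul_pos hη hη, mul_pos (mul_pos hη hη) hη]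
    rw [e3] at e2
    have e5 : (1 + 6 * η) * ((1 + η) * ν + 2 * η / 5) * B ≤ (1 - 2 * η) * B := by gcongr
    have e6 : 0 < η * B := by positivity
    have e7 : (1 - 2 * η) * B = B - 2 * (η * B) := by ring
    linarith
  have hCj : C * (j : ℝ) ^ θ' ≤ j * sB := by
    have e0 : 0 ≤ 5 * C0 * (4 * C + 2) / η := by positivity
    calc C * (j : ℝ) ^ θ' ≤ (j : ℝ) ^ (κ - θ') * (j : ℝ) ^ θ' := by
          gcongr
          linarith
      _ = j * (j : ℝ) ^ (κ - 1) := hθκ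
      _ ≤ j * sB := by gcongr
  have hlog2 : Real.log (2 * j) ≤ 2 * Λ := by
    rw [Real.log_mul (by norm_num) hjp.ne']
    have := Real.log_two_lt_d9
    linarith
  have hx : (j : ℝ) + C * (j : ℝ) ^ θ' + K * Real.log (2 * j) ≤ j + j * sB * Real.log j ^ 2 := by
    rw [← hΛdef]
    have e0 : 0 < 1 / η := by positivity
    have e1 : (K : ℝ) * Real.log (2 * j) ≤ (C0 * (j * sB)) * (2 * Λ) :=
      mul_le_mul hKj hlog2 (Real.log_nonneg (by linarith)) (by positivity)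
    have e2 : j * sB * (1 + 2 * C0 * Λ) ≤ j * sB * Λ ^ 2 := by
      gcongr
      nlinarith
    have e3 : j * sB * (1 + 2 * C0 * Λ) = j * sB + (C0 * (j * sB)) * (2 * Λ) := by ring
    linarith
  have hKΛ2 : (K : ℝ) * Λ ≤ η * j := by
    have : 0 ≤ η * (K * Λ) := by positivity
    linarith
  have hlow : 2 ≤ (j : ℝ) - C * (j : ℝ) ^ θ' - K * Real.log j := by
    rw [← hΛdef]
    have e1 : C * (j : ℝ) ^ θ' ≤ η * j := by
      have e2 : 0 ≤ C * (j : ℝ) ^ θ' := by positivity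
      linarith
    have e2 : η * j ≤ 1 / 4 * j := by gcongr
    linarith
  have hfam := fam_count hC (by linarith) (by linarith) h hη hη4 hj hΛ hkle hcost hx hlow
  have hd := hdist n hnN
  rw [← hK] at hd
  have hd' : Real.exp ((1 - ε / 4) * (Real.pi * Real.sqrt (n / 3))) ≤ ((sets K n).card : ℝ) := hd
  refine le_trans ?_ hfam
  have hsq : Real.exp ((1 - ε) * (Real.pi * Real.sqrt (2 / 3) * (j * Real.sqrt (B / Λ)))) ≤
      Real.exp ((1 - ε / 4) * (Real.pi * Real.sqrt (n / 3))) ^ 2 := by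
    rw [← Real.exp_nat_mul]
    apply Real.exp_le_exp.2
    have e1 : 2 * Real.sqrt (n / 3) = Real.sqrt ν * (Real.sqrt (2 / 3) * (j * Real.sqrt (B / Λ))) := by
      rw [show (2 : ℝ) * Real.sqrt (n / 3) = Real.sqrt (2 ^ 2 * (n / 3)) by
        rw [Real.sqrt_mul (by norm_num), Real.sqrt_sq (by norm_num)]]
      rw [show (2 : ℝ) ^ 2 * (n / 3) = ν * ((2 / 3) * ((j : ℝ) ^ 2 * (B / Λ))) by
        rw [hn]; field_simp]
      rw [Real.sqrt_mul (by linarith), Real.sqrt_mul (by norm_num), Real.sqrt_mul (by positivity),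
        Real.sqrt_sq hjp.le]
    have e2 : ν ≤ Real.sqrt ν := by
      apply Real.le_sqrt_of_sq_le
      calc ν ^ 2 = ν * ν := sq ν
        _ ≤ ν * 1 := mul_le_mul_of_nonneg_left hνle (by linarith)
        _ = ν := mul_one ν
    have e3 : (1 - ε) ≤ (1 - ε / 4) * ν := by
      have e4 : (1 - ε / 4) * (1 - ε / 2) = (1 - ε) + (ε / 4 + ε ^ 2 / 8) := by ring
      have e5 : 0 ≤ ε / 4 + ε ^ 2 / 8 := by positivity
      rw [hν1, e4]
      linarith
    set V : ℝ := Real.sqrt (2 / 3) * (j * Real.sqrt (B / Λ)) with hV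
    have hV0 : 0 ≤ V := by rw [hV]; positivity
    push_cast
    calc (1 - ε) * (Real.pi * Real.sqrt (2 / 3) * (j * Real.sqrt (B / Λ))) = (1 - ε) * (Real.pi * V) := by
          rw [hV]; ring
      _ ≤ ((1 - ε / 4) * Real.sqrt ν) * (Real.pi * V) := by
          apply mul_le_mul_of_nonneg_right _ (by positivity)
          refine e3.trans ?_
          apply mul_le_mul_of_nonneg_left e2
          linarith
      _ = (1 - ε / 4) * (Real.pi * (Real.sqrt ν * V)) := by ring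
      _ = (1 - ε / 4) * (Real.pi * (2 * Real.sqrt (n / 3))) := by rw [e1]
      _ = _ := by ring
  refine hsq.trans ?_
  gcongr

end Q204.NA
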