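import Pool.Agent.Q204.NA.Lo4
import Pool.Agent.Q239.RN.LB

set_option autoImplicit false

/-! # The exceptions to the inequality of Robin near one level -/

open Finset
open Q239.RN

namespace Q204.NA

/-- sufficient condition for an exception to the inequality of Robin -/
theorem rob_of_cost {j N : ℕ} {T W : Finset ℕ} (hj : 100 ≤ j) (hT : T ⊆ PS j)
    (hT2 : ∀ p ∈ T, Nat.sqrt j < p) (hW : ∀ p ∈ W, p.Prime ∧ j < p)
    (hN : ∀ p ∈ (PS j \ T) ∪ W, p ∈ PS N) (h3 : 3 ≤ nTW j T W)
    (hcost : ∑ p ∈ T, (ell p - Real.log p / (j * Real.log j)) +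
      ∑ p ∈ W, (Real.log p / (j * Real.log j) - ell p) < kT (Real.log j) - 2 / j - 8 / Real.sqrt j) :
    RobEx (QR j * nTW j T W) := by
  have h100 : (100 : ℝ) ≤ j := by exact_mod_cast hj
  have hjp : (0 : ℝ) < j := by linarith
  have hQ0 := QR_ne j
  have hn0 : nTW j T W ≠ 0 := by omega
  have hQ1 : 1 ≤ QR j := Nat.one_le_iff_ne_zero.2 hQ0
  have h3' : 3 ≤ QR j * nTW j T W := by nlinarith
  have hzj : Nat.sqrt j ≤ j := Nat.sqrt_le_self j
  have hQsub : (QR j).primeFactors ⊆ PS j \ T := by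
    refine (QR_factors j).trans fun p hp => ?_
    rw [Finset.mem_sdiff]
    refine ⟨PS_mono hzj hp, fun hpT => ?_⟩
    have h1 := hT2 p hpT
    have h2 := (mem_PS.1 hp).2
    omega
  have hfac : (QR j * nTW j T W).primeFactors = (PS j \ T) ∪ W := by
    rw [Nat.primeFactors_mul hQ0 hn0, nTW_factors hW]
    exact Finset.union_eq_right.2 (hQsub.trans Finset.subset_union_left)
  rw [robEx_iff h3', Finset.sum_add_distrib]
  have hloss := rob_loss (n := QR j * nTW j T W) (j := j) (N := N) hj (by positivity) (by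
      rw [hfac]; exact hN) (fun p hp => by
      rw [Nat.factorization_mul hQ0 hn0, Finsupp.add_apply]
      exact (QR_fact hp).trans (Nat.le_add_right _ _))
  rw [hfac] at hloss ⊢
  have hlj : 2 ≤ Real.log j := (log_big hj).trans (Real.log_le_log (by linarith) (by linarith))
  have hM := (mertens_exact (u := Real.log j) (by linarith)).2
  rw [floor_exp_log (by omega : 1 ≤ j), Real.exp_neg, Real.exp_log hjp] at hM
  have hTh := theta_eq_eT (j := j) (by omega)
  have hL := log_gt_one h3'
  have ht := loglog_tangent (j := j) (by linarith) hL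
  set L := Real.log ((QR j * nTW j T W : ℕ) : ℝ) with hLdef
  have hlog := log_nTW hT hW
  have hLeq : L = Real.log (QR j) + Real.log (nTW j T W) := by
    rw [hLdef]
    push_cast
    rw [Real.log_mul]
    · exact_mod_cast hQ0
    · exact_mod_cast hn0
  have hs : Real.sqrt j * Real.sqrt j = j := Real.mul_self_sqrt hjp.le
  have hs0 : 0 < Real.sqrt j := Real.sqrt_pos.2 hjp
  have hQlog : Real.log (QR j) / (j * Real.log j) ≤ 2 / Real.sqrt j := by
    have h1 := log_QR (j := j) (by omega)
    rw [div_le_div_iff₀ (by positivity) hs0]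
    calc Real.log (QR j) * Real.sqrt j ≤ (2 * Real.sqrt j * Real.log j) * Real.sqrt j := by gcongr
      _ = 2 * (Real.sqrt j * Real.sqrt j) * Real.log j := by ring
      _ = 2 * (j * Real.log j) := by rw [hs]; ring
  have e1 : ∑ p ∈ PS j \ T, ell p = SL j - ∑ p ∈ T, ell p := by
    unfold SL
    rw [← Finset.sum_sdiff hT]
    ring
  rw [sum_union (disj_TW hW), e1]
  rw [sum_union (disj_TW hW)] at hloss ⊢
  rw [Finset.sum_sub_distrib, Finset.sum_sub_distrib, ← Finset.sum_div, ← Finset.sum_div] at hcost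
  have e2 : (L - j) / (j * Real.log j) = eT (Real.log j) / Real.log j -
      (∑ p ∈ T, Real.log (p : ℝ)) / (j * Real.log j) + (∑ p ∈ W, Real.log (p : ℝ)) / (j * Real.log j) +
      Real.log (QR j) / (j * Real.log j) := by
    have h5 : L - j = j * eT (Real.log j) - ∑ p ∈ T, Real.log (p : ℝ) + ∑ p ∈ W, Real.log (p : ℝ) +
        Real.log (QR j) := by
      linarith
    rw [h5, add_div, add_div, sub_div]
    congr 3
    field_simp
  rw [e2] at ht
  have e3 : (2 : ℝ) * (j : ℝ)⁻¹ = 2 / j := by ring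
  rw [e3] at hM
  have e4 : 8 / Real.sqrt j = 2 / Real.sqrt j + 6 / Real.sqrt j := by ring
  rw [e4] at hcost
  linarith

theorem fam_countR {C θ' η : ℝ} (hC : 0 < C) (h0 : 0 ≤ θ') (h1' : θ' ≤ 1)
    (h : ∀ v : ℝ, 0 ≤ v → |eT v| ≤ C * Real.exp ((θ' - 1) * v)) (hη : 0 < η) (hη1 : η ≤ 1 / 4)
    {j K : ℕ} {n x : ℝ} (hj : 100 ≤ j) (hΛ : 1 / η ≤ Real.log j)
    (hK : hk C θ' η j K ≤ 2 * η * j)
    (hcost : (1 + 6 * η) / (j : ℝ) ^ 2 * (2 * ((1 + η) * Real.log j * n + K * (4 * C * (j : ℝ) ^ θ' + 2))) <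
      kT (Real.log j) - 2 / j - 8 / Real.sqrt j)
    (hx : (j : ℝ) + C * (j : ℝ) ^ θ' + K * Real.log (2 * j) + Real.log (QR j) ≤ x)
    (hlow : 2 ≤ (j : ℝ) - C * (j : ℝ) ^ θ' - K * Real.log j) :
    ((sets K n).card : ℝ) ^ 2 ≤ cnt RobEx (Real.exp x) := by
  classical
  have h100 : (100 : ℝ) ≤ j := by exact_mod_cast hj
  have hjp : (0 : ℝ) < j := by linarith
  have hlj : 2 ≤ Real.log j := (log_big hj).trans (Real.log_le_log (by linarith) (by linarith))
  have hθ := abs_le.1 (theta_of_eT h (by omega : 1 ≤ j))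
  have hmono : ∀ k ≤ K, hk C θ' η j k ≤ hk C θ' η j K := by
    intro k hkK
    unfold hk
    have : (k : ℝ) ≤ K := by exact_mod_cast hkK
    gcongr
  have hK2 : hk C θ' η j K ≤ j / 2 := by nlinarith
  have hKc : K ≤ (PS j).card := by
    have := (dn_near hC h0 h hη hj hK2).1
    omega
  have hup : ∀ k ∈ Finset.Icc 1 K, (up j k : ℝ) - j ≤ hk C θ' η j k := fun k hk' => by
    rw [Finset.mem_Icc] at hk'
    exact up_near hC h0 h1' h hη hj hk'.1 hΛ ((hmono k hk'.2).trans (by linarith))
  have hdn : ∀ k ∈ Finset.Icc 1 K, (j : ℝ) - dn j k + 1 ≤ hk C θ' η j k := fun k hk' => by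
    rw [Finset.mem_Icc] at hk'
    exact (dn_near hC h0 h hη hj ((hmono k hk'.2).trans hK2)).2
  have hdnle : ∀ k ∈ Finset.Icc 1 K, dn j k ≤ j := fun k hk' => by
    rw [Finset.mem_Icc] at hk'
    exact dn_le hk'.1 (hk'.2.trans hKc)
  have hupinj : ∀ S ⊆ Finset.Icc 1 K, Set.InjOn (up j) (S : Set ℕ) := by
    intro S hS k hk1 l hl1 hkl
    exact up_inj (Finset.mem_Icc.1 (hS hk1)).1 (Finset.mem_Icc.1 (hS hl1)).1 hkl
  have hdninj : ∀ S ⊆ Finset.Icc 1 K, Set.InjOn (dn j) (S : Set ℕ) := by
    intro S hS k hk1 l hl1 hkl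
    exact dn_inj ((Finset.mem_Icc.1 (hS hk1)).2.trans hKc) ((Finset.mem_Icc.1 (hS hl1)).2.trans hKc) hkl
  have hTsub : ∀ S ⊆ Finset.Icc 1 K, S.image (dn j) ⊆ PS j := by
    intro S hS p hp
    rw [mem_image] at hp
    obtain ⟨k, hk', rfl⟩ := hp
    rw [mem_PS]
    exact ⟨dn_prime j k, hdnle k (hS hk')⟩
  have hW : ∀ S : Finset ℕ, ∀ p ∈ S.image (up j), p.Prime ∧ j < p := by
    intro S p hp
    rw [mem_image] at hp
    obtain ⟨k, -, rfl⟩ := hp
    exact ⟨up_prime j k, up_gt j k⟩
  have hsum : ∀ S ∈ sets K n, ∑ k ∈ S, hk C θ' η j k ≤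
      (1 + η) * Real.log j * n + K * (4 * C * (j : ℝ) ^ θ' + 2) := by
    intro S hS
    rw [sets, mem_filter, mem_powerset] at hS
    have e1 : ∑ k ∈ S, hk C θ' η j k = (1 + η) * Real.log j * ((∑ k ∈ S, k : ℕ) : ℝ) +
        S.card * (4 * C * (j : ℝ) ^ θ' + 2) := by
      unfold hk
      rw [sum_add_distrib, sum_const, nsmul_eq_mul]
      congr 1
      push_cast
      rw [mul_sum]
      exact sum_congr rfl fun k _ => by ring
    have e2 : (S.card : ℝ) ≤ K := by
      have := Finset.card_le_card hS.1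
      rw [Nat.card_Icc] at this
      exact_mod_cast (by omega : S.card ≤ K)
    rw [e1]
    have e3 : 0 ≤ (1 + η) * Real.log j := by positivity
    have e4 : (0 : ℝ) ≤ 4 * C * (j : ℝ) ^ θ' + 2 := by positivity
    exact add_le_add (mul_le_mul_of_nonneg_left hS.2 e3) (mul_le_mul_of_nonneg_right e2 e4)
  have hcardS : ∀ S ∈ sets K n, (S.card : ℝ) ≤ K := by
    intro S hS
    rw [sets, mem_filter, mem_powerset] at hS
    have := Finset.card_le_card hS.1
    rw [Nat.card_Icc] at this
    exact_mod_cast (by omega : S.card ≤ K)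
  have hsubS : ∀ S ∈ sets K n, S ⊆ Finset.Icc 1 K := by
    intro S hS
    rw [sets, mem_filter, mem_powerset] at hS
    exact hS.1
  -- the logarithm of a member
  have hlogs : ∀ q ∈ sets K n ×ˢ sets K n, 2 ≤ Real.log (fam j q) ∧ Real.log (fam j q) + Real.log (QR j) ≤ x := by
    intro q hq
    rw [mem_product] at hq
    unfold fam
    rw [log_nTW (hTsub _ (hsubS _ hq.1)) (hW _)]
    rw [sum_image (hdninj _ (hsubS _ hq.1)), sum_image (hupinj _ (hsubS _ hq.2))]
    have a1 : ∑ k ∈ q.1, Real.log (dn j k : ℝ) ≤ K * Real.log j := by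
      have a2 : ∑ k ∈ q.1, Real.log (dn j k : ℝ) ≤ q.1.card • Real.log j := by
        refine Finset.sum_le_card_nsmul _ _ _ fun k hk' => ?_
        have a3 := prime_gt (dn_prime j k)
        exact Real.log_le_log (by linarith) (by exact_mod_cast hdnle k (hsubS _ hq.1 hk'))
      rw [nsmul_eq_mul] at a2
      exact a2.trans (mul_le_mul_of_nonneg_right (hcardS _ hq.1) (by linarith))
    have a4 : ∑ k ∈ q.2, Real.log (up j k : ℝ) ≤ K * Real.log (2 * j) := by
      have a2 : ∑ k ∈ q.2, Real.log (up j k : ℝ) ≤ q.2.card • Real.log (2 * j) := by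
        refine Finset.sum_le_card_nsmul _ _ _ fun k hk' => ?_
        have a3 := prime_gt (up_prime j k)
        have a5 := hup k (hsubS _ hq.2 hk')
        have a6 := (Finset.mem_Icc.1 (hsubS _ hq.2 hk')).2
        have a7 := hmono k a6
        exact Real.log_le_log (by linarith) (by linarith)
      rw [nsmul_eq_mul] at a2
      exact a2.trans (mul_le_mul_of_nonneg_right (hcardS _ hq.2) (Real.log_nonneg (by linarith)))
    have a5 : 0 ≤ ∑ k ∈ q.1, Real.log (dn j k : ℝ) := sum_nonneg fun k _ => Real.log_natCast_nonneg _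
    have a6 : 0 ≤ ∑ k ∈ q.2, Real.log (up j k : ℝ) := sum_nonneg fun k _ => Real.log_natCast_nonneg _
    constructor <;> linarith [hθ.1, hθ.2]
  have h3 : ∀ q ∈ sets K n ×ˢ sets K n, 3 ≤ fam j q := by
    intro q hq
    have a1 := (hlogs q hq).1
    by_contra h4
    push Not at h4
    have h5 : (fam j q : ℝ) ≤ 2 := by exact_mod_cast (by omega : fam j q ≤ 2)
    rcases Nat.eq_zero_or_pos (fam j q) with h6 | h6
    · rw [h6] at a1
      simp at a1
      linarith
    · have h7 : (0 : ℝ) < fam j q := by exact_mod_cast h6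
      have h8 := Real.log_le_log h7 h5
      have := Real.log_two_lt_d9
      linarith
  have hsqrt : Real.sqrt j ≤ j / 10 := by
    rw [Real.sqrt_le_left (by positivity)]
    nlinarith
  have hnic : ∀ q ∈ sets K n ×ˢ sets K n, RobEx (QR j * fam j q) := by
    intro q hq
    have hq' := hq
    rw [mem_product] at hq
    refine rob_of_cost (N := 2 * j) hj (hTsub _ (hsubS _ hq.1)) ?_ (hW _) ?_ (h3 q hq') (lt_of_le_of_lt ?_ hcost)
    · intro p hp
      rw [mem_image] at hp
      obtain ⟨k, hk', rfl⟩ := hp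
      have c1 := hdn k (hsubS _ hq.1 hk')
      have c2 := hmono k (Finset.mem_Icc.1 (hsubS _ hq.1 hk')).2
      have c3 : (Nat.sqrt j : ℝ) < dn j k := by
        have := Real.nat_sqrt_le_real_sqrt (a := j)
        linarith
      exact_mod_cast c3
    · intro p hp
      rw [mem_union, mem_image] at hp
      rcases hp with hp | ⟨k, hk', rfl⟩
      · have := (mem_PS.1 (Finset.mem_sdiff.1 hp).1)
        exact mem_PS.2 ⟨this.1, by omega⟩
      · refine mem_PS.2 ⟨up_prime j k, ?_⟩
        have c1 := hup k (hsubS _ hq.2 hk')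
        have c2 := hmono k (Finset.mem_Icc.1 (hsubS _ hq.2 hk')).2
        have c3 : (up j k : ℝ) ≤ ((2 * j : ℕ) : ℝ) := by
          push_cast
          linarith
        exact_mod_cast c3
    rw [sum_image (hdninj _ (hsubS _ hq.1)), sum_image (hupinj _ (hsubS _ hq.2))]
    have b1 : ∑ k ∈ q.1, (ell (dn j k) - Real.log (dn j k) / (j * Real.log j)) ≤
        (1 + 6 * η) / (j : ℝ) ^ 2 * ∑ k ∈ q.1, hk C θ' η j k := by
      rw [mul_sum]
      refine sum_le_sum fun k hk' => ?_
      have c1 := hsubS _ hq.1 hk'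
      have c2 := cost_low (dn_prime j k) hj (hdnle k c1) hη hη1 hΛ (hdn k c1)
        ((hmono k (Finset.mem_Icc.1 c1).2).trans hK)
      calc _ ≤ _ := c2
        _ = _ := by ring
    have b2 : ∑ k ∈ q.2, (Real.log (up j k) / (j * Real.log j) - ell (up j k)) ≤
        (1 + 6 * η) / (j : ℝ) ^ 2 * ∑ k ∈ q.2, hk C θ' η j k := by
      rw [mul_sum]
      refine sum_le_sum fun k hk' => ?_
      have c1 := hsubS _ hq.2 hk'
      have c2 := cost_high (up_prime j k) hj (up_gt j k) hη hΛ (hup k c1)
      calc _ ≤ _ := c2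
        _ = _ := by ring
    have b3 := hsum _ hq.1
    have b4 := hsum _ hq.2
    have b5 : 0 ≤ (1 + 6 * η) / (j : ℝ) ^ 2 := by positivity
    calc _ ≤ (1 + 6 * η) / (j : ℝ) ^ 2 * ∑ k ∈ q.1, hk C θ' η j k +
          (1 + 6 * η) / (j : ℝ) ^ 2 * ∑ k ∈ q.2, hk C θ' η j k := add_le_add b1 b2
      _ = (1 + 6 * η) / (j : ℝ) ^ 2 * (∑ k ∈ q.1, hk C θ' η j k + ∑ k ∈ q.2, hk C θ' η j k) := by ring
      _ ≤ _ := mul_le_mul_of_nonneg_left (by linarith) b5
  -- injectivity
  have hinj : Set.InjOn (fam j) ((sets K n ×ˢ sets K n : Finset (Finset ℕ × Finset ℕ)) : Set _) := by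
    intro q hq q' hq' he
    rw [Finset.mem_coe, mem_product] at hq hq'
    have f1 := congrArg Nat.primeFactors he
    unfold fam at f1
    rw [nTW_factors (hW _), nTW_factors (hW _)] at f1
    have hT1 := hTsub _ (hsubS _ hq.1)
    have hT2 := hTsub _ (hsubS _ hq'.1)
    have g1 : q.1.image (dn j) = q'.1.image (dn j) := by
      ext p
      have f2 := Finset.ext_iff.1 f1 p
      rw [mem_union, mem_union, mem_sdiff, mem_sdiff] at f2
      constructor
      · intro hp
        have h4 := hT1 hp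
        by_contra h5
        rcases f2.2 (Or.inl ⟨h4, h5⟩) with h6 | h6
        · exact h6.2 hp
        · have := (hW _ p h6).2
          rw [mem_PS] at h4
          omega
      · intro hp
        have h4 := hT2 hp
        by_contra h5
        rcases f2.1 (Or.inl ⟨h4, h5⟩) with h6 | h6
        · exact h6.2 hp
        · have := (hW _ p h6).2
          rw [mem_PS] at h4
          omega
    have g2 : q.2.image (up j) = q'.2.image (up j) := by
      ext p
      have f2 := Finset.ext_iff.1 f1 p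
      rw [mem_union, mem_union, mem_sdiff, mem_sdiff] at f2
      constructor
      · intro hp
        have h4 := (hW _ p hp).2
        rcases f2.1 (Or.inr hp) with h6 | h6
        · rw [mem_PS] at h6
          omega
        · exact h6
      · intro hp
        have h4 := (hW _ p hp).2
        rcases f2.2 (Or.inr hp) with h6 | h6
        · rw [mem_PS] at h6
          omega
        · exact h6
    have g3 : q.1 = q'.1 := by
      have hI := hdninj (Finset.Icc 1 K) (Finset.Subset.refl _)
      ext k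
      constructor
      · intro hk'
        have h5 : dn j k ∈ q'.1.image (dn j) := by rw [← g1]; exact mem_image_of_mem _ hk'
        rw [mem_image] at h5
        obtain ⟨l, hl, hkl⟩ := h5
        have := hI (hsubS _ hq'.1 hl) (hsubS _ hq.1 hk') hkl
        rwa [← this]
      · intro hk'
        have h5 : dn j k ∈ q.1.image (dn j) := by rw [g1]; exact mem_image_of_mem _ hk'
        rw [mem_image] at h5
        obtain ⟨l, hl, hkl⟩ := h5
        have := hI (hsubS _ hq.1 hl) (hsubS _ hq'.1 hk') hkl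
        rwa [← this]
    have g4 : q.2 = q'.2 := by
      have hI := hupinj (Finset.Icc 1 K) (Finset.Subset.refl _)
      ext k
      constructor
      · intro hk'
        have h5 : up j k ∈ q'.2.image (up j) := by rw [← g2]; exact mem_image_of_mem _ hk'
        rw [mem_image] at h5
        obtain ⟨l, hl, hkl⟩ := h5
        have := hI (hsubS _ hq'.2 hl) (hsubS _ hq.2 hk') hkl
        rwa [← this]
      · intro hk'
        have h5 : up j k ∈ q.2.image (up j) := by rw [g2]; exact mem_image_of_mem _ hk'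
        rw [mem_image] at h5
        obtain ⟨l, hl, hkl⟩ := h5
        have := hI (hsubS _ hq.2 hl) (hsubS _ hq'.2 hk') hkl
        rwa [← this]
    exact Prod.ext g3 g4
  -- conclusion
  have hfin := cnt_finite RobEx (Real.exp x)
  have hcard : (sets K n ×ˢ sets K n).card ≤ hfin.toFinset.card := by
    refine Finset.card_le_card_of_injOn (fun q => QR j * fam j q) ?_ ?_
    · intro q hq
      rw [Finset.mem_coe, Set.Finite.mem_toFinset]
      refine ⟨?_, hnic q hq⟩
      have h4 := h3 q hq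
      have h5 : (0 : ℝ) < fam j q := by exact_mod_cast (by omega : 0 < fam j q)
      have h6 : (0 : ℝ) < QR j := by exact_mod_cast Nat.pos_of_ne_zero (QR_ne j)
      push_cast
      rw [← Real.log_le_iff_le_exp (by positivity), Real.log_mul h6.ne' h5.ne']
      have := (hlogs q hq).2
      linarith
    · intro q hq q' hq' he
      exact hinj hq hq' (Nat.eq_of_mul_eq_mul_left (Nat.pos_of_ne_zero (QR_ne j)) he)
  rw [card_product, ← Set.ncard_eq_toFinset_card _ hfin] at hcard
  unfold cnt
  rw [sq]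
  exact_mod_cast hcard

end Q204.NA
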