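import Pool.Agent.Q204.NA.A4
import Pool.Agent.Q204.NA.Rb2

set_option autoImplicit false

/-! # The sharp lower bound: Robin -/

open Finset Filter Topology MeasureTheory
open Q239.RN

namespace Q204.NA

set_option maxHeartbeats 4000000 in
/-- the sharp lower bound -/
theorem law_lowerR (hD : SDist) {Θ ε : ℝ} (h1' : 1 / 2 < Θ) (h2 : Θ < 1)
    (hz : ∀ s : ℂ, Θ < s.re → riemannZeta s ≠ 0)
    (hs : ∀ β : ℝ, β < Θ → ∃ ρ : ℂ, riemannZeta ρ = 0 ∧ β < ρ.re) (hε : 0 < ε) :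
    ∀ᶠ x : ℝ in atTop, Real.exp ((1 - ε) * (c0 * Mx (Real.log x))) ≤ cnt RobEx x := by
  have h1 : 1 / 2 ≤ Θ := h1'.le
  set g := 1 - Θ with hg
  have hg0 : 0 < g := by rw [hg]; linarith
  obtain ⟨C, hC, hbd⟩ := eT_free (θ := Θ) (θ' := Θ + g / 16) h1 hz (by linarith) (by rw [hg]; linarith)
  set θ' := Θ + g / 16 with hθ'
  obtain ⟨κ, κ1, hκa, hκb, hκc, hκd, hκe⟩ : ∃ κ κ1 : ℝ, θ' < κ ∧ 3 / 4 < κ ∧ κ < κ1 ∧ κ1 < (1 + Θ) / 2 ∧
      Θ + 7 * g / 16 ≤ κ1 := by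
    have hm1 : min g (Θ - 1 / 2) ≤ g := min_le_left _ _
    have hm2 : min g (Θ - 1 / 2) ≤ Θ - 1 / 2 := min_le_right _ _
    have hm3 : 0 < min g (Θ - 1 / 2) := lt_min hg0 (by linarith)
    refine ⟨(1 + Θ) / 2 - min g (Θ - 1 / 2) / 8, (1 + Θ) / 2 - min g (Θ - 1 / 2) / 16, ?_, ?_, ?_, ?_, ?_⟩
    · rw [hθ']; linarith
    · linarith
    · linarith
    · linarith
    · linarith
  set β := Θ + 19 * g / 32 with hβ
  have hθ1 : θ' < 1 := by rw [hθ', hg]; linarith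
  set δ := min (ε / 8) (1 / 8) with hδ
  have hδ0 : 0 < δ := lt_min (by positivity) (by norm_num)
  have hδ1 : δ ≤ 1 / 8 := min_le_right _ _
  have hδε : 8 * δ ≤ ε := by have := min_le_left (ε / 8) (1 / 8); linarith
  have hM := Mx_lower (κ1 := κ1) h1 h2 hz hs (by linarith) hκd
  have hlo := lower_cntR hD hC (by linarith) hbd hκa hκb (by linarith)
    (show 0 < 1 - κ by linarith) hδ0 (by linarith)
  set C1 := Real.sqrt (2 * C / (1 - θ')) with hC1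
  have hC10 : 0 < C1 := by
    rw [hC1]
    apply Real.sqrt_pos.2
    have : 0 < 1 - θ' := by linarith
    positivity
  -- everything which holds for large levels
  obtain ⟨J, hJ⟩ := eventually_atTop.1 (hlo.and ((ev_log (show (0 : ℝ) < κ - θ' by linarith) (2 * C / (1 - θ')) 0).and
    ((ev_log (show (0 : ℝ) < β - (1 + θ') / 2 by rw [hβ, hθ', hg]; linarith) C1 3).and
    (eventually_ge_atTop 3))))
  obtain ⟨J2, hJ2⟩ := eventually_atTop.1 ((ev_log (show (0 : ℝ) < 1 - β by rw [hβ, hg]; linarith) (4 / δ) 0).and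
    ((ev_log (show (0 : ℝ) < κ1 - (θ' / 2 + β / 2) by rw [hβ, hθ']; linarith) (8 * Real.sqrt C / δ) 0).and
    (eventually_ge_atTop (2 * J + 8))))
  have hc := c0_pos
  filter_upwards [Real.tendsto_log_atTop.eventually hM,
    Real.tendsto_log_atTop.eventually (rpow_eventually (κ1 := 0) (κ := κ1) (C := C1 * (J2 + 1 : ℝ) + 1) (by linarith)),
    Real.tendsto_log_atTop.eventually (rpow_eventually (κ1 := κ) (κ := κ1) (C := 2) (by linarith)),
    Real.tendsto_log_atTop.eventually_ge_atTop 3, eventually_gt_atTop 0] with x a1 a2 a3 a4 a5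
  set Y := Real.log x with hY
  rw [Real.rpow_zero, mul_one] at a2
  obtain ⟨k, hk1, hk2, hk3⟩ := Mx_attained a4
  have hkp : (0 : ℝ) < k := by exact_mod_cast (by omega : 0 < k)
  have hk1' : (1 : ℝ) ≤ k := by exact_mod_cast (by omega : 1 ≤ k)
  have hFk := Fr_le hC hθ1 hbd hk1
  rw [← hC1] at hFk
  -- `k` is large
  have hkJ : J2 ≤ k := by
    by_contra hc'
    push Not at hc'
    have b1 : (k : ℝ) ^ ((1 + θ') / 2) ≤ J2 + 1 := by
      calc (k : ℝ) ^ ((1 + θ') / 2) ≤ (k : ℝ) ^ (1 : ℝ) :=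
            Real.rpow_le_rpow_of_exponent_le hk1' (by linarith)
        _ = k := Real.rpow_one _
        _ ≤ J2 + 1 := by
          have : (k : ℝ) ≤ J2 := by exact_mod_cast hc'.le
          linarith
    have b2 : C1 * (k : ℝ) ^ ((1 + θ') / 2) ≤ C1 * (J2 + 1) := by gcongr
    rw [hk3] at a1
    linarith
  obtain ⟨f1, f2, f3⟩ := hJ2 k hkJ
  rw [pow_zero, mul_one] at f1 f2
  have hk8 : (8 : ℝ) + 2 * J ≤ k := by exact_mod_cast (by omega : 8 + 2 * J ≤ k)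
  have hJ0 : (0 : ℝ) ≤ J := Nat.cast_nonneg J
  -- the shift
  set H : ℕ := ⌈(k : ℝ) ^ β⌉₊ with hH
  have hH1 : (k : ℝ) ^ β ≤ H := Nat.le_ceil _
  have hβ0 : 0 < β := by rw [hβ]; linarith
  have hkβ1 : 1 ≤ (k : ℝ) ^ β := Real.one_le_rpow hk1' hβ0.le
  have hH2 : (H : ℝ) ≤ 2 * (k : ℝ) ^ β := by
    have := (Nat.ceil_lt_add_one (show 0 ≤ (k : ℝ) ^ β by positivity)).le
    linarith
  have hkβ : 4 / δ * (k : ℝ) ^ β ≤ k := by
    calc 4 / δ * (k : ℝ) ^ β ≤ (k : ℝ) ^ (1 - β) * (k : ℝ) ^ β := by gcongr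
      _ = k := by rw [← Real.rpow_add hkp]; simp
  have hHδ : (H : ℝ) ≤ δ / 2 * k := by
    have : (k : ℝ) ^ β ≤ δ / 4 * k := by
      rw [div_mul_eq_mul_div, div_le_iff₀ hδ0] at hkβ
      linarith
    linarith
  have hHk : H ≤ k := by
    have : (H : ℝ) ≤ k := by nlinarith
    exact_mod_cast this
  set j : ℕ := k - H with hj
  have hjR : (j : ℝ) = k - H := by rw [hj, Nat.cast_sub hHk]
  have hjk : j ≤ k := Nat.sub_le _ _
  have hjk2 : (k : ℝ) ≤ (1 + δ) * j := by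
    rw [hjR]
    nlinarith
  have hjhalf : (k : ℝ) / 2 ≤ j := by
    rw [hjR]
    nlinarith
  have hjJ : J ≤ j := by
    have : (J : ℝ) ≤ j := by linarith
    exact_mod_cast this
  obtain ⟨g1, g2, g3, g4⟩ := hJ j hjJ
  rw [pow_zero, mul_one] at g2
  have hjp : (0 : ℝ) < j := by exact_mod_cast (by omega : 0 < j)
  have hj1' : (1 : ℝ) ≤ j := by exact_mod_cast (by omega : 1 ≤ j)
  have hjk' : (j : ℝ) ≤ k := by exact_mod_cast hjk
  have hu := (log_gt_one g4).le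
  have hu0 : 0 < Real.log j := by linarith
  -- comparison of the profiles
  have hstep := Fr_step hC hθ1 hbd g4 hjk
  have hFj0 := Fr_nonneg j
  have hFk0 := Fr_nonneg k
  have hYk : (k : ℝ) ^ κ1 ≤ Fr k := by
    rw [← hk3]
    refine le_trans ?_ a1
    exact Real.rpow_le_rpow hkp.le hk2 (by linarith)
  have hnoise : (k : ℝ) * Real.sqrt (2 * C * (j : ℝ) ^ (θ' - 2) * ((k : ℝ) - j)) ≤ δ * Fr k := by
    have e1 : (k : ℝ) - j = H := by rw [hjR]; ring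
    rw [e1]
    have e2 : 2 * C * (j : ℝ) ^ (θ' - 2) * (H : ℝ) ≤ 16 * C * (k : ℝ) ^ (θ' - 2 + β) := by
      have e3 : (j : ℝ) ^ (θ' - 2) ≤ 4 * (k : ℝ) ^ (θ' - 2) := by
        have e4 : (j : ℝ) ^ (θ' - 2) ≤ ((k : ℝ) / 2) ^ (θ' - 2) :=
          Real.rpow_le_rpow_of_nonpos (by positivity) hjhalf (by linarith)
        refine e4.trans ?_
        rw [Real.div_rpow hkp.le (by norm_num), div_eq_mul_inv, mul_comm, ← Real.rpow_neg (by norm_num)]
        gcongr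
        calc (2 : ℝ) ^ (-(θ' - 2)) ≤ 2 ^ (2 : ℝ) :=
              Real.rpow_le_rpow_of_exponent_le (by norm_num) (by linarith)
          _ = 4 := by norm_num
      calc 2 * C * (j : ℝ) ^ (θ' - 2) * (H : ℝ) ≤ 2 * C * (4 * (k : ℝ) ^ (θ' - 2)) * (2 * (k : ℝ) ^ β) := by gcongr
        _ = 16 * C * ((k : ℝ) ^ (θ' - 2) * (k : ℝ) ^ β) := by ring
        _ = _ := by rw [← Real.rpow_add hkp]
    have e5 : Real.sqrt (2 * C * (j : ℝ) ^ (θ' - 2) * (H : ℝ)) ≤ 4 * Real.sqrt C * (k : ℝ) ^ ((θ' - 2 + β) / 2) := by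
      refine (Real.sqrt_le_sqrt e2).trans (le_of_eq ?_)
      rw [Real.sqrt_mul (by positivity), Real.sqrt_mul (by norm_num)]
      congr 1
      · rw [show (16 : ℝ) = 4 ^ 2 by norm_num, Real.sqrt_sq (by norm_num)]
      · rw [Real.sqrt_eq_rpow, ← Real.rpow_mul hkp.le]
        congr 1
        ring
    calc (k : ℝ) * Real.sqrt (2 * C * (j : ℝ) ^ (θ' - 2) * (H : ℝ)) ≤
        k * (4 * Real.sqrt C * (k : ℝ) ^ ((θ' - 2 + β) / 2)) := by gcongr
      _ = 4 * Real.sqrt C * (k ^ (1 : ℝ) * (k : ℝ) ^ ((θ' - 2 + β) / 2)) := by rw [Real.rpow_one]; ring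
      _ = 4 * Real.sqrt C * (k : ℝ) ^ (θ' / 2 + β / 2) := by
        rw [← Real.rpow_add hkp]; congr 2; ring
      _ ≤ 8 * Real.sqrt C * (k : ℝ) ^ (θ' / 2 + β / 2) := by gcongr; norm_num
      _ = δ * (8 * Real.sqrt C / δ * (k : ℝ) ^ (θ' / 2 + β / 2)) := by field_simp
      _ ≤ δ * ((k : ℝ) ^ (κ1 - (θ' / 2 + β / 2)) * (k : ℝ) ^ (θ' / 2 + β / 2)) := by gcongr
      _ = δ * (k : ℝ) ^ κ1 := by rw [← Real.rpow_add hkp]; congr 2; ring
      _ ≤ δ * Fr k := by gcongr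
  have hratio : (k : ℝ) / j ≤ 1 + δ := by rw [div_le_iff₀ hjp]; exact hjk2
  have hFjk : (1 - δ) * Fr k ≤ (1 + δ) * Fr j := by
    have : (k : ℝ) / j * Fr j ≤ (1 + δ) * Fr j := by gcongr
    linarith
  have hFj2 : 1 / 2 * Fr k ≤ Fr j := by nlinarith
  -- the budget
  have hFjκ : (j : ℝ) ^ κ ≤ Fr j := by
    have e1 : 2 * (j : ℝ) ^ κ ≤ Fr k := by
      rw [← hk3]
      refine le_trans ?_ a1
      refine le_trans ?_ a3
      gcongr
      linarith
    linarith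
  have hFjpos : 0 < Fr j := lt_of_lt_of_le (by positivity) hFjκ
  have hkTpos : 0 < kT (Real.log j) := by
    by_contra hneg
    push Not at hneg
    have : Fr j = 0 := by
      unfold Fr
      rw [max_eq_right hneg, zero_div, Real.sqrt_zero, mul_zero]
    linarith
  set B := kT (Real.log j) with hB
  have hFjB : Fr j = j * Real.sqrt (B / Real.log j) := by
    unfold Fr
    rw [← hB, max_eq_left hkTpos.le]
  have hB1 : (j : ℝ) ^ (2 * κ - 2) ≤ B := by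
    have e1 : Fr j ^ 2 = (j : ℝ) ^ 2 * (B / Real.log j) := by
      rw [hFjB, mul_pow, Real.sq_sqrt (by positivity)]
    have e2 : ((j : ℝ) ^ κ) ^ 2 ≤ Fr j ^ 2 := pow_le_pow_left₀ (by positivity) hFjκ 2
    have e3 : (j : ℝ) ^ 2 * (B / Real.log j) ≤ (j : ℝ) ^ 2 * B := by
      gcongr
      exact div_le_self hkTpos.le hu
    have e4 : ((j : ℝ) ^ κ) ^ 2 = (j : ℝ) ^ 2 * (j : ℝ) ^ (2 * κ - 2) := by
      rw [← Real.rpow_natCast, ← Real.rpow_mul hjp.le, ← Real.rpow_natCast, ← Real.rpow_add hjp]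
      congr 1
      push_cast
      ring
    have e5 : (j : ℝ) ^ 2 * (j : ℝ) ^ (2 * κ - 2) ≤ (j : ℝ) ^ 2 * B := by
      rw [← e4]
      exact e2.trans (e1 ▸ e3)
    exact le_of_mul_le_mul_left e5 (by positivity)
  have hB2 : B ≤ (j : ℝ) ^ (-(1 - κ)) := by
    have hkT := kT_le hC hθ1 hbd g4
    refine ((le_abs_self _).trans hkT).trans ?_
    calc 2 * C / (1 - θ') * (j : ℝ) ^ (θ' - 1) ≤ (j : ℝ) ^ (κ - θ') * (j : ℝ) ^ (θ' - 1) := by gcongr
      _ = (j : ℝ) ^ (-(1 - κ)) := by rw [← Real.rpow_add hjp]; congr 1; ring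
  have hfin := g1 B hB1 hB2 le_rfl
  have hpi : Real.pi * Real.sqrt (2 / 3) = c0 := rfl
  rw [hpi, ← hFjB] at hfin
  -- the size
  have hsize : (j : ℝ) + j * Real.sqrt B * Real.log j ^ 2 ≤ k := by
    have e1 : (j : ℝ) * Real.sqrt B ≤ Fr j * Real.log j := by
      rw [hFjB]
      exact size_aux hjp.le hkTpos.le hu
    have e5 : (j : ℝ) * Real.sqrt B * Real.log j ^ 2 ≤ (j : ℝ) ^ β := by
      have e6 := Fr_le hC hθ1 hbd g4
      rw [← hC1] at e6
      calc (j : ℝ) * Real.sqrt B * Real.log j ^ 2 ≤ (Fr j * Real.log j) * Real.log j ^ 2 := by gcongr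
        _ = Fr j * Real.log j ^ 3 := by ring
        _ ≤ (C1 * (j : ℝ) ^ ((1 + θ') / 2)) * Real.log j ^ 3 := by gcongr
        _ = (C1 * Real.log j ^ 3) * (j : ℝ) ^ ((1 + θ') / 2) := by ring
        _ ≤ (j : ℝ) ^ (β - (1 + θ') / 2) * (j : ℝ) ^ ((1 + θ') / 2) := by gcongr
        _ = (j : ℝ) ^ β := by rw [← Real.rpow_add hjp]; congr 1; ring
    have e7 : (j : ℝ) ^ β ≤ H := (Real.rpow_le_rpow hjp.le hjk' hβ0.le).trans hH1
    linarith
  have hcnt : (cnt RobEx (Real.exp (j + j * Real.sqrt B * Real.log j ^ 2)) : ℝ) ≤ cnt RobEx x := by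
    have e1 : Real.exp (j + j * Real.sqrt B * Real.log j ^ 2) ≤ x := by
      rw [← Real.le_log_iff_exp_le a5, ← hY]
      linarith
    exact_mod_cast cnt_mono_x RobEx e1
  refine le_trans (Real.exp_le_exp.2 ?_) (hfin.trans hcnt)
  rw [hk3]
  have h9 : (1 - ε) * Fr k ≤ (1 - δ) * Fr j := by
    have e1 : (1 - ε) * (1 + δ) ≤ (1 - δ) * (1 - δ) := by nlinarith
    have e2 : (1 - ε) * (1 + δ) * Fr k ≤ (1 - δ) * ((1 - δ) * Fr k) := by
      calc (1 - ε) * (1 + δ) * Fr k ≤ (1 - δ) * (1 - δ) * Fr k := by gcongr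
        _ = _ := by ring
    have e3 : (1 - δ) * ((1 - δ) * Fr k) ≤ (1 - δ) * ((1 + δ) * Fr j) := by
      apply mul_le_mul_of_nonneg_left hFjk
      linarith
    have e4 : (1 + δ) * ((1 - ε) * Fr k) ≤ (1 + δ) * ((1 - δ) * Fr j) := by linarith
    exact le_of_mul_le_mul_left e4 (by linarith)
  calc (1 - ε) * (c0 * Fr k) = c0 * ((1 - ε) * Fr k) := by ring
    _ ≤ c0 * ((1 - δ) * Fr j) := by gcongr
    _ = _ := by ring

end Q204.NA
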