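import Pool.Agent.Q204.NA.A8
import Pool.Agent.Q239.RN.LB2

set_option autoImplicit false

/-! # The theorem of Robin: upper bound for the abundancy -/

open Finset Filter Topology
open Q239.RN

namespace Q204.NA

/-- the weight of a prime -/
noncomputable def wR (L : ℝ) (p : ℕ) : ℝ := Real.log p / (L * Real.log L)

/-- the loss at a prime -/
noncomputable def mR (L : ℝ) (p : ℕ) : ℝ := min (1 / (p : ℝ) ^ 2) (wR L p)

theorem wR_nonneg {L : ℝ} (hL : 1 < L) (p : ℕ) : 0 ≤ wR L p := by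
  have := Real.log_pos hL
  have := Real.log_natCast_nonneg p
  unfold wR
  positivity

theorem mR_nonneg {L : ℝ} (hL : 1 < L) (p : ℕ) : 0 ≤ mR L p :=
  le_min (by positivity) (wR_nonneg hL p)

/-- the pointwise bound -/
theorem term_le {L : ℝ} (hL : 1 < L) {p a : ℕ} (hp : p.Prime) (ha : 1 ≤ a) :
    ell p + Real.log (1 - 1 / (p : ℝ) ^ (a + 1)) ≤ ell p - wR L p - mR L p + a * wR L p := by
  have hw := wR_nonneg hL p
  have h1 := one_sub_pow_pos (p := p) (k := a) hp
  rcases Nat.eq_or_lt_of_le ha with h | h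
  · subst h
    have h2 := Real.log_le_sub_one_of_pos h1
    have h3 : mR L p ≤ 1 / (p : ℝ) ^ 2 := min_le_left _ _
    push_cast
    have h4 : (1 : ℝ) / (p : ℝ) ^ (1 + 1) = 1 / (p : ℝ) ^ 2 := by norm_num
    rw [h4] at h2 ⊢
    linarith
  · have h2 : Real.log (1 - 1 / (p : ℝ) ^ (a + 1)) ≤ 0 := by
      apply Real.log_nonpos h1.le
      have : 0 ≤ 1 / (p : ℝ) ^ (a + 1) := by positivity
      linarith
    have h3 : mR L p ≤ wR L p := min_le_right _ _
    have h4 : (2 : ℝ) ≤ a := by exact_mod_cast h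
    have h5 : 2 * wR L p ≤ a * wR L p := by gcongr
    linarith

theorem sum_fact_log {n : ℕ} (hn : n ≠ 0) :
    ∑ p ∈ n.primeFactors, (n.factorization p : ℝ) * Real.log p = Real.log n := by
  have h1 : ((∏ p ∈ n.primeFactors, p ^ n.factorization p : ℕ) : ℝ) = n := by
    have := Nat.prod_factorization_pow_eq_self hn
    rw [Finsupp.prod, Nat.support_factorization] at this
    exact_mod_cast this
  rw [← h1]
  push_cast
  rw [Real.log_prod]
  · exact sum_congr rfl fun p _ => by rw [Real.log_pow]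
  · intro p hp
    have := prime_gt (Nat.prime_of_mem_primeFactors hp)
    positivity

theorem wR_ge {L : ℝ} (hL : 1 < L) {p : ℕ} (hp : L ≤ p) : 1 / L ≤ wR L p := by
  have h0 : 0 < L := by linarith
  have hu := Real.log_pos hL
  have h1 : Real.log L ≤ Real.log p := Real.log_le_log h0 hp
  unfold wR
  rw [div_le_div_iff₀ h0 (by positivity)]
  nlinarith

theorem wR_le {L : ℝ} (hL : 1 < L) {p : ℕ} (hp0 : 0 < p) (hp : (p : ℝ) ≤ L) : wR L p ≤ 1 / L := by
  have h0 : 0 < L := by linarith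
  have hu := Real.log_pos hL
  have h1 : Real.log p ≤ Real.log L := Real.log_le_log (by exact_mod_cast hp0) hp
  unfold wR
  rw [div_le_div_iff₀ (by positivity) h0]
  nlinarith

/-- the upper bound for the abundancy -/
theorem abund_le {n : ℕ} (hn : 3 ≤ n) {L : ℝ} (hLn : Real.log n = L) (hL : 10 ≤ L) :
    ∑ p ∈ n.primeFactors, (ell p + Real.log (1 - 1 / (p : ℝ) ^ (n.factorization p + 1))) ≤
      Real.eulerMascheroniConstant + Real.log (Real.log L) + kT (Real.log L) + 2 / L ^ 2 -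
        ∑ p ∈ PS ⌊L / 2⌋₊, mR L p := by
  classical
  have hL1 : 1 < L := by linarith
  have hL0 : 0 < L := by linarith
  have hn0 : n ≠ 0 := by omega
  set u := Real.log L with hu
  have hu1 : 1 ≤ u := by
    rw [hu, Real.le_log_iff_exp_le hL0]
    have := Real.exp_one_lt_d9
    linarith
  have hu0 : 0 < u := by linarith
  have hfl1 : (⌊L⌋₊ : ℝ) ≤ L := Nat.floor_le hL0.le
  have hfl2 : L < ⌊L⌋₊ + 1 := Nat.lt_floor_add_one L
  have hfh1 : (⌊L / 2⌋₊ : ℝ) ≤ L / 2 := Nat.floor_le (by positivity)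
  have hhle : ⌊L / 2⌋₊ ≤ ⌊L⌋₊ := Nat.floor_le_floor (by linarith)
  -- step one
  have hpp : ∀ p ∈ n.primeFactors, p.Prime := fun p hp => Nat.prime_of_mem_primeFactors hp
  have s1 : ∑ p ∈ n.primeFactors, (ell p + Real.log (1 - 1 / (p : ℝ) ^ (n.factorization p + 1))) ≤
      ∑ p ∈ n.primeFactors, (ell p - wR L p - mR L p) + 1 / u := by
    have h1 : ∑ p ∈ n.primeFactors, (n.factorization p : ℝ) * wR L p = 1 / u := by
      have h2 : ∀ p ∈ n.primeFactors, (n.factorization p : ℝ) * wR L p =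
          (n.factorization p : ℝ) * Real.log p / (L * u) := fun p _ => by
        unfold wR; rw [mul_div_assoc]
      rw [sum_congr rfl h2, ← sum_div, sum_fact_log hn0, hLn]
      field_simp
    rw [← h1, ← sum_add_distrib]
    refine sum_le_sum fun p hp => term_le hL1 (hpp p hp) ?_
    exact (hpp p hp).dvd_iff_one_le_factorization hn0 |>.1 (Nat.dvd_of_mem_primeFactors hp)
  -- step two: the large primes
  have s2 : ∑ p ∈ n.primeFactors.filter (fun p => ¬ p ≤ ⌊L⌋₊), (ell p - wR L p - mR L p) ≤ 2 / L ^ 2 := by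
    have h1 : ∀ p ∈ n.primeFactors.filter (fun p => ¬ p ≤ ⌊L⌋₊), ell p - wR L p - mR L p ≤
        if p = ⌊L⌋₊ + 1 then 2 / L ^ 2 else 0 := by
      intro p hp
      rw [mem_filter, not_le] at hp
      have hp1 := prime_gt (hpp p hp.1)
      have h2 := ell_upper hp1
      have h3 := mR_nonneg hL1 p
      have h4 : (⌊L⌋₊ : ℝ) + 1 ≤ p := by exact_mod_cast hp.2
      have h5 := wR_ge hL1 (p := p) (by linarith)
      split_ifs with h6
      · have h7 : L - 1 ≤ (p : ℝ) - 1 := by linarith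
        have h8 : 1 / ((p : ℝ) - 1) ≤ 1 / (L - 1) := one_div_le_one_div_of_le (by linarith) h7
        have h9 : 1 / (L - 1) - 1 / L ≤ 2 / L ^ 2 := by
          rw [div_sub_div _ _ (by linarith) hL0.ne', div_le_div_iff₀ (by nlinarith) (by positivity)]
          nlinarith
        linarith
      · have h7 : (⌊L⌋₊ : ℝ) + 2 ≤ p := by
          have : ⌊L⌋₊ + 2 ≤ p := by omega
          exact_mod_cast this
        have h8 : 1 / ((p : ℝ) - 1) ≤ 1 / L := one_div_le_one_div_of_le hL0 (by linarith)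
        linarith
    refine (sum_le_sum h1).trans ?_
    rw [sum_ite_eq']
    split_ifs
    · exact le_rfl
    · positivity
  -- step three: the other primes
  have s3 : ∑ p ∈ n.primeFactors.filter (fun p => p ≤ ⌊L⌋₊), (ell p - wR L p - mR L p) ≤
      ∑ p ∈ PS ⌊L⌋₊, (ell p - wR L p - if p ≤ ⌊L / 2⌋₊ then mR L p else 0) := by
    have h1 : ∑ p ∈ n.primeFactors.filter (fun p => p ≤ ⌊L⌋₊), (ell p - wR L p - mR L p) ≤
        ∑ p ∈ n.primeFactors.filter (fun p => p ≤ ⌊L⌋₊),
          (ell p - wR L p - if p ≤ ⌊L / 2⌋₊ then mR L p else 0) := by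
      refine sum_le_sum fun p _ => ?_
      have := mR_nonneg hL1 p
      split_ifs <;> linarith
    refine h1.trans ?_
    refine sum_le_sum_of_subset_of_nonneg (fun p hp => ?_) fun p hp _ => ?_
    · rw [mem_filter] at hp
      exact mem_PS.2 ⟨hpp p hp.1, hp.2⟩
    · have hp' := mem_PS.1 hp
      have hp1 := prime_gt hp'.1
      have hp2 : (2 : ℝ) ≤ p := by exact_mod_cast hp'.1.two_le
      have h2 := ell_lower hp1
      have hpL : (p : ℝ) ≤ L := le_trans (by exact_mod_cast hp'.2) hfl1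
      have h3 := wR_le hL1 hp'.1.pos hpL
      split_ifs with h4
      · have h5 : (p : ℝ) ≤ L / 2 := le_trans (by exact_mod_cast h4) hfh1
        have h6 : mR L p ≤ 1 / (p : ℝ) ^ 2 := min_le_left _ _
        have h7 : 1 / (p : ℝ) ^ 2 ≤ 1 / (2 * p) := by
          apply one_div_le_one_div_of_le (by positivity)
          nlinarith
        have h8 : 1 / L ≤ 1 / (2 * p) := one_div_le_one_div_of_le (by positivity) (by linarith)
        have h9 : 1 / (2 * (p : ℝ)) + 1 / (2 * p) = 1 / p := by field_simp; norm_num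
        linarith
      · have h8 : 1 / L ≤ 1 / (p : ℝ) := one_div_le_one_div_of_le (by linarith) hpL
        linarith
  have s4 : ∑ p ∈ PS ⌊L⌋₊, (ell p - wR L p - if p ≤ ⌊L / 2⌋₊ then mR L p else 0) =
      SL ⌊L⌋₊ - Chebyshev.theta L / (L * u) - ∑ p ∈ PS ⌊L / 2⌋₊, mR L p := by
    rw [sum_sub_distrib, sum_sub_distrib]
    congr 1
    · congr 1
      have h1 : Chebyshev.theta L = ∑ p ∈ PS ⌊L⌋₊, Real.log p := by
        rw [← theta_PS, ← Chebyshev.theta_eq_theta_coe_floor]
      rw [h1, sum_div]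
      rfl
    · rw [← sum_filter]
      refine sum_congr ?_ fun _ _ => rfl
      ext p
      rw [mem_filter, mem_PS, mem_PS]
      constructor
      · rintro ⟨⟨h1, h2⟩, h3⟩; exact ⟨h1, h3⟩
      · rintro ⟨h1, h2⟩; exact ⟨⟨h1, h2.trans hhle⟩, h2⟩
  have s5 := (mertens_exact hu1).1
  rw [hu, Real.exp_log hL0, ← hu] at s5
  have s6 : Chebyshev.theta L / (L * u) = (1 + eT u) / u := by
    unfold eT
    rw [hu, Real.exp_log hL0, Real.exp_neg, Real.exp_log hL0, ← hu]
    field_simp
    ring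
  have s7 := sum_filter_add_sum_filter_not n.primeFactors (fun p => p ≤ ⌊L⌋₊) (fun p => ell p - wR L p - mR L p)
  have s8 : (1 + eT u) / u = 1 / u + eT u / u := add_div _ _ _
  linarith

end Q204.NA
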