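import Pool.Agent.Q204.NA.Rb4

set_option autoImplicit false

/-! # The theorem of Robin: finitely many exceptions under the Riemann hypothesis -/

open Finset Filter Topology
open Q239.RN

namespace Q204.NA

theorem theta_tendsto {a : ℝ} (ha : 0 < a) :
    Tendsto (fun X : ℝ => Chebyshev.theta (a * X) / X) atTop (𝓝 a) := by
  have h1 : Tendsto eT atTop (𝓝 0) := by
    obtain ⟨C, hC, h⟩ := eT_pnt 1
    exact tendsto_zero_of_inv h
  have h2 : Tendsto (fun X : ℝ => Real.log (a * X)) atTop atTop :=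
    Real.tendsto_log_atTop.comp (tendsto_id.const_mul_atTop ha)
  have h3 : Tendsto (fun X : ℝ => a * (1 + eT (Real.log (a * X)))) atTop (𝓝 (a * (1 + 0))) :=
    ((h1.comp h2).const_add 1).const_mul a
  rw [add_zero, mul_one] at h3
  refine h3.congr' ?_
  filter_upwards [eventually_gt_atTop 0] with X hX
  have haX : 0 < a * X := by positivity
  unfold eT
  rw [Real.exp_log haX, Real.exp_neg, Real.exp_log haX]
  field_simp
  ring

theorem log_ratio_tendsto {b : ℝ} (hb : 0 < b) :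
    Tendsto (fun X : ℝ => Real.log X / Real.log (b * X)) atTop (𝓝 1) := by
  have h1 : Tendsto (fun X : ℝ => (1 + Real.log b / Real.log X)⁻¹) atTop (𝓝 ((1 + 0)⁻¹)) := by
    refine Tendsto.inv₀ ?_ (by norm_num)
    exact (tendsto_const_nhds.div_atTop Real.tendsto_log_atTop).const_add 1
  rw [add_zero, inv_one] at h1
  refine h1.congr' ?_
  filter_upwards [Real.tendsto_log_atTop.eventually_gt_atTop 0, eventually_gt_atTop 0] with X h2 h3
  rw [Real.log_mul hb.ne' h3.ne']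
  have e : 1 + Real.log b / Real.log X = (Real.log b + Real.log X) / Real.log X := by
    field_simp
    ring
  rw [e, inv_div]

/-- the contribution of a block -/
noncomputable def blk (b b' X : ℝ) : ℝ :=
  (Chebyshev.theta (b' * X) / X - Chebyshev.theta (b * X) / X) * (2 * (Real.log X / Real.log (b' * X))) / b' ^ 2

theorem blk_tendsto {b b' : ℝ} (hb : 0 < b) (hb' : 0 < b') :
    Tendsto (fun X : ℝ => blk b b' X) atTop (𝓝 ((b' - b) * 2 / b' ^ 2)) := by
  unfold blk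
  have h := (((theta_tendsto hb').sub (theta_tendsto hb)).mul ((log_ratio_tendsto hb').const_mul 2)).div_const (b' ^ 2)
  simpa using h

/-- the sum of the losses -/
noncomputable def SR (X : ℝ) (N : ℕ) : ℝ := ∑ p ∈ PS N, mR (X ^ 2) p

theorem SR_mono {X : ℝ} (hX : 1 < X) {a b : ℕ} (hab : a ≤ b) : SR X a ≤ SR X b :=
  sum_le_sum_of_subset_of_nonneg (PS_mono hab) fun p _ _ => mR_nonneg (by nlinarith) p

theorem SR_blk {b b' X : ℝ} (hb : 1.42 ≤ b) (hb' : b ≤ b') (hX : 1 < X) :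
    blk b b' X ≤ X * Real.log (X ^ 2) * (SR X ⌊b' * X⌋₊ - SR X ⌊b * X⌋₊) := by
  have hX0 : 0 < X := by linarith
  have hlX : 0 < Real.log X := Real.log_pos hX
  have hab : ⌊b * X⌋₊ ≤ ⌊b' * X⌋₊ := Nat.floor_le_floor (by gcongr)
  have hb0 : 0 < b := by linarith
  have hb'0 : 0 < b' := by linarith
  have hlog2 : Real.log (X ^ 2) = 2 * Real.log X := by rw [Real.log_pow]; norm_num
  have hl' : 0 < Real.log (b' * X) := Real.log_pos (by nlinarith)
  have h1 : SR X ⌊b' * X⌋₊ - SR X ⌊b * X⌋₊ = ∑ p ∈ PS ⌊b' * X⌋₊ \ PS ⌊b * X⌋₊, mR (X ^ 2) p := by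
    unfold SR
    rw [← sum_sdiff (PS_mono hab)]
    ring
  have h2 : ∀ p ∈ PS ⌊b' * X⌋₊ \ PS ⌊b * X⌋₊, 1 / (b' * X) ^ 2 ≤ mR (X ^ 2) p := by
    intro p hp
    rw [Finset.mem_sdiff, mem_PS, mem_PS] at hp
    obtain ⟨⟨hp1, hp2⟩, hp3⟩ := hp
    have hp4 : b * X < p := by
      have h3 : ⌊b * X⌋₊ < p := by
        by_contra h4
        exact hp3 ⟨hp1, not_lt.1 h4⟩
      exact (Nat.floor_lt (by positivity)).1 h3
    have hp5 : (p : ℝ) ≤ b' * X := le_trans (by exact_mod_cast hp2) (Nat.floor_le (by positivity))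
    have hp0 : (0 : ℝ) < p := by exact_mod_cast hp1.pos
    have h3 : 1 / (b' * X) ^ 2 ≤ 1 / (p : ℝ) ^ 2 := by
      apply one_div_le_one_div_of_le (by positivity)
      gcongr
    refine h3.trans (le_min le_rfl ?_)
    unfold wR
    rw [hlog2, div_le_div_iff₀ (by positivity) (by positivity)]
    have h4 : Real.log X ≤ Real.log p := by
      apply Real.log_le_log hX0
      nlinarith
    have h5 : 2 * X ^ 2 ≤ (p : ℝ) ^ 2 := by
      have h6 : 1.42 * X ≤ p := le_trans (by gcongr) hp4.le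
      calc 2 * X ^ 2 ≤ (1.42 * X) ^ 2 := by nlinarith [sq_nonneg X]
        _ ≤ (p : ℝ) ^ 2 := by gcongr
    calc 1 * (X ^ 2 * (2 * Real.log X)) = (2 * X ^ 2) * Real.log X := by ring
      _ ≤ (p : ℝ) ^ 2 * Real.log p := by gcongr
      _ = Real.log p * (p : ℝ) ^ 2 := by ring
  have h3 := card_nsmul_le_sum _ _ _ h2
  rw [nsmul_eq_mul, ← h1] at h3
  have h4 : Chebyshev.theta (b' * X) - Chebyshev.theta (b * X) ≤
      (PS ⌊b' * X⌋₊ \ PS ⌊b * X⌋₊).card * Real.log (b' * X) := by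
    rw [Chebyshev.theta_eq_theta_coe_floor (b' * X), Chebyshev.theta_eq_theta_coe_floor (b * X)]
    refine (card_theta hab).trans ?_
    gcongr
    · have : 1 ≤ ⌊b' * X⌋₊ := Nat.le_floor (by push_cast; nlinarith)
      exact_mod_cast this
    · exact Nat.floor_le (by positivity)
  set c : ℝ := ((PS ⌊b' * X⌋₊ \ PS ⌊b * X⌋₊).card : ℝ) with hc
  have h5 : (Chebyshev.theta (b' * X) - Chebyshev.theta (b * X)) / Real.log (b' * X) ≤ c := by
    rw [div_le_iff₀ hl']
    exact h4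
  have h6 : blk b b' X = X * Real.log (X ^ 2) * ((Chebyshev.theta (b' * X) - Chebyshev.theta (b * X)) /
      Real.log (b' * X) * (1 / (b' * X) ^ 2)) := by
    unfold blk
    rw [hlog2]
    field_simp
  rw [h6, hlog2]
  have h7 : (Chebyshev.theta (b' * X) - Chebyshev.theta (b * X)) / Real.log (b' * X) * (1 / (b' * X) ^ 2) ≤
      SR X ⌊b' * X⌋₊ - SR X ⌊b * X⌋₊ := by
    refine le_trans ?_ h3
    gcongr
  gcongr

theorem SR_base {X : ℝ} (hX : 1 < X) (hX2 : 1.69 * Real.log (1.3 * X) ≤ 2 * Real.log X) :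
    X * Real.log (X ^ 2) * SR X ⌊1.3 * X⌋₊ = Chebyshev.theta (1.3 * X) / X := by
  have hX0 : 0 < X := by linarith
  have hlX : 0 < Real.log X := Real.log_pos hX
  have hlog2 : Real.log (X ^ 2) = 2 * Real.log X := by rw [Real.log_pow]; norm_num
  have h1 : SR X ⌊1.3 * X⌋₊ = ∑ p ∈ PS ⌊1.3 * X⌋₊, wR (X ^ 2) p := by
    refine sum_congr rfl fun p hp => min_eq_right ?_
    obtain ⟨hp1, hp2⟩ := mem_PS.1 hp
    have hp5 : (p : ℝ) ≤ 1.3 * X := le_trans (by exact_mod_cast hp2) (Nat.floor_le (by positivity))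
    have hp0 : (0 : ℝ) < p := by exact_mod_cast hp1.pos
    have hpl : 0 ≤ Real.log p := Real.log_natCast_nonneg p
    unfold wR
    rw [hlog2, div_le_div_iff₀ (by positivity) (by positivity)]
    have h4 : Real.log p ≤ Real.log (1.3 * X) := Real.log_le_log hp0 hp5
    have h5 : (p : ℝ) ^ 2 ≤ 1.69 * X ^ 2 := by
      calc (p : ℝ) ^ 2 ≤ (1.3 * X) ^ 2 := by gcongr
        _ = _ := by ring
    calc Real.log p * (p : ℝ) ^ 2 ≤ Real.log (1.3 * X) * (1.69 * X ^ 2) := by
          gcongr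
          exact hpl.trans h4
      _ = (1.69 * Real.log (1.3 * X)) * X ^ 2 := by ring
      _ ≤ (2 * Real.log X) * X ^ 2 := by gcongr
      _ = _ := by ring
  have h2 : Chebyshev.theta (1.3 * X) = ∑ p ∈ PS ⌊1.3 * X⌋₊, Real.log p := by
    rw [Chebyshev.theta_eq_theta_coe_floor, theta_PS]
  rw [h1, h2, hlog2]
  unfold wR
  rw [← sum_div, hlog2]
  field_simp

/-- the breakpoints -/
noncomputable def bp (i : ℕ) : ℝ := 1.42 * 1.25 ^ i

theorem bp_mono (i : ℕ) : bp i ≤ bp (i + 1) := by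
  unfold bp
  rw [pow_succ]
  have : (0 : ℝ) < 1.25 ^ i := by positivity
  nlinarith

theorem bp_ge (i : ℕ) : 1.42 ≤ bp i := by
  unfold bp
  have : (1 : ℝ) ≤ 1.25 ^ i := one_le_pow₀ (by norm_num)
  nlinarith

/-- the total loss -/
theorem loss_ge : ∀ᶠ X : ℝ in atTop, 2.34 ≤ X * Real.log (X ^ 2) * SR X ⌊X ^ 2 / 2⌋₊ := by
  have h1 : Tendsto (fun X : ℝ => Chebyshev.theta (1.3 * X) / X + ∑ i ∈ range 12, blk (bp i) (bp (i + 1)) X) atTop
      (𝓝 (1.3 + ∑ i ∈ range 12, (bp (i + 1) - bp i) * 2 / bp (i + 1) ^ 2)) := by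
    refine (theta_tendsto (by norm_num)).add (tendsto_finsetSum _ fun i _ => blk_tendsto ?_ ?_)
    · linarith [bp_ge i]
    · linarith [bp_ge (i + 1)]
  have h2 : (2.34 : ℝ) < 1.3 + ∑ i ∈ range 12, (bp (i + 1) - bp i) * 2 / bp (i + 1) ^ 2 := by
    unfold bp
    norm_num [Finset.sum_range_succ]
  have h3 : ∀ᶠ X : ℝ in atTop, 1.69 * Real.log (1.3 * X) ≤ 2 * Real.log X := by
    filter_upwards [Real.tendsto_log_atTop.eventually_ge_atTop (1.69 * Real.log 1.3 / 0.31),
      eventually_gt_atTop 0] with X a1 a2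
    rw [Real.log_mul (by norm_num) a2.ne']
    rw [div_le_iff₀ (by norm_num)] at a1
    linarith
  filter_upwards [h1.eventually (lt_mem_nhds h2), h3, eventually_gt_atTop 1,
    eventually_ge_atTop (2 * bp 12 + 2)] with X a1 a2 a3 a4
  refine a1.le.trans ?_
  have hX0 : 0 < X := by linarith
  have hlX : 0 < Real.log X := Real.log_pos a3
  have hlog2 : Real.log (X ^ 2) = 2 * Real.log X := by rw [Real.log_pow]; norm_num
  have hc : 0 ≤ X * Real.log (X ^ 2) := by rw [hlog2]; positivity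
  rw [← SR_base a3 a2]
  have h4 : ∑ i ∈ range 12, blk (bp i) (bp (i + 1)) X ≤
      X * Real.log (X ^ 2) * (SR X ⌊bp 12 * X⌋₊ - SR X ⌊bp 0 * X⌋₊) := by
    rw [← Finset.sum_range_sub (fun i => SR X ⌊bp i * X⌋₊), mul_sum]
    exact sum_le_sum fun i _ => SR_blk (bp_ge i) (bp_mono i) a3
  have h5 : SR X ⌊1.3 * X⌋₊ ≤ SR X ⌊bp 0 * X⌋₊ := by
    apply SR_mono a3
    apply Nat.floor_le_floor
    have := bp_ge 0
    nlinarith
  have h6 : SR X ⌊bp 12 * X⌋₊ ≤ SR X ⌊X ^ 2 / 2⌋₊ := by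
    apply SR_mono a3
    apply Nat.floor_le_floor
    nlinarith
  have h7 : X * Real.log (X ^ 2) * SR X ⌊1.3 * X⌋₊ ≤ X * Real.log (X ^ 2) * SR X ⌊bp 0 * X⌋₊ := by gcongr
  have h8 : X * Real.log (X ^ 2) * SR X ⌊bp 12 * X⌋₊ ≤ X * Real.log (X ^ 2) * SR X ⌊X ^ 2 / 2⌋₊ := by gcongr
  rw [mul_sub] at h4
  linarith

theorem cz_zero_lt' (hRH : RiemannHypothesis) (hc : SConst) : cz 0 < 2.281 := by
  rw [cz_zero hRH hc]
  have h1 := Real.eulerMascheroniConstant_lt_two_thirds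
  have h2 : 2.386 < Real.log (4 * Real.pi) := by
    rw [Real.log_mul (by norm_num) Real.pi_pos.ne']
    have h3 : Real.log 4 = 2 * Real.log 2 := by
      have : (4 : ℝ) = 2 ^ 2 := by norm_num
      rw [this, Real.log_pow]
      norm_num
    have h4 := Real.log_two_gt_d9
    have h5 : 1 < Real.log Real.pi := by
      rw [Real.lt_log_iff_exp_lt Real.pi_pos]
      have := Real.exp_one_lt_d9
      have := Real.pi_gt_three
      linarith
    rw [h3]
    linarith
  norm_num at *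
  linarith

/-- **the theorem of Robin**: under the Riemann hypothesis there are finitely many exceptions -/
theorem robin_finite (hc : SConst) (hAs : SAsym) (hA : ∀ t : ℝ, |cz t - 2| ≤ cz 0 - 2)
    (hRH : RiemannHypothesis) : ∀ᶠ n : ℕ in atTop, ¬ RobEx n := by
  have hsq : Tendsto Real.sqrt atTop atTop := by
    exact Real.tendsto_sqrt_atTop
  have hcz := cz_zero_lt' hRH hc
  have h1 : ∀ᶠ u : ℝ in atTop, u * Real.exp (u / 2) * kT u ≤ cz u + 0.02 := by
    filter_upwards [(hAs hRH).eventually (gt_mem_nhds (show (0 : ℝ) < 0.02 by norm_num))] with u hu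
    linarith
  have h2 : ∀ᶠ u : ℝ in atTop, u * Real.exp (u / 2) * (2 / Real.exp u ^ 2) ≤ 0.02 := by
    have h3 : Tendsto (fun u : ℝ => 2 * (u / Real.exp (3 / 2 * u))) atTop (𝓝 (2 * 0)) := by
      have h4 := (isLittleO_pow_exp_pos_mul_atTop 1 (show (0 : ℝ) < 3 / 2 by norm_num)).tendsto_div_nhds_zero
      simp only [pow_one] at h4
      exact h4.const_mul 2
    rw [mul_zero] at h3
    filter_upwards [h3.eventually (gt_mem_nhds (show (0 : ℝ) < 0.02 by norm_num))] with u hu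
    refine le_trans (le_of_eq ?_) hu.le
    have h4 : Real.exp u ^ 2 = Real.exp (3 / 2 * u) * Real.exp (u / 2) := by
      rw [← Real.exp_nat_mul, ← Real.exp_add]; congr 1; push_cast; ring
    rw [h4]
    have := Real.exp_pos (3 / 2 * u)
    have := Real.exp_pos (u / 2)
    field_simp
  have hL : Tendsto (fun n : ℕ => Real.log (n : ℝ)) atTop atTop :=
    Real.tendsto_log_atTop.comp tendsto_natCast_atTop_atTop
  have hu : Tendsto (fun n : ℕ => Real.log (Real.log (n : ℝ))) atTop atTop := Real.tendsto_log_atTop.comp hL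
  filter_upwards [hu.eventually h1, hu.eventually h2, hL.eventually_ge_atTop 10, eventually_ge_atTop 3,
    (hsq.comp hL).eventually loss_ge] with n a1 a2 a3 a4 a5 hex
  simp only [Function.comp] at a5
  set L := Real.log (n : ℝ) with hLdef
  have hL0 : 0 < L := by linarith
  have hsqL : Real.sqrt L ^ 2 = L := Real.sq_sqrt hL0.le
  rw [hsqL] at a5
  have hab := abund_le a4 rfl a3
  rw [robEx_iff a4] at hex
  rw [← hLdef] at hex hab
  set u := Real.log L with hudef
  have hexp : Real.exp (u / 2) = Real.sqrt L := by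
    rw [Real.exp_half, hudef, Real.exp_log hL0]
  have hexpu : Real.exp u = L := Real.exp_log hL0
  rw [hexp] at a1 a2
  rw [hexpu] at a2
  have hu0 : 0 < u := Real.log_pos (by linarith)
  have hS : SR (Real.sqrt L) ⌊L / 2⌋₊ = ∑ p ∈ PS ⌊L / 2⌋₊, mR L p := by
    unfold SR
    rw [hsqL]
  rw [hS] at a5
  have h3 : ∑ p ∈ PS ⌊L / 2⌋₊, mR L p ≤ kT u + 2 / L ^ 2 := by linarith
  have h4 : Real.sqrt L * u * (∑ p ∈ PS ⌊L / 2⌋₊, mR L p) ≤ Real.sqrt L * u * (kT u + 2 / L ^ 2) := by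
    gcongr
  have h5 := cz_le hA u
  have e1 : Real.sqrt L * u * (kT u + 2 / L ^ 2) = u * Real.sqrt L * kT u + u * Real.sqrt L * (2 / L ^ 2) := by
    ring
  rw [e1] at h4
  norm_num at *
  linarith

end Q204.NA
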