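import Pool.Agent.Q239.RN.Mert2

set_option autoImplicit false

/-! # Sharp upper bound for the number of exceptions on one level: Rankin's method -/

open Finset
open Q239.RN

namespace Q204.NA

/-- the sharp benefit inequality -/
theorem benefit2 {n j : ℕ} (hn : NicEx n) (hj : 100 ≤ j) (h1 : (j : ℝ) - 1 < Real.log n)
    (h2 : Real.log n ≤ j) :
    ∑ p ∈ PS j \ n.primeFactors, (ell p - Real.log p / (j * Real.log j)) +
      ∑ p ∈ n.primeFactors \ PS j, (Real.log p / (j * Real.log j) - ell p) +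
      Real.log (cof n) / (j * Real.log j) ≤ kT (Real.log j) + 1 / j := by
  have hn3 := hn.1
  rw [nicEx_iff hn3] at hn
  have h100 : (100 : ℝ) ≤ j := by exact_mod_cast hj
  have hlj : 2 ≤ Real.log j := (log_big hj).trans (Real.log_le_log (by linarith) (by linarith))
  have hM := (mertens_exact (u := Real.log j) (by linarith)).1
  rw [floor_exp_log (by omega : 1 ≤ j)] at hM
  have hT := theta_eq_eT (j := j) (by omega)
  set lam : ℝ := 1 / (j * Real.log j) with hlam
  have hlam0 : 0 < lam := by rw [hlam]; positivity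
  have e0 : ∀ x : ℝ, x / (j * Real.log j) = lam * x := by intro x; rw [hlam]; ring
  simp only [e0]
  have e1 := Finset.sum_sdiff_sub_sum_sdiff (s₁ := n.primeFactors) (s₂ := PS j) (f := fun p : ℕ => ell p)
  have e2 := Finset.sum_sdiff_sub_sum_sdiff (s₁ := n.primeFactors) (s₂ := PS j) (f := fun p : ℕ => Real.log p)
  rw [Finset.sum_sub_distrib, Finset.sum_sub_distrib, ← Finset.mul_sum, ← Finset.mul_sum]
  have e3 := log_cof (n := n) (by omega)
  have e4 := theta_PS j
  have e5 : SL j = ∑ p ∈ PS j, ell p := rfl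
  have e6 := loglog_near hj h1
  have e8 : (∑ p ∈ PS j \ n.primeFactors, ell p - lam * ∑ p ∈ PS j \ n.primeFactors, Real.log p) +
      (lam * ∑ p ∈ n.primeFactors \ PS j, Real.log p - ∑ p ∈ n.primeFactors \ PS j, ell p) +
      lam * Real.log (cof n) = (∑ p ∈ PS j, ell p - ∑ p ∈ n.primeFactors, ell p) +
        lam * (Real.log n - Chebyshev.theta j) := by
    rw [e4, e3, ← e1]
    have e9 : ∑ p ∈ n.primeFactors, Real.log (p : ℝ) = ∑ p ∈ PS j, Real.log (p : ℝ) -
      (∑ p ∈ PS j \ n.primeFactors, Real.log (p : ℝ) - ∑ p ∈ n.primeFactors \ PS j, Real.log (p : ℝ)) := by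
      rw [e2]; ring
    rw [e9]
    ring
  rw [e8]
  rw [e5] at hM
  have e10 : lam * (Real.log n - Chebyshev.theta j) ≤ -(eT (Real.log j) / Real.log j) := by
    have a1 : Real.log n - Chebyshev.theta j ≤ -(j * eT (Real.log j)) := by linarith
    calc lam * (Real.log n - Chebyshev.theta j) ≤ lam * -(j * eT (Real.log j)) :=
          mul_le_mul_of_nonneg_left a1 hlam0.le
      _ = _ := by rw [hlam]; field_simp
  linarith

/-- the distance of a prime to the level -/
noncomputable def xx (j p : ℕ) : ℝ := if p ≤ j then (j : ℝ) - p else ((p : ℝ) - 1 - j) * j / (p - 1)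

theorem xx_nonneg {j p : ℕ} (hp : p.Prime) : 0 ≤ xx j p := by
  unfold xx
  split_ifs with h
  · have : (p : ℝ) ≤ j := by exact_mod_cast h
    linarith
  · have h1 : (j : ℝ) + 1 ≤ p := by exact_mod_cast (by omega : j + 1 ≤ p)
    have h2 := prime_gt hp
    have h3 : (0 : ℝ) ≤ j := Nat.cast_nonneg j
    exact div_nonneg (mul_nonneg (by linarith) h3) (by linarith)

/-- the changed primes up to `2 j` -/
def Sn (j n : ℕ) : Finset ℕ := (PS j \ n.primeFactors) ∪ n.primeFactors.filter (fun p => j < p ∧ p ≤ 2 * j)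

theorem Sn_sub (j n : ℕ) : Sn j n ⊆ PS (2 * j) := by
  intro p hp
  rw [mem_PS]
  unfold Sn at hp
  rw [mem_union, mem_sdiff, mem_PS, mem_filter] at hp
  rcases hp with ⟨⟨h1, h2⟩, -⟩ | ⟨h1, -, h2⟩
  · exact ⟨h1, by omega⟩
  · exact ⟨Nat.prime_of_mem_primeFactors h1, h2⟩

/-- the prime factors are determined by the data -/
theorem recover2 (j n : ℕ) : n.primeFactors =
    (PS j \ Sn j n) ∪ (Sn j n \ PS j) ∪ (Mn j n).primeFactors := by
  rw [Mn_factors]
  ext p
  simp only [mem_union, mem_sdiff, mem_PS, Sn, mem_filter]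
  constructor
  · intro h
    have hp := Nat.prime_of_mem_primeFactors h
    by_cases h1 : p ≤ j
    · left; left
      refine ⟨⟨hp, h1⟩, ?_⟩
      rintro (⟨-, h2⟩ | ⟨-, h2, -⟩)
      · exact h2 h
      · omega
    · by_cases h2 : p ≤ 2 * j
      · left; right
        exact ⟨Or.inr ⟨h, by omega, h2⟩, fun h3 => h1 h3.2⟩
      · right
        exact ⟨h, by omega⟩
  · rintro ((⟨⟨h1, h2⟩, h3⟩ | ⟨h1 | h1, h2⟩) | ⟨h1, -⟩)
    · by_contra h4
      exact h3 (Or.inl ⟨⟨h1, h2⟩, h4⟩)
    · exact absurd h1.1 h2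
    · exact h1.1
    · exact h1

theorem Mn_pos (j n : ℕ) : 1 ≤ Mn j n := by
  have : 0 < Mn j n := by
    unfold Mn
    exact Finset.prod_pos fun p hp => (Nat.prime_of_mem_primeFactors (Finset.mem_of_mem_filter p hp)).pos
  exact this

theorem log_Mn (j n : ℕ) : Real.log (Mn j n) =
    ∑ p ∈ n.primeFactors.filter (fun p => 2 * j < p), Real.log (p : ℝ) := by
  unfold Mn
  rw [Nat.cast_prod, Real.log_prod]
  intro p hp
  have := prime_gt (Nat.prime_of_mem_primeFactors (Finset.mem_of_mem_filter p hp))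
  positivity

/-- the budget inequality -/
theorem budget {n j : ℕ} (hn : NicEx n) (hj : 100 ≤ j) (h1 : (j : ℝ) - 1 < Real.log n)
    (h2 : Real.log n ≤ j) :
    ∑ p ∈ Sn j n, xx j p + j / (2 * Real.log j) * (Real.log (Mn j n) + Real.log (cof n)) ≤
      (j : ℝ) ^ 2 * (kT (Real.log j) + 1 / j) := by
  have h100 : (100 : ℝ) ≤ j := by exact_mod_cast hj
  have hlj : 2 ≤ Real.log j := (log_big hj).trans (Real.log_le_log (by linarith) (by linarith))
  have hb := benefit2 hn hj h1 h2
  have hj2 : (0 : ℝ) < (j : ℝ) ^ 2 := by positivity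
  have hn0 : n ≠ 0 := by have := hn.1; omega
  refine le_trans ?_ (mul_le_mul_of_nonneg_left hb hj2.le)
  -- split
  have s1 : ∑ p ∈ Sn j n, xx j p = ∑ p ∈ PS j \ n.primeFactors, xx j p +
      ∑ p ∈ n.primeFactors.filter (fun p => j < p ∧ p ≤ 2 * j), xx j p := by
    unfold Sn
    rw [sum_union]
    rw [Finset.disjoint_left]
    intro p hp hp'
    rw [mem_sdiff] at hp
    rw [mem_filter] at hp'
    exact hp.2 hp'.1
  have s2 : n.primeFactors \ PS j = n.primeFactors.filter (fun p => j < p ∧ p ≤ 2 * j) ∪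
      n.primeFactors.filter (fun p => 2 * j < p) := by
    ext p
    simp only [mem_sdiff, mem_PS, mem_union, mem_filter]
    constructor
    · rintro ⟨h3, h4⟩
      have h5 : j < p := by
        by_contra h6
        exact h4 ⟨Nat.prime_of_mem_primeFactors h3, by omega⟩
      by_cases h6 : p ≤ 2 * j
      · exact Or.inl ⟨h3, h5, h6⟩
      · exact Or.inr ⟨h3, by omega⟩
    · rintro (⟨h3, h4, -⟩ | ⟨h3, h4⟩)
      · exact ⟨h3, fun h5 => by omega⟩
      · exact ⟨h3, fun h5 => by omega⟩
  have s3 : ∑ p ∈ n.primeFactors \ PS j, (Real.log p / (j * Real.log j) - ell p) =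
      ∑ p ∈ n.primeFactors.filter (fun p => j < p ∧ p ≤ 2 * j), (Real.log p / (j * Real.log j) - ell p) +
      ∑ p ∈ n.primeFactors.filter (fun p => 2 * j < p), (Real.log p / (j * Real.log j) - ell p) := by
    rw [s2, sum_union]
    rw [Finset.disjoint_left]
    intro p hp hp'
    rw [mem_filter] at hp hp'
    omega
  have t1 : ∑ p ∈ PS j \ n.primeFactors, xx j p ≤
      (j : ℝ) ^ 2 * ∑ p ∈ PS j \ n.primeFactors, (ell p - Real.log p / (j * Real.log j)) := by
    rw [mul_sum]
    refine sum_le_sum fun p hp => ?_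
    rw [mem_sdiff, mem_PS] at hp
    have h3 := term_low hp.1.1 hp.1.2 hj
    have h4 : xx j p = (j : ℝ) ^ 2 * (((j : ℝ) - p) / (j * j)) := by
      unfold xx
      rw [if_pos hp.1.2]
      field_simp
    rw [h4]
    exact mul_le_mul_of_nonneg_left h3 hj2.le
  have t2 : ∑ p ∈ n.primeFactors.filter (fun p => j < p ∧ p ≤ 2 * j), xx j p ≤
      (j : ℝ) ^ 2 * ∑ p ∈ n.primeFactors.filter (fun p => j < p ∧ p ≤ 2 * j),
        (Real.log p / (j * Real.log j) - ell p) := by
    rw [mul_sum]
    refine sum_le_sum fun p hp => ?_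
    rw [mem_filter] at hp
    have hpp := Nat.prime_of_mem_primeFactors hp.1
    have h3 := term_high hpp hp.2.1 hj
    have h5 : (j : ℝ) + 1 ≤ p := by exact_mod_cast (by omega : j + 1 ≤ p)
    have h4 : xx j p = (j : ℝ) ^ 2 * (((p : ℝ) - 1 - j) / (j * (p - 1))) := by
      unfold xx
      rw [if_neg (by omega)]
      have : (p : ℝ) - 1 ≠ 0 := by linarith
      field_simp
    rw [h4]
    exact mul_le_mul_of_nonneg_left h3 hj2.le
  have t3 : j / (2 * Real.log j) * Real.log (Mn j n) ≤
      (j : ℝ) ^ 2 * ∑ p ∈ n.primeFactors.filter (fun p => 2 * j < p),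
        (Real.log p / (j * Real.log j) - ell p) := by
    rw [log_Mn, mul_sum, mul_sum]
    refine sum_le_sum fun p hp => ?_
    rw [mem_filter] at hp
    have hpp := Nat.prime_of_mem_primeFactors hp.1
    have h3 := term_huge hpp hp.2 hj
    have h4 : j / (2 * Real.log j) * Real.log (p : ℝ) = (j : ℝ) ^ 2 * (Real.log p / (2 * j * Real.log j)) := by
      field_simp
    rw [h4]
    exact mul_le_mul_of_nonneg_left h3 hj2.le
  have t4 : j / (2 * Real.log j) * Real.log (cof n) ≤ (j : ℝ) ^ 2 * (Real.log (cof n) / (j * Real.log j)) := by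
    have h3 : 0 ≤ Real.log (cof n) := Real.log_nonneg (by exact_mod_cast cof_pos hn0)
    have h4 : (j : ℝ) ^ 2 * (Real.log (cof n) / (j * Real.log j)) =
        2 * (j / (2 * Real.log j) * Real.log (cof n)) := by
      field_simp
    rw [h4]
    have : 0 ≤ j / (2 * Real.log j) * Real.log (cof n) := by positivity
    linarith
  rw [s1, s3, mul_add, mul_add, mul_add, mul_add]
  linarith

theorem sum_rpow_le {σ : ℝ} (hσ : 2 ≤ σ) (X : ℕ) : ∑ m ∈ Finset.Icc 1 X, Real.exp (-(σ * Real.log m)) ≤ 2 := by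
  have h1 : ∀ m ∈ Finset.Icc 1 X, Real.exp (-(σ * Real.log m)) ≤ 1 / (m : ℝ) ^ 2 := by
    intro m hm
    rw [Finset.mem_Icc] at hm
    have hm1 : (1 : ℝ) ≤ m := by exact_mod_cast hm.1
    have hm0 : (0 : ℝ) < m := by linarith
    have h2 : 0 ≤ Real.log m := Real.log_nonneg hm1
    calc Real.exp (-(σ * Real.log m)) ≤ Real.exp (-(2 * Real.log m)) := by
          apply Real.exp_le_exp.2; nlinarith
      _ = 1 / (m : ℝ) ^ 2 := by
          rw [Real.exp_neg, show 2 * Real.log (m:ℝ) = Real.log m + Real.log m by ring, Real.exp_add,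
            Real.exp_log hm0]
          rw [one_div, sq]
  refine (sum_le_sum h1).trans ?_
  have h3 : ∀ X : ℕ, ∑ m ∈ Finset.Icc 1 (X + 1), 1 / (m : ℝ) ^ 2 ≤ 2 - 1 / ((X : ℝ) + 1) := by
    intro X
    induction X with
    | zero => norm_num
    | succ k ih =>
      rw [Finset.sum_Icc_succ_top (by omega)]
      have h4 : 1 / ((k + 1 + 1 : ℕ) : ℝ) ^ 2 ≤ 1 / ((k : ℝ) + 1) - 1 / (((k + 1 : ℕ) : ℝ) + 1) := by
        push_cast
        have hk : (0 : ℝ) ≤ k := Nat.cast_nonneg k
        have h5 : 1 / ((k : ℝ) + 1) - 1 / ((k : ℝ) + 1 + 1) = 1 / (((k : ℝ) + 1) * (k + 1 + 1)) := by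
          field_simp
          ring
        rw [h5]
        apply one_div_le_one_div_of_le (by positivity)
        nlinarith
      linarith
  rcases X with _ | X
  · simp
  · have := h3 X
    have h6 : 0 ≤ 1 / ((X : ℝ) + 1) := by positivity
    linarith

end Q204.NA
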