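import Pool.Agent.Q204.NA.Up1

set_option autoImplicit false

/-! # Rankin's inequality on one level -/

open Finset
open Q239.RN

namespace Q204.NA

theorem rankin {j : ℕ} {b : ℝ} (hj : 100 ≤ j) (hb : 0 < b) (hb2 : 4 * Real.log j ≤ b * j) :
    ((Lev j).card : ℝ) ≤ 4 * Real.exp (b * ((j : ℝ) ^ 2 * (kT (Real.log j) + 1 / j)) +
      ∑ p ∈ PS (2 * j), Real.log (1 + Real.exp (-(b * xx j p)))) := by
  classical
  have h100 : (100 : ℝ) ≤ j := by exact_mod_cast hj
  have hlj : 2 ≤ Real.log j := (log_big hj).trans (Real.log_le_log (by linarith) (by linarith))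
  set B : ℝ := (j : ℝ) ^ 2 * (kT (Real.log j) + 1 / j) with hB
  set σ : ℝ := b * (j / (2 * Real.log j)) with hσ
  have hσ2 : 2 ≤ σ := by
    rw [hσ, ← mul_div_assoc, le_div_iff₀ (by positivity)]
    linarith
  set X : ℕ := ⌊Real.exp j⌋₊ with hX
  -- the weight
  set w : Finset ℕ × ℕ × ℕ → ℝ := fun q => (∏ p ∈ q.1, Real.exp (-(b * xx j p))) *
    (Real.exp (-(σ * Real.log q.2.1)) * Real.exp (-(σ * Real.log q.2.2))) with hw
  have hwpos : ∀ q, 0 ≤ w q := fun q => by
    simp only [hw]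
    positivity
  have step1 : ∀ n ∈ Lev j, 1 ≤ Real.exp (b * B) * w (Sn j n, Mn j n, cof n) := by
    intro n hn
    rw [mem_Lev] at hn
    have h := budget hn.1 hj hn.2.1 hn.2.2
    simp only [hw]
    rw [← Real.exp_sum, ← Real.exp_add, ← Real.exp_add, ← Real.exp_add]
    rw [Real.one_le_exp_iff]
    rw [← hB] at h
    have h2 := mul_le_mul_of_nonneg_left h hb.le
    rw [mul_add, mul_sum] at h2
    rw [sum_neg_distrib]
    have h3 : b * (j / (2 * Real.log j) * (Real.log (Mn j n) + Real.log (cof n))) =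
        σ * Real.log (Mn j n) + σ * Real.log (cof n) := by rw [hσ]; ring
    linarith
  have hinj : Set.InjOn (fun n => (Sn j n, Mn j n, cof n)) (Lev j : Set ℕ) := by
    intro n _ m _ hnm
    simp only [Prod.mk.injEq] at hnm
    obtain ⟨e1, e2, e3⟩ := hnm
    have hf : n.primeFactors = m.primeFactors := by
      rw [recover2 j n, recover2 j m, e1, e2]
    rw [← cof_mul n, ← cof_mul m, hf, e3]
  set Big : Finset (Finset ℕ × ℕ × ℕ) := (PS (2 * j)).powerset ×ˢ (Finset.Icc 1 X ×ˢ Finset.Icc 1 X) with hBig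
  have hmaps : ∀ n ∈ Lev j, (Sn j n, Mn j n, cof n) ∈ Big := by
    intro n hn
    rw [mem_Lev] at hn
    have hn0 : n ≠ 0 := by have := hn.1.1; omega
    have hnX : n ≤ X := by
      have h5 : (0 : ℝ) < n := by exact_mod_cast (by have := hn.1.1; omega : 0 < n)
      exact Nat.le_floor ((Real.log_le_iff_le_exp h5).1 hn.2.2)
    rw [hBig, mem_product, mem_product, mem_powerset, Finset.mem_Icc, Finset.mem_Icc]
    refine ⟨Sn_sub j n, ⟨Mn_pos j n, ?_⟩, cof_pos hn0, ?_⟩
    · refine le_trans (Nat.le_of_dvd (by omega) ?_) hnX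
      unfold Mn
      refine (Finset.prod_dvd_prod_of_subset (n.primeFactors.filter (fun p => 2 * j < p)) n.primeFactors
        (fun p => p) (Finset.filter_subset _ _)).trans ?_
      exact Nat.prod_primeFactors_dvd n
    · refine le_trans (Nat.le_of_dvd (by omega) ?_) hnX
      exact Dvd.intro_left _ (cof_mul n)
  have step2 : ∑ n ∈ Lev j, w (Sn j n, Mn j n, cof n) ≤ ∑ q ∈ Big, w q := by
    rw [← Finset.sum_image (f := w) (g := fun n => (Sn j n, Mn j n, cof n)) hinj]
    refine Finset.sum_le_sum_of_subset_of_nonneg ?_ fun q _ _ => hwpos q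
    intro q hq
    rw [mem_image] at hq
    obtain ⟨n, hn, rfl⟩ := hq
    exact hmaps n hn
  have step3 : ∑ q ∈ Big, w q = (∏ p ∈ PS (2 * j), (1 + Real.exp (-(b * xx j p)))) *
      ((∑ m ∈ Finset.Icc 1 X, Real.exp (-(σ * Real.log m))) *
        ∑ m ∈ Finset.Icc 1 X, Real.exp (-(σ * Real.log m))) := by
    rw [hBig, Finset.prod_one_add]
    rw [Finset.sum_mul_sum, Finset.sum_product, Finset.sum_mul]
    refine sum_congr rfl fun T _ => ?_
    simp only [hw]
    rw [← Finset.mul_sum, Finset.sum_product]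
  have hS := sum_rpow_le hσ2 X
  have hS0 : 0 ≤ ∑ m ∈ Finset.Icc 1 X, Real.exp (-(σ * Real.log m)) :=
    sum_nonneg fun m _ => (Real.exp_pos _).le
  have hP : ∏ p ∈ PS (2 * j), (1 + Real.exp (-(b * xx j p))) =
      Real.exp (∑ p ∈ PS (2 * j), Real.log (1 + Real.exp (-(b * xx j p)))) := by
    rw [Real.exp_sum]
    refine prod_congr rfl fun p _ => ?_
    rw [Real.exp_log (by positivity)]
  calc ((Lev j).card : ℝ) = ∑ n ∈ Lev j, (1 : ℝ) := by simp
    _ ≤ ∑ n ∈ Lev j, Real.exp (b * B) * w (Sn j n, Mn j n, cof n) := sum_le_sum step1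
    _ = Real.exp (b * B) * ∑ n ∈ Lev j, w (Sn j n, Mn j n, cof n) := by rw [mul_sum]
    _ ≤ Real.exp (b * B) * ∑ q ∈ Big, w q := by gcongr
    _ ≤ Real.exp (b * B) * (Real.exp (∑ p ∈ PS (2 * j), Real.log (1 + Real.exp (-(b * xx j p)))) *
        (2 * 2)) := by
      rw [step3, hP]
      gcongr
    _ = _ := by rw [Real.exp_add]; ring

end Q204.NA
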