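import Pool.Agent.Q204.NA.Up2
import Pool.Agent.Q239.RN.LB2
import Pool.Agent.Q19.NA.Prod

set_option autoImplicit false

/-! # The number of primes near the level -/

open Finset Topology
open Q239.RN

namespace Q204.NA

theorem card_mul_le {a b : ℕ} (hab : a ≤ b) {S : Finset ℕ} (hS : S ⊆ PS b \ PS a) {l : ℝ}
    (hl : ∀ p ∈ S, l ≤ Real.log p) :
    (S.card : ℝ) * l ≤ Chebyshev.theta (b : ℝ) - Chebyshev.theta (a : ℝ) := by
  rw [theta_PS, theta_PS, ← Finset.sum_sdiff (PS_mono hab), add_sub_cancel_right]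
  have h1 : (S.card : ℝ) * l ≤ ∑ p ∈ S, Real.log (p : ℝ) := by
    rw [← nsmul_eq_mul]
    exact Finset.card_nsmul_le_sum _ _ _ hl
  refine h1.trans (Finset.sum_le_sum_of_subset_of_nonneg hS fun p hp _ => ?_)
  exact Real.log_natCast_nonneg p

theorem theta_diff {C θ' : ℝ} (hC : 0 < C) (h0 : 0 ≤ θ') (h : ∀ v : ℝ, 0 ≤ v → |eT v| ≤ C * Real.exp ((θ' - 1) * v))
    {a b : ℕ} (hab : a ≤ b) (hb : 1 ≤ b) :
    Chebyshev.theta (b : ℝ) - Chebyshev.theta (a : ℝ) ≤ (b : ℝ) - a + 2 * C * (b : ℝ) ^ θ' := by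
  have h1 := (abs_le.1 (theta_of_eT h hb)).2
  have hbpow : (0 : ℝ) ≤ (b : ℝ) ^ θ' := by positivity
  rcases Nat.eq_zero_or_pos a with rfl | ha
  · simp only [Nat.cast_zero]
    have h2 : 0 ≤ Chebyshev.theta (0 : ℝ) := Chebyshev.theta_nonneg _
    nlinarith
  · have h2 := (abs_le.1 (theta_of_eT h ha)).1
    have h3 : (a : ℝ) ^ θ' ≤ (b : ℝ) ^ θ' := by gcongr
    nlinarith

/-- the near primes -/
noncomputable def near (η : ℝ) (j : ℕ) : Finset ℕ :=
  (PS (2 * j)).filter fun p : ℕ => (1 - η) * j ≤ p ∧ (p : ℝ) ≤ (1 + η) * j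

theorem near_count {C θ' : ℝ} (hC : 0 < C) (h0 : 0 ≤ θ') (h1' : θ' ≤ 1)
    (h : ∀ v : ℝ, 0 ≤ v → |eT v| ≤ C * Real.exp ((θ' - 1) * v)) {η : ℝ} (hη : 0 < η) (hη1 : η ≤ 1 / 4)
    {j : ℕ} (hj : 100 ≤ j) (t : ℝ) (ht : 0 ≤ t) :
    (((near η j).filter fun p => xx j p ≤ t).card : ℝ) ≤
      (2 + η) / ((1 - η) * Real.log j) * t + (2 + 6 * C * (j : ℝ) ^ θ') := by
  classical
  have h100 : (100 : ℝ) ≤ j := by exact_mod_cast hj
  have hlj : 2 ≤ Real.log j := (log_big hj).trans (Real.log_le_log (by linarith) (by linarith))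
  have hjp : (0 : ℝ) < j := by linarith
  -- the logarithms
  have hlog : (1 - η) * Real.log j ≤ Real.log ((1 - η) * j) := by
    rw [Real.log_mul (by linarith) hjp.ne']
    have h2 : -(2 * η) ≤ Real.log (1 - η) := by
      have h3 := Real.one_sub_inv_le_log_of_pos (show (0 : ℝ) < 1 - η by linarith)
      have h4 : 1 - (1 - η)⁻¹ = -(η / (1 - η)) := by
        have : (1 - η) ≠ 0 := by linarith
        field_simp
        ring
      rw [h4] at h3
      have h5 : η / (1 - η) ≤ 2 * η := by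
        rw [div_le_iff₀ (by linarith)]
        nlinarith
      linarith
    nlinarith
  set l : ℝ := (1 - η) * Real.log j with hl
  have hl1 : 1 ≤ l := by rw [hl]; nlinarith
  have hpj : 0 ≤ (j : ℝ) ^ θ' := by positivity
  -- lower part
  set A := (near η j).filter fun p => xx j p ≤ t with hA
  have hsplit : A = A.filter (fun p => p ≤ j) ∪ A.filter (fun p => ¬ p ≤ j) := by
    rw [Finset.filter_union_filter_not_eq]
  have hlow : ((A.filter (fun p => p ≤ j)).card : ℝ) * l ≤ t + 1 + 2 * C * (j : ℝ) ^ θ' := by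
    set a : ℕ := ⌈(j : ℝ) - t⌉₊ - 1 with ha
    have haj : a ≤ j := by
      have : ⌈(j : ℝ) - t⌉₊ ≤ j := Nat.ceil_le.2 (by linarith)
      omega
    have hsub : A.filter (fun p => p ≤ j) ⊆ PS j \ PS a := by
      intro p hp
      rw [mem_filter, hA, mem_filter, near, mem_filter, mem_PS] at hp
      obtain ⟨⟨⟨⟨hp1, -⟩, hp2, hp3⟩, hp4⟩, hp5⟩ := hp
      rw [mem_sdiff, mem_PS, mem_PS]
      refine ⟨⟨hp1, hp5⟩, fun h2 => ?_⟩
      unfold xx at hp4
      rw [if_pos hp5] at hp4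
      have h3 : ⌈(j : ℝ) - t⌉₊ ≤ p := Nat.ceil_le.2 (by linarith)
      have h4 := hp1.pos
      omega
    have h2 := card_mul_le haj hsub (l := l) (fun p hp => by
      rw [mem_filter, hA, mem_filter, near, mem_filter, mem_PS] at hp
      obtain ⟨⟨⟨⟨hp1, -⟩, hp2, hp3⟩, hp4⟩, hp5⟩ := hp
      exact hlog.trans (Real.log_le_log (by nlinarith) hp2))
    have h3 := theta_diff hC h0 h haj (by omega)
    have h4 : (j : ℝ) - a ≤ t + 1 := by
      have h5 : (j : ℝ) - t ≤ ⌈(j : ℝ) - t⌉₊ := Nat.le_ceil _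
      have h6 : (⌈(j : ℝ) - t⌉₊ : ℝ) ≤ a + 1 := by
        exact_mod_cast (by omega : ⌈(j : ℝ) - t⌉₊ ≤ a + 1)
      linarith
    linarith
  have hhigh : ((A.filter (fun p => ¬ p ≤ j)).card : ℝ) * l ≤ (1 + η) * t + 1 + 4 * C * (j : ℝ) ^ θ' := by
    set b : ℕ := min ⌊(j : ℝ) + 1 + (1 + η) * t⌋₊ (2 * j) with hb
    have hjb : j ≤ b := by
      rw [hb, le_min_iff]
      refine ⟨Nat.le_floor ?_, by omega⟩
      nlinarith
    have hsub : A.filter (fun p => ¬ p ≤ j) ⊆ PS b \ PS j := by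
      intro p hp
      rw [mem_filter, hA, mem_filter, near, mem_filter, mem_PS] at hp
      obtain ⟨⟨⟨⟨hp1, hp0⟩, hp2, hp3⟩, hp4⟩, hp5⟩ := hp
      rw [mem_sdiff, mem_PS, mem_PS]
      refine ⟨⟨hp1, ?_⟩, fun h2 => hp5 h2.2⟩
      rw [hb, le_min_iff]
      refine ⟨Nat.le_floor ?_, hp0⟩
      unfold xx at hp4
      rw [if_neg hp5] at hp4
      have h6 : (j : ℝ) + 1 ≤ p := by exact_mod_cast (by omega : j + 1 ≤ p)
      rw [div_le_iff₀ (by linarith)] at hp4
      have h7 : ((p : ℝ) - 1 - j) * j ≤ (1 + η) * t * j := by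
        calc ((p : ℝ) - 1 - j) * j ≤ t * (p - 1) := hp4
          _ ≤ t * ((1 + η) * j) := by gcongr; linarith
          _ = _ := by ring
      have h8 := le_of_mul_le_mul_right h7 hjp
      linarith
    have h2 := card_mul_le hjb hsub (l := l) (fun p hp => by
      rw [mem_filter, hA, mem_filter, near, mem_filter, mem_PS] at hp
      obtain ⟨⟨⟨⟨hp1, -⟩, hp2, hp3⟩, hp4⟩, hp5⟩ := hp
      exact hlog.trans (Real.log_le_log (by nlinarith) hp2))
    have h3 := theta_diff hC h0 h hjb (by omega)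
    have h4 : (b : ℝ) - j ≤ 1 + (1 + η) * t := by
      have h5 : (b : ℝ) ≤ ⌊(j : ℝ) + 1 + (1 + η) * t⌋₊ := Nat.cast_le.2 (min_le_left _ _)
      have h6 : (⌊(j : ℝ) + 1 + (1 + η) * t⌋₊ : ℝ) ≤ (j : ℝ) + 1 + (1 + η) * t :=
        Nat.floor_le (by positivity)
      linarith
    have h7 : (b : ℝ) ^ θ' ≤ 2 * (j : ℝ) ^ θ' := by
      have h8 : (b : ℝ) ≤ 2 * j := by
        have h9 : b ≤ 2 * j := min_le_right _ _
        exact_mod_cast h9
      calc (b : ℝ) ^ θ' ≤ (2 * (j : ℝ)) ^ θ' := by gcongr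
        _ = 2 ^ θ' * (j : ℝ) ^ θ' := Real.mul_rpow (by norm_num) hjp.le
        _ ≤ 2 * (j : ℝ) ^ θ' := by
          gcongr
          calc (2 : ℝ) ^ θ' ≤ 2 ^ (1 : ℝ) := Real.rpow_le_rpow_of_exponent_le (by norm_num) h1'
            _ = 2 := Real.rpow_one 2
    nlinarith
  have hcard : (A.card : ℝ) * l ≤ (2 + η) * t + (2 + 6 * C * (j : ℝ) ^ θ') := by
    have h2 : A.card ≤ (A.filter (fun p => p ≤ j)).card + (A.filter (fun p => ¬ p ≤ j)).card := by
      conv_lhs => rw [hsplit]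
      exact Finset.card_union_le _ _
    have h3 : (A.card : ℝ) ≤ (A.filter (fun p => p ≤ j)).card + (A.filter (fun p => ¬ p ≤ j)).card := by
      exact_mod_cast h2
    nlinarith
  have h5 : (A.card : ℝ) ≤ ((2 + η) * t + (2 + 6 * C * (j : ℝ) ^ θ')) / l := by
    rw [le_div_iff₀ (by linarith)]
    exact hcard
  refine h5.trans ?_
  rw [add_div, div_mul_eq_mul_div]
  gcongr
  exact div_le_self (by positivity) hl1

/-- the far primes do not matter -/
theorem far_bound {η : ℝ} (hη : 0 < η) {j : ℕ} (hj : 100 ≤ j) (hηj : 2 ≤ η * j) {b : ℝ}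
    (hb : 0 < b) (hbj : Real.log (2 * j) ≤ b * (η * j / 4)) :
    ∑ p ∈ PS (2 * j) \ near η j, Real.log (1 + Real.exp (-(b * xx j p))) ≤ 1 := by
  have h100 : (100 : ℝ) ≤ j := by exact_mod_cast hj
  have hjp : (0 : ℝ) < j := by linarith
  have h1 : ∀ p ∈ PS (2 * j) \ near η j, Real.log (1 + Real.exp (-(b * xx j p))) ≤ 1 / (2 * j) := by
    intro p hp
    rw [mem_sdiff, near, mem_filter, mem_PS] at hp
    obtain ⟨⟨hp1, hp2⟩, hp3⟩ := hp
    have hx : η * j / 4 ≤ xx j p := by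
      by_cases hpj : p ≤ j
      · unfold xx
        rw [if_pos hpj]
        have h4 : (p : ℝ) < (1 - η) * j := by
          by_contra h5
          push Not at h5
          refine hp3 ⟨⟨hp1, hp2⟩, h5, ?_⟩
          have : (p : ℝ) ≤ j := by exact_mod_cast hpj
          nlinarith
        nlinarith
      · unfold xx
        rw [if_neg hpj]
        have h6 : (j : ℝ) + 1 ≤ p := by exact_mod_cast (by omega : j + 1 ≤ p)
        have h4 : (1 + η) * j < p := by
          by_contra h5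
          push Not at h5
          refine hp3 ⟨⟨hp1, hp2⟩, ?_, h5⟩
          nlinarith
        have h7 : (p : ℝ) ≤ 2 * j := by exact_mod_cast hp2
        rw [le_div_iff₀ (by linarith)]
        have h8 : η * j / 2 ≤ (p : ℝ) - 1 - j := by nlinarith
        calc η * j / 4 * (p - 1) ≤ η * j / 4 * (2 * j) := by gcongr; linarith
          _ = η * j / 2 * j := by ring
          _ ≤ _ := by gcongr
    have h2 : Real.exp (-(b * xx j p)) ≤ 1 / (2 * j) := by
      have h3 : Real.log (2 * j) ≤ b * xx j p := hbj.trans (by gcongr)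
      calc Real.exp (-(b * xx j p)) ≤ Real.exp (-(Real.log (2 * j))) := by
            apply Real.exp_le_exp.2; linarith
        _ = 1 / (2 * j) := by rw [Real.exp_neg, Real.exp_log (by positivity), one_div]
    have h3 := Real.log_le_sub_one_of_pos (show 0 < 1 + Real.exp (-(b * xx j p)) by positivity)
    linarith
  refine (Finset.sum_le_card_nsmul _ _ _ h1).trans ?_
  rw [nsmul_eq_mul]
  have h2 : ((PS (2 * j) \ near η j).card : ℝ) ≤ 2 * j := by
    have h3 : (PS (2 * j) \ near η j).card ≤ 2 * j := by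
      refine (Finset.card_le_card Finset.sdiff_subset).trans ?_
      unfold PS
      refine (Finset.card_filter_le _ _).trans ?_
      simp
    exact_mod_cast h3
  calc ((PS (2 * j) \ near η j).card : ℝ) * (1 / (2 * j)) ≤ 2 * j * (1 / (2 * j)) := by gcongr
    _ = 1 := by field_simp

end Q204.NA
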